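import Pool.Agent.CTL.Top

/-!
# CTL / Code: cube tiling codes as systems of columns
-/

namespace CTL

open Finset

/-- dichotomous words -/
def Dich {S : Type*} (co : S → S) {d : ℕ} (v w : Fin d → S) : Prop := ∃ i, v i = co (w i)

/-- cube tiling codes: `2 ^ d` pairwise dichotomous words of length `d` -/
def IsTiling {S : Type*} (co : S → S) {d : ℕ} (V : Set (Fin d → S)) : Prop :=
  V.ncard = 2 ^ d ∧ ∀ v ∈ V, ∀ w ∈ V, v ≠ w → Dich co v w

/-- a gluing-and-cutting operation: the twin pair `v, w` (`v i = (w i)'` and `v j = w j` for `j ≠ i`) is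
replaced by the pair of the words which have the letters `s`, `s'` at the place `i` and the letters of `v`
at the other places -/
def Step {S : Type*} (co : S → S) {d : ℕ} (V W : Set (Fin d → S)) : Prop :=
  ∃ v ∈ V, ∃ w ∈ V, ∃ (i : Fin d) (s : S), v i = co (w i) ∧ (∀ j, j ≠ i → v j = w j) ∧
    W = (V \ {v, w}) ∪ {Function.update v i s, Function.update v i (co s)}

/-- strong equivalence -/
def StronglyEquivalent {S : Type*} (co : S → S) {d : ℕ} : Set (Fin d → S) → Set (Fin d → S) → Prop :=
  Relation.ReflTransGen (Step co)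

/-- the sign change of a word at the places of `σ` -/
def signChange {S : Type*} (co : S → S) {d : ℕ} (σ : Finset (Fin d)) (v : Fin d → S) :
    Fin d → S := fun i => if i ∈ σ then co (v i) else v i

/-- the sign changes which map `V` onto itself -/
def signSym {S : Type*} (co : S → S) {d : ℕ} (V : Set (Fin d → S)) : Set (Finset (Fin d)) :=
  {σ | signChange co σ '' V = V}

section sign

variable {S : Type*} {co : S → S}

theorem exists_sign (hco : ∀ s, co (co s) = s) (hne : ∀ s, co s ≠ s) :
    ∃ sg : S → ZMod 2, ∀ s, sg (co s) = sg s + 1 := by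
  classical
  obtain ⟨_, -⟩ := exists_wellOrder S
  refine ⟨fun s => if s < co s then 0 else 1, fun s => ?_⟩
  beta_reduce
  rw [hco]
  rcases lt_trichotomy s (co s) with h | h | h
  · rw [if_neg (not_lt.2 h.le), if_pos h, zero_add]
  · exact absurd h.symm (hne s)
  · rw [if_pos h, if_neg (not_lt.2 h.le)]
    rfl

/-- labels -/
abbrev Lab (sg : S → ZMod 2) : Type _ := {s : S // sg s = 0}

open Classical in
/-- the letter of sign `b` with label `l` -/
noncomputable def ltr (co : S → S) (sg : S → ZMod 2) (b : ZMod 2) (l : Lab sg) : S :=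
  if b = 0 then l.1 else co l.1

theorem zmod2 (b : ZMod 2) : b = 0 ∨ b = 1 := by
  revert b
  decide

theorem sg_ltr {sg : S → ZMod 2} (hsg : ∀ s, sg (co s) = sg s + 1) (b : ZMod 2) (l : Lab sg) :
    sg (ltr co sg b l) = b := by
  unfold ltr
  rcases zmod2 b with rfl | rfl
  · rw [if_pos rfl]
    exact l.2
  · rw [if_neg one_ne_zero, hsg, l.2, zero_add]

theorem ltr_add_one (hco : ∀ s, co (co s) = s) {sg : S → ZMod 2} (b : ZMod 2) (l : Lab sg) :
    ltr co sg (b + 1) l = co (ltr co sg b l) := by
  unfold ltr
  rcases zmod2 b with rfl | rfl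
  · rw [zero_add, if_neg one_ne_zero, if_pos rfl]
  · have e : (1 : ZMod 2) + 1 = 0 := rfl
    rw [e, if_pos rfl, if_neg one_ne_zero, hco]

/-- the label of a letter -/
theorem exists_rep (hco : ∀ s, co (co s) = s) {sg : S → ZMod 2}
    (hsg : ∀ s, sg (co s) = sg s + 1) : ∃ rep : S → Lab sg,
      (∀ s, ltr co sg (sg s) (rep s) = s) ∧ ∀ s, rep (co s) = rep s := by
  classical
  have h1 : ∀ s, ¬ sg s = 0 → sg (co s) = 0 := by
    intro s hs
    rw [hsg, (zmod2 (sg s)).resolve_left hs]
    rfl
  refine ⟨fun s => if h : sg s = 0 then ⟨s, h⟩ else ⟨co s, h1 s h⟩, fun s => ?_, fun s => ?_⟩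
  · beta_reduce
    unfold ltr
    by_cases h : sg s = 0
    · rw [dif_pos h, if_pos h]
    · rw [dif_neg h, if_neg h, hco]
  · beta_reduce
    by_cases h : sg s = 0
    · have h2 : ¬ sg (co s) = 0 := by
        rw [hsg, h, zero_add]
        exact one_ne_zero
      rw [dif_pos h, dif_neg h2]
      exact Subtype.ext (hco s)
    · rw [dif_neg h, dif_pos (h1 s h)]

end sign

section word

variable {S : Type*} {co : S → S} {sg : S → ZMod 2} {d : ℕ}

/-- the group of signs -/
abbrev Pt (d : ℕ) : Type := Fin d → ZMod 2

theorem pt_two (x : Pt d) : x + x = 0 := by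
  funext i
  rcases zmod2 (x i) with h | h
  · simp [h]
  · simp only [Pi.add_apply, h, Pi.zero_apply]
    rfl

/-- the directions -/
def eP (i : Fin d) : Pt d := Pi.single i 1

/-- the word of a point -/
noncomputable def word (co : S → S) (sg : S → ZMod 2) (c : Fin d → Pt d → Lab sg) (x : Pt d) :
    Fin d → S := fun i => ltr co sg (x i) (c i x)

/-- the code of a system -/
def enc (co : S → S) (sg : S → ZMod 2) (c : Fin d → Pt d → Lab sg) : Set (Fin d → S) :=
  Set.range (word co sg c)

theorem sg_word (hsg : ∀ s, sg (co s) = sg s + 1) (c : Fin d → Pt d → Lab sg) (x : Pt d)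
    (i : Fin d) : sg (word co sg c x i) = x i := sg_ltr hsg _ _

theorem word_inj (hsg : ∀ s, sg (co s) = sg s + 1) (c : Fin d → Pt d → Lab sg) {x y : Pt d}
    (h : word co sg c x = word co sg c y) : x = y := by
  funext i
  rw [← sg_word hsg c x i, ← sg_word hsg c y i, h]

theorem eP_self (i : Fin d) : (eP i : Pt d) i = 1 := Pi.single_eq_same i 1

theorem eP_ne {i j : Fin d} (h : j ≠ i) : (eP i : Pt d) j = 0 := Pi.single_eq_of_ne h 1

/-- a move is a gluing-and-cutting operation -/
theorem step_of_mv (hco : ∀ s, co (co s) = s) (hsg : ∀ s, sg (co s) = sg s + 1)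
    {c c' : Fin d → Pt d → Lab sg} (hs : IsSys (eP (d := d)) c) (hm : Mv eP ⊤ c c') :
    Step co (enc co sg c) (enc co sg c') := by
  obtain ⟨i, x, l, -, hfree, rfl⟩ := hm
  have h1 : word co sg c (x + eP i) i = co (word co sg c x i) := by
    unfold word
    rw [hs.inv, Pi.add_apply, eP_self, ltr_add_one hco]
  have h3 : ∀ j, j ≠ i → word co sg c (x + eP i) j = word co sg c x j := by
    intro j hj
    unfold word
    rw [← hfree j hj, Pi.add_apply, eP_ne hj, add_zero]
  refine ⟨word co sg c x, ⟨x, rfl⟩, word co sg c (x + eP i), ⟨x + eP i, rfl⟩, i,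
    ltr co sg (x i) l, ?_, fun j hj => (h3 j hj).symm, ?_⟩
  · rw [h1, hco]
  · -- the words of the new system
    have m1 : x ∈ ({x} : Set (Pt d)) ∨ x + eP i ∈ ({x} : Set (Pt d)) :=
      Or.inl (Set.mem_singleton x)
    have m2 : x + eP i ∈ ({x} : Set (Pt d)) ∨ x + eP i + eP i ∈ ({x} : Set (Pt d)) := by
      right
      rw [add_assoc, pt_two, add_zero]
      exact Set.mem_singleton x
    have w1 : word co sg (rcl eP c i {x} l) x =
        Function.update (word co sg c x) i (ltr co sg (x i) l) := by
      funext j
      by_cases hj : j = i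
      · subst hj
        rw [Function.update_self]
        unfold word
        rw [rcl_mem m1]
      · rw [Function.update_of_ne hj]
        unfold word
        rw [rcl_ne hj]
    have w2 : word co sg (rcl eP c i {x} l) (x + eP i) =
        Function.update (word co sg c x) i (co (ltr co sg (x i) l)) := by
      funext j
      by_cases hj : j = i
      · subst hj
        rw [Function.update_self]
        unfold word
        rw [rcl_mem m2, Pi.add_apply, eP_self, ltr_add_one hco]
      · rw [Function.update_of_ne hj, ← h3 j hj]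
        unfold word
        rw [rcl_ne hj]
    have w3 : ∀ y, y ≠ x → y ≠ x + eP i →
        word co sg (rcl eP c i {x} l) y = word co sg c y := by
      intro y hy1 hy2
      funext j
      unfold word
      rw [rcl_not]
      rintro (h | h)
      · exact hy1 (Set.mem_singleton_iff.1 h)
      · apply hy2
        rw [← Set.mem_singleton_iff.1 h, add_assoc, pt_two, add_zero]
    ext u
    constructor
    · rintro ⟨y, rfl⟩
      by_cases hy1 : y = x
      · right
        left
        rw [hy1]
        exact w1
      · by_cases hy2 : y = x + eP i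
        · right
          right
          rw [hy2]
          exact w2
        · left
          rw [w3 y hy1 hy2]
          refine ⟨⟨y, rfl⟩, ?_⟩
          rintro (h | h)
          · exact hy1 (word_inj hsg c h)
          · exact hy2 (word_inj hsg c h)
    · rintro (⟨⟨y, rfl⟩, hu⟩ | hu | hu)
      · have hy1 : y ≠ x := by
          rintro rfl
          exact hu (Or.inl rfl)
        have hy2 : y ≠ x + eP i := by
          rintro rfl
          exact hu (Or.inr rfl)
        exact ⟨y, w3 y hy1 hy2⟩
      · exact ⟨x, by rw [w1, hu]⟩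
      · exact ⟨x + eP i, by rw [w2, hu]⟩

theorem equiv_of_conn (hco : ∀ s, co (co s) = s) (hsg : ∀ s, sg (co s) = sg s + 1)
    {c c' : Fin d → Pt d → Lab sg} (hs : IsSys (eP (d := d)) c) (hc : Conn eP ⊤ c c') :
    StronglyEquivalent co (enc co sg c) (enc co sg c') := by
  induction hc with
  | refl => exact Relation.ReflTransGen.refl
  | tail h1 h ih => exact ih.tail (step_of_mv hco hsg (Conn.isSys pt_two hs h1) h)

end word

end CTL
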