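import Mathlib

/-!
# CTL / Core: quotient codes, local lemmas

`R g x y`: the columns of direction `g` have the same labels at `x` and `y`. `Q` is an elementary
abelian 2-group.
-/

namespace CTL

/-- abstract quotient codes -/
structure Core {Q : Type*} [AddCommGroup Q] (R : Q → Q → Q → Prop) : Prop where
  refl : ∀ g x, R g x x
  symm : ∀ g x y, R g x y → R g y x
  trans : ∀ g x y z, R g x y → R g y z → R g x z
  inv : ∀ g x, R g x (x + g)
  key : ∀ (T : Finset Q), ∑ g ∈ T, g ≠ 0 → ∀ x, ∃ g ∈ T, R g x (x + ∑ g ∈ T, g)

section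

variable {Q : Type*} [AddCommGroup Q]

/-- normalisation in groups of exponent 2 -/
theorem add_self_left (h2 : ∀ x : Q, x + x = 0) (x y : Q) : x + (x + y) = y := by
  rw [← add_assoc, h2, zero_add]

theorem eq_of_add (h2 : ∀ x : Q, x + x = 0) {a b : Q} (h : a + b = 0) : a = b := by
  have h1 : a + b + b = b := by rw [h, zero_add]
  rwa [add_assoc, h2, add_zero] at h1

theorem ne_of_add (h2 : ∀ x : Q, x + x = 0) {a b s : Q} (hs : s ≠ 0) (h : a + b = s) :
    a ≠ b := by
  rintro rfl
  rw [h2] at h
  exact hs h.symm

end

namespace Core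

variable {Q : Type*} [AddCommGroup Q] {R : Q → Q → Q → Prop}

theorem of_eq (hR : Core R) {g x y : Q} (h : x = y) : R g x y := h ▸ hR.refl g x

theorem congr_left (hR : Core R) {g x x' y : Q} (h : R g x x') : R g x y ↔ R g x' y :=
  ⟨fun h1 => hR.trans _ _ _ _ (hR.symm _ _ _ h) h1, fun h1 => hR.trans _ _ _ _ h h1⟩

theorem congr_right (hR : Core R) {g x y y' : Q} (h : R g y y') : R g x y ↔ R g x y' :=
  ⟨fun h1 => hR.trans _ _ _ _ h1 h, fun h1 => hR.trans _ _ _ _ h1 (hR.symm _ _ _ h)⟩

/-- a flat has at most one active direction -/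
theorem k2 (hR : Core R) (h2 : ∀ x : Q, x + x = 0) {x g h : Q} (h1 : ¬ R g x (x + h)) :
    R h x (x + g) := by
  classical
  by_cases hgh : g = h
  · subst hgh
    exact hR.inv g x
  · have hs : ∑ γ ∈ ({g, h} : Finset Q), γ = g + h := Finset.sum_pair hgh
    obtain ⟨γ, hγ, hγ2⟩ := hR.key {g, h} (by
      rw [hs]
      exact fun h3 => hgh (eq_of_add h2 h3)) x
    rw [hs] at hγ2
    rcases Finset.mem_insert.1 hγ with rfl | hγ
    · exfalso
      apply h1
      have h3 := hR.inv γ (x + h)
      have e : x + h + γ = x + (γ + h) := by simp only [add_comm, add_left_comm, add_assoc, h2, add_self_left h2, add_zero, zero_add]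
      rw [e] at h3
      exact hR.trans _ _ _ _ hγ2 (hR.symm _ _ _ h3)
    · rw [Finset.mem_singleton] at hγ
      subst hγ
      have h3 := hR.inv γ (x + g)
      rw [add_assoc] at h3
      exact hR.trans _ _ _ _ hγ2 (hR.symm _ _ _ h3)

theorem k3 (hR : Core R) (h2 : ∀ x : Q, x + x = 0) {x g u h : Q} (hg : ¬ R g x (x + u + h))
    (hu : ¬ R u x (x + g + h)) (hh : ¬ R h x (x + g + u)) : False := by
  classical
  by_cases hgu : g = u
  · subst hgu
    apply hh
    rw [add_assoc, h2, add_zero]
    exact hR.refl _ _
  by_cases hgh : g = h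
  · subst hgh
    apply hu
    rw [add_assoc, h2, add_zero]
    exact hR.refl _ _
  by_cases huh : u = h
  · subst huh
    apply hg
    rw [add_assoc, h2, add_zero]
    exact hR.refl _ _
  have hs : ∑ γ ∈ ({g, u, h} : Finset Q), γ = g + (u + h) := by
    rw [Finset.sum_insert (by simp [hgu, hgh]), Finset.sum_pair huh]
  have hne : g + (u + h) ≠ 0 := by
    intro h3
    apply hg
    have h4 := eq_of_add h2 h3
    rw [add_assoc, ← h4]
    exact hR.inv g x
  obtain ⟨γ, hγ, hγ2⟩ := hR.key {g, u, h} (by rw [hs]; exact hne) x
  rw [hs] at hγ2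
  simp only [Finset.mem_insert, Finset.mem_singleton] at hγ
  rcases hγ with rfl | rfl | rfl
  · apply hg
    have h3 := hR.inv γ (x + u + h)
    have e : x + u + h + γ = x + (γ + (u + h)) := by simp only [add_comm, add_left_comm, add_assoc, h2, add_self_left h2, add_zero, zero_add]
    rw [e] at h3
    exact hR.trans _ _ _ _ hγ2 (hR.symm _ _ _ h3)
  · apply hu
    have h3 := hR.inv γ (x + g + h)
    have e : x + g + h + γ = x + (g + (γ + h)) := by simp only [add_comm, add_left_comm, add_assoc, h2, add_self_left h2, add_zero, zero_add]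
    rw [e] at h3
    exact hR.trans _ _ _ _ hγ2 (hR.symm _ _ _ h3)
  · apply hh
    have h3 := hR.inv γ (x + g + u)
    have e : x + g + u + γ = x + (g + (u + γ)) := by simp only [add_comm, add_left_comm, add_assoc, h2, add_self_left h2, add_zero, zero_add]
    rw [e] at h3
    exact hR.trans _ _ _ _ hγ2 (hR.symm _ _ _ h3)

theorem k4 (hR : Core R) (h2 : ∀ x : Q, x + x = 0) {x g u h w : Q}
    (hg : ¬ R g x (x + u + h + w)) (hu : ¬ R u x (x + g + h + w))
    (hh : ¬ R h x (x + g + u + w)) (hw : ¬ R w x (x + g + u + h)) : False := by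
  classical
  -- equal directions
  have eqcase : ∀ a b c d : Q, a = b → ¬ R c x (x + a + b + d) → ¬ R d x (x + a + b + c) →
      False := by
    intro a b c d hab hc hd
    subst hab
    have e1 : x + a + a + d = x + d := by simp only [add_comm, add_left_comm, add_assoc, h2, add_self_left h2, add_zero, zero_add]
    have e2 : x + a + a + c = x + c := by simp only [add_comm, add_left_comm, add_assoc, h2, add_self_left h2, add_zero, zero_add]
    rw [e1] at hc
    rw [e2] at hd
    exact hd (hR.k2 h2 hc)
  by_cases hgu : g = u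
  · exact eqcase g u h w hgu hh hw
  by_cases hgh : g = h
  · refine eqcase g h u w hgh ?_ ?_
    · have e : x + g + h + w = x + g + h + w := rfl
      exact hu
    · have e : x + g + h + u = x + g + u + h := by simp only [add_comm, add_left_comm, add_assoc, h2, add_self_left h2, add_zero, zero_add]
      rw [e]
      exact hw
  by_cases hgw : g = w
  · refine eqcase g w u h hgw ?_ ?_
    · have e : x + g + w + h = x + g + h + w := by simp only [add_comm, add_left_comm, add_assoc, h2, add_self_left h2, add_zero, zero_add]
      rw [e]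
      exact hu
    · have e : x + g + w + u = x + g + u + w := by simp only [add_comm, add_left_comm, add_assoc, h2, add_self_left h2, add_zero, zero_add]
      rw [e]
      exact hh
  by_cases huh : u = h
  · refine eqcase u h g w huh ?_ ?_
    · exact hg
    · have e : x + u + h + g = x + g + u + h := by simp only [add_comm, add_left_comm, add_assoc, h2, add_self_left h2, add_zero, zero_add]
      rw [e]
      exact hw
  by_cases huw : u = w
  · refine eqcase u w g h huw ?_ ?_
    · have e : x + u + w + h = x + u + h + w := by simp only [add_comm, add_left_comm, add_assoc, h2, add_self_left h2, add_zero, zero_add]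
      rw [e]
      exact hg
    · have e : x + u + w + g = x + g + u + w := by simp only [add_comm, add_left_comm, add_assoc, h2, add_self_left h2, add_zero, zero_add]
      rw [e]
      exact hh
  by_cases hhw : h = w
  · refine eqcase h w g u hhw ?_ ?_
    · have e : x + h + w + u = x + u + h + w := by simp only [add_comm, add_left_comm, add_assoc, h2, add_self_left h2, add_zero, zero_add]
      rw [e]
      exact hg
    · have e : x + h + w + g = x + g + h + w := by simp only [add_comm, add_left_comm, add_assoc, h2, add_self_left h2, add_zero, zero_add]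
      rw [e]
      exact hu
  have hs : ∑ γ ∈ ({g, u, h, w} : Finset Q), γ = g + (u + (h + w)) := by
    rw [Finset.sum_insert (by simp [hgu, hgh, hgw]), Finset.sum_insert (by simp [huh, huw]),
      Finset.sum_pair hhw]
  have hne : g + (u + (h + w)) ≠ 0 := by
    intro h3
    apply hg
    have h4 := eq_of_add h2 h3
    have e : x + u + h + w = x + g := by
      rw [h4]
      simp only [add_comm, add_left_comm, add_assoc, h2, add_self_left h2, add_zero, zero_add]
    rw [e]
    exact hR.inv g x
  obtain ⟨γ, hγ, hγ2⟩ := hR.key {g, u, h, w} (by rw [hs]; exact hne) x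
  rw [hs] at hγ2
  simp only [Finset.mem_insert, Finset.mem_singleton] at hγ
  rcases hγ with rfl | rfl | rfl | rfl
  · apply hg
    have h3 := hR.inv γ (x + u + h + w)
    have e : x + u + h + w + γ = x + (γ + (u + (h + w))) := by simp only [add_comm, add_left_comm, add_assoc, h2, add_self_left h2, add_zero, zero_add]
    rw [e] at h3
    exact hR.trans _ _ _ _ hγ2 (hR.symm _ _ _ h3)
  · apply hu
    have h3 := hR.inv γ (x + g + h + w)
    have e : x + g + h + w + γ = x + (g + (γ + (h + w))) := by simp only [add_comm, add_left_comm, add_assoc, h2, add_self_left h2, add_zero, zero_add]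
    rw [e] at h3
    exact hR.trans _ _ _ _ hγ2 (hR.symm _ _ _ h3)
  · apply hh
    have h3 := hR.inv γ (x + g + u + w)
    have e : x + g + u + w + γ = x + (g + (u + (γ + w))) := by simp only [add_comm, add_left_comm, add_assoc, h2, add_self_left h2, add_zero, zero_add]
    rw [e] at h3
    exact hR.trans _ _ _ _ hγ2 (hR.symm _ _ _ h3)
  · apply hw
    have h3 := hR.inv γ (x + g + u + h)
    have e : x + g + u + h + γ = x + (g + (u + (h + γ))) := by simp only [add_comm, add_left_comm, add_assoc, h2, add_self_left h2, add_zero, zero_add]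
    rw [e] at h3
    exact hR.trans _ _ _ _ hγ2 (hR.symm _ _ _ h3)

end Core

/-- three skew lines (rods) in the 3-flat `z + ⟨g, u, h⟩`: `{z + h, z + h + g}`,
`{z + g, z + g + u}`, `{z + u, z + u + h}` -/
structure Rods {Q : Type*} [AddCommGroup Q] (R : Q → Q → Q → Prop) (z g u h : Q) : Prop where
  g1 : R g z (z + u)
  g2 : R g z (z + u + h)
  g3 : ¬ R g z (z + h)
  u1 : R u z (z + h)
  u2 : R u z (z + h + g)
  u3 : ¬ R u z (z + g)
  h1 : R h z (z + g)
  h2 : R h z (z + g + u)
  h3 : ¬ R h z (z + u)

theorem Rods.cyc {Q : Type*} [AddCommGroup Q] {R : Q → Q → Q → Prop} {z g u h : Q}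
    (h0 : Rods R z g u h) : Rods R z u h g :=
  ⟨h0.u1, h0.u2, h0.u3, h0.h1, h0.h2, h0.h3, h0.g1, h0.g2, h0.g3⟩

namespace Core

variable {Q : Type*} [AddCommGroup Q] {R : Q → Q → Q → Prop}

theorem rods_of (hR : Core R) (h2 : ∀ x : Q, x + x = 0) {z g u h : Q} (g1 : R g z (z + u))
    (g2 : R g z (z + u + h)) (g3 : ¬ R g z (z + h)) (u3 : ¬ R u z (z + g))
    (h3 : ¬ R h z (z + u)) : Rods R z g u h := by
  have e1 : R h z (z + g) := hR.k2 h2 g3
  have e2 : R u z (z + h) := hR.k2 h2 h3
  have e3 : R u (z + h) (z + h + g) := by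
    apply hR.k2 h2
    intro h4
    apply g3
    have h5 : z + h + u = z + u + h := by simp only [add_comm, add_left_comm, add_assoc, h2, add_self_left h2, add_zero, zero_add]
    rw [h5] at h4
    exact hR.trans _ _ _ _ g2 (hR.symm _ _ _ h4)
  have e4 : R u z (z + h + g) := hR.trans _ _ _ _ e2 e3
  have e5 : R h (z + g) (z + g + u) := by
    apply hR.k2 h2
    intro h4
    apply u3
    have h5 : z + g + h = z + h + g := by simp only [add_comm, add_left_comm, add_assoc, h2, add_self_left h2, add_zero, zero_add]
    rw [h5] at h4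
    exact hR.trans _ _ _ _ e4 (hR.symm _ _ _ h4)
  exact ⟨g1, g2, g3, e2, e4, u3, e1, hR.trans _ _ _ _ e1 e5, h3⟩

/-- the basic trichotomy -/
theorem ab (hR : Core R) (h2 : ∀ x : Q, x + x = 0) {x g u h : Q} (h1 : R g x (x + u))
    (hu : ¬ R u x (x + g)) (hh : ¬ R h x (x + u)) :
    (R g x (x + h) ∧ R g x (x + u + h)) ∨ (R g x (x + h) ∧ Rods R (x + u) g u h) ∨
      (R g x (x + u + h) ∧ Rods R x g u h) := by
  by_cases c1 : R g x (x + h)
  · by_cases c2' : R g x (x + u + h)
    · exact Or.inl ⟨c1, c2'⟩
    · right
      left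
      refine ⟨c1, hR.rods_of h2 ?_ ?_ ?_ ?_ ?_⟩
      · have e : x + u + u = x := by simp only [add_comm, add_left_comm, add_assoc, h2, add_self_left h2, add_zero, zero_add]
        rw [e]
        exact hR.symm _ _ _ h1
      · have e : x + u + u + h = x + h := by simp only [add_comm, add_left_comm, add_assoc, h2, add_self_left h2, add_zero, zero_add]
        rw [e]
        exact hR.trans _ _ _ _ (hR.symm _ _ _ h1) c1
      · intro h4
        exact c2' (hR.trans _ _ _ _ h1 h4)
      · intro h4
        apply hu
        have h5 := hR.inv u x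
        have h6 := hR.inv u (x + g)
        have e : x + g + u = x + u + g := by simp only [add_comm, add_left_comm, add_assoc, h2, add_self_left h2, add_zero, zero_add]
        rw [e] at h6
        exact hR.trans _ _ _ _ h5 (hR.trans _ _ _ _ h4 (hR.symm _ _ _ h6))
      · intro h4
        apply hh
        have e : x + u + u = x := by simp only [add_comm, add_left_comm, add_assoc, h2, add_self_left h2, add_zero, zero_add]
        rw [e] at h4
        exact hR.symm _ _ _ h4
  · by_cases c2' : R g x (x + u + h)
    · right
      right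
      exact ⟨c2', hR.rods_of h2 h1 c2' c1 hu hh⟩
    · exfalso
      -- flats g-active
      have a1 : R h x (x + g) := hR.k2 h2 c1
      have a2 : R h (x + u) (x + u + g) := by
        apply hR.k2 h2
        intro h4
        exact c2' (hR.trans _ _ _ _ h1 h4)
      -- C_u constant along h
      have a3 : R u x (x + h) := hR.k2 h2 hh
      have a4 : R u (x + g) (x + g + h) := by
        apply hR.k2 h2
        intro h4
        apply hh
        have e : x + g + u = x + u + g := by simp only [add_comm, add_left_comm, add_assoc, h2, add_self_left h2, add_zero, zero_add]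
        rw [e] at h4
        exact hR.trans _ _ _ _ a1 (hR.trans _ _ _ _ h4 (hR.symm _ _ _ a2))
      refine hR.k3 h2 (x := x) (g := g) (u := u) (h := h) c2' ?_ ?_
      · intro h4
        exact hu (hR.trans _ _ _ _ h4 (hR.symm _ _ _ a4))
      · intro h4
        apply hh
        have e : x + g + u = x + u + g := by simp only [add_comm, add_left_comm, add_assoc, h2, add_self_left h2, add_zero, zero_add]
        rw [e] at h4
        exact hR.trans _ _ _ _ h4 (hR.symm _ _ _ a2)

end Core

end CTL
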