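import Pool.Agent.CTL.Lm

/-!
# CTL / Dbl: subgroups by doubling
-/

namespace CTL

open Finset

variable {Q : Type*} [AddCommGroup Q]

open Classical in
/-- `H ∪ (H + k)` -/
noncomputable def dbl (H : Finset Q) (k : Q) : Finset Q := H ∪ H.image (· + k)

theorem mem_dbl (h2 : ∀ x : Q, x + x = 0) {H : Finset Q} {k p : Q} :
    p ∈ dbl H k ↔ p ∈ H ∨ p + k ∈ H := by
  classical
  unfold dbl
  rw [Finset.mem_union, Finset.mem_image]
  constructor
  · rintro (h | ⟨a, ha, rfl⟩)
    · exact Or.inl h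
    · right
      rw [add_assoc, h2, add_zero]
      exact ha
  · rintro (h | h)
    · exact Or.inl h
    · exact Or.inr ⟨p + k, h, by rw [add_assoc, h2, add_zero]⟩

/-- closed under addition -/
def Cl (H : Finset Q) : Prop := 0 ∈ H ∧ ∀ a ∈ H, ∀ b ∈ H, a + b ∈ H

theorem cl_zero : Cl ({0} : Finset Q) := by
  refine ⟨Finset.mem_singleton_self _, fun a ha b hb => ?_⟩
  rw [Finset.mem_singleton.1 ha, Finset.mem_singleton.1 hb, add_zero]
  exact Finset.mem_singleton_self _

theorem Cl.dbl (h2 : ∀ x : Q, x + x = 0) {H : Finset Q} (hH : Cl H) (k : Q) :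
    Cl (dbl H k) := by
  refine ⟨(mem_dbl h2).2 (Or.inl hH.1), fun a ha b hb => ?_⟩
  rw [mem_dbl h2] at ha hb ⊢
  rcases ha with ha | ha
  · rcases hb with hb | hb
    · exact Or.inl (hH.2 a ha b hb)
    · right
      have := hH.2 a ha _ hb
      rwa [← add_assoc] at this
  · rcases hb with hb | hb
    · right
      have := hH.2 _ ha b hb
      have e : a + k + b = a + b + k := by simp only [add_comm, add_left_comm, add_assoc, h2, add_self_left h2, add_zero, zero_add]
      rwa [e] at this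
    · left
      have := hH.2 _ ha _ hb
      have e : a + k + (b + k) = a + b := by simp only [add_comm, add_left_comm, add_assoc, h2, add_self_left h2, add_zero, zero_add]
      rwa [e] at this

theorem card_dbl (h2 : ∀ x : Q, x + x = 0) {H : Finset Q} (hH : Cl H) {k : Q} (hk : k ∉ H) :
    (dbl H k).card = 2 * H.card := by
  classical
  have hdis : Disjoint H (H.image (· + k)) := by
    rw [Finset.disjoint_left]
    intro a ha hb
    obtain ⟨b, hb, hab⟩ := Finset.mem_image.1 hb
    apply hk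
    have := hH.2 a ha b hb
    have e : a + b = k := by
      rw [← hab]
      beta_reduce
      simp only [add_comm, add_left_comm, add_assoc, h2, add_self_left h2, add_zero, zero_add]
    rwa [e] at this
  unfold CTL.dbl
  rw [Finset.card_union_of_disjoint hdis, Finset.card_image_of_injective _ (add_left_injective k)]
  ring

/-- the subgroup of order 8 -/
noncomputable def h3 (g u h : Q) : Finset Q := dbl (dbl (dbl {0} g) u) h

theorem mem_h3 (h2 : ∀ x : Q, x + x = 0) {g u h p : Q} : p ∈ h3 g u h ↔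
    ((p = 0 ∨ p + g = 0) ∨ (p + u = 0 ∨ p + u + g = 0)) ∨
      ((p + h = 0 ∨ p + h + g = 0) ∨ (p + h + u = 0 ∨ p + h + u + g = 0)) := by
  unfold h3
  simp only [mem_dbl h2, Finset.mem_singleton]

theorem cl_h3 (h2 : ∀ x : Q, x + x = 0) (g u h : Q) : Cl (h3 g u h) :=
  ((cl_zero.dbl h2 g).dbl h2 u).dbl h2 h

/-- independence of three elements -/
def I3 (g u h : Q) : Prop :=
  g ≠ 0 ∧ u ≠ 0 ∧ h ≠ 0 ∧ g + u ≠ 0 ∧ g + h ≠ 0 ∧ u + h ≠ 0 ∧ g + u + h ≠ 0

theorem I3.cyc {g u h : Q} (hI : I3 g u h) : I3 u h g := by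
  obtain ⟨n1, n2, n3, n4, n5, n6, n7⟩ := hI
  refine ⟨n2, n3, n1, n6, ?_, ?_, ?_⟩
  · rwa [add_comm]
  · rwa [add_comm]
  · have e : u + h + g = g + u + h := by abel
    rwa [e]

theorem card_h3 (h2 : ∀ x : Q, x + x = 0) {g u h : Q} (hI : I3 g u h) :
    (h3 g u h).card = 8 := by
  obtain ⟨n1, n2, n3, n4, n5, n6, n7⟩ := hI
  unfold h3
  rw [card_dbl h2 ((cl_zero.dbl h2 g).dbl h2 u), card_dbl h2 (cl_zero.dbl h2 g),
    card_dbl h2 cl_zero, Finset.card_singleton]
  · simpa using n1
  · rw [mem_dbl h2, Finset.mem_singleton, Finset.mem_singleton, not_or]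
    exact ⟨n2, fun h => n4 (by rwa [add_comm])⟩
  · rw [mem_dbl h2, mem_dbl h2, mem_dbl h2]
    simp only [Finset.mem_singleton, not_or]
    refine ⟨⟨n3, fun h => n5 (by rwa [add_comm])⟩, fun h => n6 (by rwa [add_comm]), fun h4 => n7 ?_⟩
    rw [← h4]
    abel

/-- A set of order 16 is a doubled subgroup of order 8. -/
theorem mem_or_add_mem [Fintype Q] (h2 : ∀ x : Q, x + x = 0) (hQ : Fintype.card Q = 16)
    {g u h k : Q} (hI : I3 g u h) (hk : k ∉ h3 g u h) (p : Q) :
    p ∈ h3 g u h ∨ p + k ∈ h3 g u h := by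
  rw [← mem_dbl h2]
  have h1 : (dbl (h3 g u h) k).card = 16 := by
    rw [card_dbl h2 (cl_h3 h2 g u h) hk, card_h3 h2 hI]
  have h4 : dbl (h3 g u h) k = Finset.univ := by
    apply Finset.eq_univ_of_card
    rw [h1, hQ]
  rw [h4]
  exact Finset.mem_univ p

/-- the subgroup -/
noncomputable def s3 (h2 : ∀ x : Q, x + x = 0) (g u h : Q) : AddSubgroup Q where
  carrier := {p | p ∈ h3 g u h}
  add_mem' ha hb := (cl_h3 h2 g u h).2 _ ha _ hb
  zero_mem' := (cl_h3 h2 g u h).1
  neg_mem' := by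
    intro x hx
    have e : -x = x := by
      rw [neg_eq_iff_add_eq_zero, h2]
    rw [e]
    exact hx

theorem mem_s3 (h2 : ∀ x : Q, x + x = 0) {g u h p : Q} : p ∈ s3 h2 g u h ↔ p ∈ h3 g u h :=
  Iff.rfl

theorem h3_cyc (h2 : ∀ x : Q, x + x = 0) {g u h p : Q} (hp : p ∈ h3 u h g) :
    p ∈ h3 g u h := by
  rw [mem_h3 h2] at hp ⊢
  have e1 : p + g + u = p + u + g := by simp only [add_comm, add_left_comm, add_assoc, h2, add_self_left h2, add_zero, zero_add]
  have e2 : p + h + u = p + h + u := rfl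
  have e3 : p + g + h + u = p + h + u + g := by simp only [add_comm, add_left_comm, add_assoc, h2, add_self_left h2, add_zero, zero_add]
  have e4 : p + g + h = p + h + g := by simp only [add_comm, add_left_comm, add_assoc, h2, add_self_left h2, add_zero, zero_add]
  rw [e1, e3, e4] at hp
  tauto

end CTL
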