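import Pool.Agent.CTL.Code

/-!
# CTL / Final: codes with many sign symmetries

A cube tiling code is a system over the group of signs (`exists_sys`). The sign symmetries give a group of
periods, and the system comes from a system over the quotient (`lft`, `lft_conn`).
-/

namespace CTL

open Finset

variable {S : Type*} {co : S → S} {sg : S → ZMod 2} {d : ℕ}

theorem zmod2_add_one_ne (b : ZMod 2) : b + 1 ≠ b := by
  revert b
  decide

theorem sum_eP (T : Finset (Fin d)) (i : Fin d) :
    (∑ j ∈ T, (eP j : Pt d)) i = if i ∈ T then 1 else 0 := by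
  rw [Finset.sum_apply]
  by_cases h : i ∈ T
  · rw [if_pos h, Finset.sum_eq_single i (fun j _ hj => eP_ne (Ne.symm hj))
      (fun h' => absurd h h'), eP_self]
  · rw [if_neg h]
    refine Finset.sum_eq_zero fun j hj => eP_ne ?_
    rintro rfl
    exact h hj

theorem eP_ne_zero (i : Fin d) : (eP i : Pt d) ≠ 0 := by
  intro h
  have h1 := congrFun h i
  rw [eP_self] at h1
  exact one_ne_zero h1

/-- a cube tiling code is a system of columns -/
theorem exists_sys (hco : ∀ s, co (co s) = s) (hsg : ∀ s, sg (co s) = sg s + 1)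
    {V : Set (Fin d → S)} (hV : IsTiling co V) :
    ∃ c : Fin d → Pt d → Lab sg, IsSys (eP (d := d)) c ∧ enc co sg c = V := by
  classical
  obtain ⟨hcard, hdich⟩ := hV
  have hfin : V.Finite := Set.finite_of_ncard_pos (by rw [hcard]; positivity)
  let sn : (Fin d → S) → Pt d := fun v i => sg (v i)
  have hinj : Set.InjOn sn V := by
    intro v hv w hw h
    by_contra hne
    obtain ⟨i, hi⟩ := hdich v hv w hw hne
    have h1 : sg (v i) = sg (w i) := congrFun h i
    rw [hi, hsg] at h1
    exact zmod2_add_one_ne _ h1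
  have himg : hfin.toFinset.image sn = Finset.univ := by
    rw [← Finset.card_eq_iff_eq_univ, Finset.card_image_of_injOn (by
      rw [hfin.coe_toFinset]
      exact hinj), ← Set.ncard_eq_toFinset_card V hfin, hcard]
    simp [Fintype.card_pi]
  have hsurj : ∀ x : Pt d, ∃ v ∈ V, sn v = x := by
    intro x
    have h1 : x ∈ hfin.toFinset.image sn := by
      rw [himg]
      exact Finset.mem_univ x
    obtain ⟨v, hv, rfl⟩ := Finset.mem_image.1 h1
    exact ⟨v, hfin.mem_toFinset.1 hv, rfl⟩
  choose w hwV hws using hsurj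
  obtain ⟨rep, hrep1, hrep2⟩ := exists_rep hco hsg
  have hword : ∀ x, word co sg (fun i x => rep (w x i)) x = w x := by
    intro x
    funext i
    have h1 : sg (w x i) = x i := congrFun (hws x) i
    change ltr co sg (x i) (rep (w x i)) = w x i
    rw [← h1]
    exact hrep1 _
  have hkey : ∀ x y : Pt d, x ≠ y → ∃ i, x i = y i + 1 ∧ rep (w x i) = rep (w y i) := by
    intro x y hxy
    have h1 : w x ≠ w y := by
      intro h
      apply hxy
      rw [← hws x, ← hws y, h]
    obtain ⟨i, hi⟩ := hdich _ (hwV x) _ (hwV y) h1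
    refine ⟨i, ?_, by rw [hi, hrep2]⟩
    have h3 : sg (w x i) = x i := congrFun (hws x) i
    have h4 : sg (w y i) = y i := congrFun (hws y) i
    rw [← h3, ← h4, hi, hsg]
  have hK : ∀ (T : Finset (Fin d)), ∑ i ∈ T, (eP i : Pt d) ≠ 0 → ∀ x : Pt d,
      ∃ i ∈ T, rep (w x i) = rep (w (x + ∑ i ∈ T, eP i) i) := by
    intro T hT x
    obtain ⟨i, h1, h3⟩ := hkey x (x + ∑ i ∈ T, eP i) (by
      intro h
      exact hT (left_eq_add.1 h))
    refine ⟨i, ?_, h3⟩
    by_contra hi
    rw [Pi.add_apply, sum_eP, if_neg hi, add_zero] at h1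
    exact zmod2_add_one_ne _ h1.symm
  refine ⟨fun i x => rep (w x i), ⟨fun i x => ?_, hK⟩, ?_⟩
  · obtain ⟨j, hj, hj2⟩ := hK {i} (by rw [Finset.sum_singleton]; exact eP_ne_zero i) x
    rw [Finset.mem_singleton] at hj
    subst hj
    rw [Finset.sum_singleton] at hj2
    exact hj2.symm
  · unfold enc
    ext v
    constructor
    · rintro ⟨x, rfl⟩
      rw [hword]
      exact hwV x
    · intro hv
      refine ⟨sn v, ?_⟩
      rw [hword]
      exact hinj (hwV _) hv (hws _)

theorem ltr_inj (hco : ∀ s, co (co s) = s) {b : ZMod 2} {l l' : Lab sg}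
    (h : ltr co sg b l = ltr co sg b l') : l = l' := by
  unfold ltr at h
  by_cases hb : b = 0
  · rw [if_pos hb, if_pos hb] at h
    exact Subtype.ext h
  · rw [if_neg hb, if_neg hb] at h
    have h1 := congrArg co h
    rw [hco, hco] at h1
    exact Subtype.ext h1

/-- the periods of a system -/
def per {L : Type*} (c : Fin d → Pt d → L) : AddSubgroup (Pt d) where
  carrier := {h | ∀ i x, c i (x + h) = c i x}
  zero_mem' i x := by rw [add_zero]
  add_mem' ha hb i x := by rw [← add_assoc, hb, ha]
  neg_mem' {a} ha i x := by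
    have h1 := ha i (x + -a)
    rw [neg_add_cancel_right] at h1
    exact h1.symm

theorem sym_le (hco : ∀ s, co (co s) = s) (hsg : ∀ s, sg (co s) = sg s + 1)
    (c : Fin d → Pt d → Lab sg) : (signSym co (enc co sg c)).ncard ≤ Nat.card (per c) := by
  classical
  have hind : ∀ σ ∈ signSym co (enc co sg c),
      (fun i => if i ∈ σ then 1 else 0 : Pt d) ∈ per c := by
    intro σ hσ i x
    have h1 : signChange co σ (word co sg c x) ∈ enc co sg c := by
      have h2 : signChange co σ '' enc co sg c = enc co sg c := hσ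
      rw [← h2]
      exact Set.mem_image_of_mem _ ⟨x, rfl⟩
    obtain ⟨y, hy⟩ := h1
    have h3 : y = x + fun i => if i ∈ σ then 1 else 0 := by
      funext j
      rw [← sg_word hsg c y j, hy, Pi.add_apply]
      unfold signChange
      by_cases hj : j ∈ σ
      · rw [if_pos hj, if_pos hj, hsg, sg_word hsg]
      · rw [if_neg hj, if_neg hj, sg_word hsg, add_zero]
    rw [← h3]
    have h4 := congrFun hy i
    have h5 : word co sg c y i = ltr co sg (y i) (c i y) := rfl
    have h6 : signChange co σ (word co sg c x) i = ltr co sg (y i) (c i x) := by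
      rw [h3]
      unfold signChange
      rw [Pi.add_apply]
      by_cases hj : i ∈ σ
      · rw [if_pos hj, if_pos hj, ltr_add_one hco]
        rfl
      · rw [if_neg hj, if_neg hj, add_zero]
        rfl
    rw [h5, h6] at h4
    exact ltr_inj hco h4
  rw [← Nat.card_coe_set_eq]
  refine Nat.card_le_card_of_injective (fun σ => (⟨_, hind σ.1 σ.2⟩ : per c)) ?_
  intro σ τ h
  apply Subtype.ext
  have h1 : (fun i => if i ∈ σ.1 then 1 else 0 : Pt d) = fun i => if i ∈ τ.1 then 1 else 0 :=
    congrArg Subtype.val h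
  ext i
  have h3 : (if i ∈ σ.1 then 1 else 0 : ZMod 2) = if i ∈ τ.1 then 1 else 0 := congrFun h1 i
  by_cases hi : i ∈ σ.1 <;> by_cases hj : i ∈ τ.1
  · exact iff_of_true hi hj
  · rw [if_pos hi, if_neg hj] at h3
    exact absurd h3 one_ne_zero
  · rw [if_neg hi, if_pos hj] at h3
    exact absurd h3.symm one_ne_zero
  · exact iff_of_false hi hj

/-- lifting moves from a quotient -/
theorem lft_conn {L : Type*} {H : AddSubgroup (Pt d)} {a a' : Fin d → (Pt d ⧸ H) → L}
    (h : Conn (fun i => (QuotientAddGroup.mk (eP i) : Pt d ⧸ H)) ⊤ a a') :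
    Conn (eP (d := d)) ⊤ (fun i x => a i (QuotientAddGroup.mk x))
      (fun i x => a' i (QuotientAddGroup.mk x)) := by
  classical
  induction h with
  | refl => exact Relation.ReflTransGen.refl
  | tail _ hm ih =>
    refine Relation.ReflTransGen.trans ih ?_
    obtain ⟨i, q, l, -, hfree, rfl⟩ := hm
    rename_i a₁ _
    have h1 := fill_set (e := eP (d := d)) (W := ⊤)
      (c := fun i x => a₁ i (QuotientAddGroup.mk x : Pt d ⧸ H)) (i := i)
      (AddSubgroup.mem_top _) l
      (Finset.univ.filter fun x => (QuotientAddGroup.mk x : Pt d ⧸ H) = q) (by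
        intro x hx j hj
        rw [QuotientAddGroup.mk_add, (Finset.mem_filter.1 hx).2]
        exact hfree j hj)
    have h3 : rcl (eP (d := d)) (fun i x => a₁ i (QuotientAddGroup.mk x : Pt d ⧸ H)) i
        ((Finset.univ.filter fun x => (QuotientAddGroup.mk x : Pt d ⧸ H) = q : Finset (Pt d)) :
          Set (Pt d)) l =
        fun j x => rcl (fun i => (QuotientAddGroup.mk (eP i) : Pt d ⧸ H)) a₁ i {q} l j
          (QuotientAddGroup.mk x) := by
      funext j y
      unfold rcl
      simp only [Set.mem_singleton_iff, Finset.coe_filter, Finset.mem_univ, true_and,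
        Set.mem_setOf_eq, QuotientAddGroup.mk_add]
    rw [h3] at h1
    exact h1

theorem conn_const (hco : ∀ s, co (co s) = s) (hsg : ∀ s, sg (co s) = sg s + 1)
    {c : Fin d → Pt d → Lab sg} (hs : IsSys (eP (d := d)) c)
    (hH : 2 ^ d ≤ 16 * (signSym co (enc co sg c)).ncard) (l : Fin d → Lab sg) :
    Conn (eP (d := d)) ⊤ c (fun i _ => l i) := by
  classical
  set H := per c with hHdef
  have hcH : (signSym co (enc co sg c)).ncard ≤ Nat.card H := sym_le hco hsg c
  have hcard := AddSubgroup.card_eq_card_quotient_mul_card_addSubgroup H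
  have hPt : Nat.card (Pt d) = 2 ^ d := by simp [Nat.card_eq_fintype_card]
  rw [hPt] at hcard
  have hpos : 0 < Nat.card H := Nat.card_pos
  have h16 : Nat.card (Pt d ⧸ H) ≤ 16 := by
    have h1 : Nat.card (Pt d ⧸ H) * Nat.card H ≤ 16 * Nat.card H := by
      rw [← hcard]
      exact hH.trans (Nat.mul_le_mul_left 16 hcH)
    exact Nat.le_of_mul_le_mul_right h1 hpos
  obtain ⟨n, -, hn⟩ := (Nat.dvd_prime_pow Nat.prime_two).1
    (Dvd.intro _ hcard.symm : Nat.card (Pt d ⧸ H) ∣ 2 ^ d)
  have hmk : ∀ i x, c i (QuotientAddGroup.mk x : Pt d ⧸ H).out = c i x := by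
    intro i x
    obtain ⟨h, hh⟩ := QuotientAddGroup.mk_out_eq_add H x
    rw [hh]
    exact h.2 i x
  have h2 : ∀ q : Pt d ⧸ H, q + q = 0 := by
    intro q
    induction q using QuotientAddGroup.induction_on with
    | H x => rw [← QuotientAddGroup.mk_add, pt_two, QuotientAddGroup.mk_zero]
  have hsQ : IsSys (fun i => (QuotientAddGroup.mk (eP i) : Pt d ⧸ H))
      (fun i (q : Pt d ⧸ H) => c i q.out) := by
    have hsum : ∀ T : Finset (Fin d), ∑ i ∈ T, (QuotientAddGroup.mk (eP i) : Pt d ⧸ H) =
        QuotientAddGroup.mk (∑ i ∈ T, eP i) := by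
      intro T
      exact (map_sum (QuotientAddGroup.mk' H) _ _).symm
    refine ⟨fun i q => ?_, fun T hT q => ?_⟩
    · induction q using QuotientAddGroup.induction_on with
      | H x =>
        rw [← QuotientAddGroup.mk_add, hmk, hmk]
        exact hs.inv i x
    · induction q using QuotientAddGroup.induction_on with
      | H x =>
        rw [hsum] at hT ⊢
        obtain ⟨i, hi, hi2⟩ := hs.key T (by
          intro h0
          rw [h0] at hT
          exact hT (QuotientAddGroup.mk_zero H)) x
        refine ⟨i, hi, ?_⟩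
        rw [← QuotientAddGroup.mk_add, hmk, hmk]
        exact hi2
  have : Fintype (Pt d ⧸ H) := Fintype.ofFinite _
  rw [Nat.card_eq_fintype_card] at h16 hn
  have h3 := lft_conn (sys_conn h2 hsQ h16 hn l)
  have h4 : (fun i x => c i (QuotientAddGroup.mk x : Pt d ⧸ H).out) = c := by
    funext i x
    exact hmk i x
  rw [h4] at h3
  exact h3

/-- Cube tiling codes with at least `2 ^ d / 16` sign symmetries are strongly equivalent. -/
theorem main (co : S → S) (hco : ∀ s, co (co s) = s) (hne : ∀ s, co s ≠ s)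
    {V W : Set (Fin d → S)} (hV : IsTiling co V) (hW : IsTiling co W)
    (hV' : 2 ^ d ≤ 16 * (signSym co V).ncard) (hW' : 2 ^ d ≤ 16 * (signSym co W).ncard) :
    StronglyEquivalent co V W := by
  obtain ⟨sg, hsg⟩ := exists_sign hco hne
  obtain ⟨rep, -, -⟩ := exists_rep hco hsg
  obtain ⟨v, -⟩ : V.Nonempty := by
    rw [← Set.ncard_pos (Set.finite_of_ncard_pos (by rw [hV.1]; positivity)), hV.1]
    positivity
  obtain ⟨c, hc, rfl⟩ := exists_sys hco hsg hV
  obtain ⟨c', hc', rfl⟩ := exists_sys hco hsg hW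
  have h1 := conn_const hco hsg hc hV' fun i => rep (v i)
  have h2 := conn_const hco hsg hc' hW' fun i => rep (v i)
  have h3 := Conn.symm pt_two hc' h2
  exact Relation.ReflTransGen.trans (equiv_of_conn hco hsg hc h1)
    (equiv_of_conn hco hsg (Conn.isSys pt_two hc' h2) h3)

end CTL
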