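import Pool.Agent.CTL.Three

/-!
# CTL / Four: classes with exactly four lines, tetrahedra

`|Q| = 16`, all the classes of the non constant columns have exactly 8 elements and all their lines are
blocked. A frame is a class which is the union of four lines in general position. There are no frames.
-/

namespace CTL

open Finset

variable {Q : Type*} [AddCommGroup Q] {R : Q → Q → Q → Prop}

/-- A frame: the class of `b` for `R g` consists of the lines of `b, b + v₁, b + v₂, b + v₃`. -/
structure Fr (R : Q → Q → Q → Prop) (b g v₁ v₂ v₃ : Q) : Prop where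
  g0 : g ≠ 0
  r1 : R g b (b + v₁)
  r2 : R g b (b + v₂)
  r3 : R g b (b + v₃)
  n12 : ¬ R g b (b + v₁ + v₂)
  n13 : ¬ R g b (b + v₁ + v₃)
  n23 : ¬ R g b (b + v₂ + v₃)
  n123 : ¬ R g b (b + v₁ + v₂ + v₃)

theorem Fr.swap23 (h2 : ∀ x : Q, x + x = 0) {b g v₁ v₂ v₃ : Q} (hF : Fr R b g v₁ v₂ v₃) :
    Fr R b g v₁ v₃ v₂ := by
  refine ⟨hF.g0, hF.r1, hF.r3, hF.r2, hF.n13, hF.n12, ?_, ?_⟩
  · have e : b + v₃ + v₂ = b + v₂ + v₃ := by simp only [add_comm, add_left_comm, add_assoc, h2, add_self_left h2, add_zero, zero_add]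
    rw [e]
    exact hF.n23
  · have e : b + v₁ + v₃ + v₂ = b + v₁ + v₂ + v₃ := by simp only [add_comm, add_left_comm, add_assoc, h2, add_self_left h2, add_zero, zero_add]
    rw [e]
    exact hF.n123

theorem Fr.swap12 (h2 : ∀ x : Q, x + x = 0) {b g v₁ v₂ v₃ : Q} (hF : Fr R b g v₁ v₂ v₃) :
    Fr R b g v₂ v₁ v₃ := by
  refine ⟨hF.g0, hF.r2, hF.r1, hF.r3, ?_, hF.n23, hF.n13, ?_⟩
  · have e : b + v₂ + v₁ = b + v₁ + v₂ := by simp only [add_comm, add_left_comm, add_assoc, h2, add_self_left h2, add_zero, zero_add]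
    rw [e]
    exact hF.n12
  · have e : b + v₂ + v₁ + v₃ = b + v₁ + v₂ + v₃ := by simp only [add_comm, add_left_comm, add_assoc, h2, add_self_left h2, add_zero, zero_add]
    rw [e]
    exact hF.n123

/-- adding the direction of the column -/
theorem rg_add (hR : Core R) (h2 : ∀ x : Q, x + x = 0) {g x y : Q} :
    R g x (y + g) ↔ R g x y := by
  constructor
  · intro h
    have h3 := hR.inv g (y + g)
    rw [add_assoc, h2, add_zero] at h3
    exact hR.trans _ _ _ _ h h3
  · intro h
    exact hR.trans _ _ _ _ h (hR.inv g y)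

theorem rg_add' (hR : Core R) (h2 : ∀ x : Q, x + x = 0) {g x y z : Q} (e : y + g = z) :
    R g x z ↔ R g x y := by
  rw [← e]
  exact rg_add hR h2

theorem rg_left (hR : Core R) (h2 : ∀ x : Q, x + x = 0) {g x y z : Q} (e : x + g = z) :
    R g z y ↔ R g x y := by
  rw [← e]
  exact ⟨fun h => hR.trans _ _ _ _ (hR.inv g x) h,
    fun h => hR.trans _ _ _ _ (hR.symm _ _ _ (hR.inv g x)) h⟩

theorem Fr.shift3 (hR : Core R) (h2 : ∀ x : Q, x + x = 0) {b g v₁ v₂ v₃ : Q}
    (hF : Fr R b g v₁ v₂ v₃) : Fr R b g v₁ v₂ (v₃ + g) := by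
  refine ⟨hF.g0, hF.r1, hF.r2, ?_, hF.n12, ?_, ?_, ?_⟩
  · exact (rg_add' hR h2 (by simp only [add_comm, add_left_comm, add_assoc, h2, add_self_left h2, add_zero, zero_add])).2 hF.r3
  · exact fun h => hF.n13 ((rg_add' hR h2 (by simp only [add_comm, add_left_comm, add_assoc, h2, add_self_left h2, add_zero, zero_add])).1 h)
  · exact fun h => hF.n23 ((rg_add' hR h2 (by simp only [add_comm, add_left_comm, add_assoc, h2, add_self_left h2, add_zero, zero_add])).1 h)
  · exact fun h => hF.n123 ((rg_add' hR h2 (by simp only [add_comm, add_left_comm, add_assoc, h2, add_self_left h2, add_zero, zero_add])).1 h)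

theorem Fr.shift2 (hR : Core R) (h2 : ∀ x : Q, x + x = 0) {b g v₁ v₂ v₃ : Q}
    (hF : Fr R b g v₁ v₂ v₃) : Fr R b g v₁ (v₂ + g) v₃ :=
  ((hF.swap23 h2).shift3 hR h2).swap23 h2

theorem Fr.shift1 (hR : Core R) (h2 : ∀ x : Q, x + x = 0) {b g v₁ v₂ v₃ : Q}
    (hF : Fr R b g v₁ v₂ v₃) : Fr R b g (v₁ + g) v₂ v₃ :=
  ((hF.swap12 h2).shift2 hR h2).swap12 h2

/-- moving the base point along the line -/
theorem Fr.base (hR : Core R) (h2 : ∀ x : Q, x + x = 0) {b g v₁ v₂ v₃ : Q}
    (hF : Fr R b g v₁ v₂ v₃) : Fr R (b + g) g v₁ v₂ v₃ := by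
  refine ⟨hF.g0, ?_, ?_, ?_, ?_, ?_, ?_, ?_⟩
  · rw [rg_left hR h2 rfl, rg_add' hR h2 (y := b + v₁) (by simp only [add_comm, add_left_comm, add_assoc, h2, add_self_left h2, add_zero, zero_add])]
    exact hF.r1
  · rw [rg_left hR h2 rfl, rg_add' hR h2 (y := b + v₂) (by simp only [add_comm, add_left_comm, add_assoc, h2, add_self_left h2, add_zero, zero_add])]
    exact hF.r2
  · rw [rg_left hR h2 rfl, rg_add' hR h2 (y := b + v₃) (by simp only [add_comm, add_left_comm, add_assoc, h2, add_self_left h2, add_zero, zero_add])]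
    exact hF.r3
  · rw [rg_left hR h2 rfl, rg_add' hR h2 (y := b + v₁ + v₂) (by simp only [add_comm, add_left_comm, add_assoc, h2, add_self_left h2, add_zero, zero_add])]
    exact hF.n12
  · rw [rg_left hR h2 rfl, rg_add' hR h2 (y := b + v₁ + v₃) (by simp only [add_comm, add_left_comm, add_assoc, h2, add_self_left h2, add_zero, zero_add])]
    exact hF.n13
  · rw [rg_left hR h2 rfl, rg_add' hR h2 (y := b + v₂ + v₃) (by simp only [add_comm, add_left_comm, add_assoc, h2, add_self_left h2, add_zero, zero_add])]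
    exact hF.n23
  · rw [rg_left hR h2 rfl, rg_add' hR h2 (y := b + v₁ + v₂ + v₃) (by simp only [add_comm, add_left_comm, add_assoc, h2, add_self_left h2, add_zero, zero_add])]
    exact hF.n123

/-- another vertex as base point -/
theorem Fr.vertex (hR : Core R) (h2 : ∀ x : Q, x + x = 0) {b g v₁ v₂ v₃ : Q}
    (hF : Fr R b g v₁ v₂ v₃) : Fr R (b + v₁) g v₁ (v₁ + v₂) (v₁ + v₃) := by
  have h1 := hF.r1
  refine ⟨hF.g0, ?_, ?_, ?_, ?_, ?_, ?_, ?_⟩
  · rw [← hR.congr_left h1]
    have e : b + v₁ + v₁ = b := by simp only [add_comm, add_left_comm, add_assoc, h2, add_self_left h2, add_zero, zero_add]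
    rw [e]
    exact hR.refl _ _
  · rw [← hR.congr_left h1]
    have e : b + v₁ + (v₁ + v₂) = b + v₂ := by simp only [add_comm, add_left_comm, add_assoc, h2, add_self_left h2, add_zero, zero_add]
    rw [e]
    exact hF.r2
  · rw [← hR.congr_left h1]
    have e : b + v₁ + (v₁ + v₃) = b + v₃ := by simp only [add_comm, add_left_comm, add_assoc, h2, add_self_left h2, add_zero, zero_add]
    rw [e]
    exact hF.r3
  · rw [← hR.congr_left h1]
    have e : b + v₁ + v₁ + (v₁ + v₂) = b + v₁ + v₂ := by simp only [add_comm, add_left_comm, add_assoc, h2, add_self_left h2, add_zero, zero_add]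
    rw [e]
    exact hF.n12
  · rw [← hR.congr_left h1]
    have e : b + v₁ + v₁ + (v₁ + v₃) = b + v₁ + v₃ := by simp only [add_comm, add_left_comm, add_assoc, h2, add_self_left h2, add_zero, zero_add]
    rw [e]
    exact hF.n13
  · rw [← hR.congr_left h1]
    have e : b + v₁ + (v₁ + v₂) + (v₁ + v₃) = b + v₁ + v₂ + v₃ := by simp only [add_comm, add_left_comm, add_assoc, h2, add_self_left h2, add_zero, zero_add]
    rw [e]
    exact hF.n123
  · rw [← hR.congr_left h1]
    have e : b + v₁ + v₁ + (v₁ + v₂) + (v₁ + v₃) = b + v₂ + v₃ := by simp only [add_comm, add_left_comm, add_assoc, h2, add_self_left h2, add_zero, zero_add]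
    rw [e]
    exact hF.n23

theorem Fr.indep (hR : Core R) (h2 : ∀ x : Q, x + x = 0) {b g v₁ v₂ v₃ : Q}
    (hF : Fr R b g v₁ v₂ v₃) : I3 g v₁ v₂ ∧ v₃ ∉ h3 g v₁ v₂ := by
  constructor
  · refine ⟨hF.g0, ?_, ?_, ?_, ?_, ?_, ?_⟩
    · rintro rfl
      apply hF.n12
      rw [add_zero]
      exact hF.r2
    · rintro rfl
      apply hF.n12
      rw [add_zero]
      exact hF.r1
    · intro h
      have e := eq_of_add h2 h
      subst e
      exact hF.n12 ((rg_add' hR h2 (y := b + v₂) (by simp only [add_comm, add_left_comm, add_assoc, h2, add_self_left h2, add_zero, zero_add])).2 hF.r2)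
    · intro h
      have e := eq_of_add h2 h
      subst e
      exact hF.n12 ((rg_add' hR h2 (y := b + v₁) (by simp only [add_comm, add_left_comm, add_assoc, h2, add_self_left h2, add_zero, zero_add])).2 hF.r1)
    · intro h
      have e := eq_of_add h2 h
      subst e
      apply hF.n12
      have e2 : b + v₁ + v₁ = b := by simp only [add_comm, add_left_comm, add_assoc, h2, add_self_left h2, add_zero, zero_add]
      rw [e2]
      exact hR.refl _ _
    · intro h
      have e := eq_of_add h2 h
      apply hF.n12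
      have e2 : b + v₁ + v₂ = b + g := by rw [← e]; simp only [add_comm, add_left_comm, add_assoc, h2, add_self_left h2, add_zero, zero_add]
      rw [e2]
      exact hR.inv _ _
  · rw [mem_h3 h2]
    rintro (((h | h) | (h | h)) | ((h | h) | (h | h)))
    · apply hF.n13
      rw [h, add_zero]
      exact hF.r1
    · have e := eq_of_add h2 h
      apply hF.n13
      rw [e, rg_add hR h2]
      exact hF.r1
    · have e := eq_of_add h2 h
      subst e
      apply hF.n13
      have e2 : b + v₃ + v₃ = b := by simp only [add_comm, add_left_comm, add_assoc, h2, add_self_left h2, add_zero, zero_add]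
      rw [e2]
      exact hR.refl _ _
    · have e := eq_of_add h2 h
      apply hF.n13
      have e2 : b + v₁ + v₃ = b + g := by rw [← e]; simp only [add_comm, add_left_comm, add_assoc, h2, add_self_left h2, add_zero, zero_add]
      rw [e2]
      exact hR.inv _ _
    · have e := eq_of_add h2 h
      subst e
      apply hF.n23
      have e2 : b + v₃ + v₃ = b := by simp only [add_comm, add_left_comm, add_assoc, h2, add_self_left h2, add_zero, zero_add]
      rw [e2]
      exact hR.refl _ _
    · have e := eq_of_add h2 h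
      apply hF.n23
      have e2 : b + v₂ + v₃ = b + g := by rw [← e]; simp only [add_comm, add_left_comm, add_assoc, h2, add_self_left h2, add_zero, zero_add]
      rw [e2]
      exact hR.inv _ _
    · have e := eq_of_add h2 h
      apply hF.n123
      have e2 : b + v₁ + v₂ + v₃ = b := by rw [← e]; simp only [add_comm, add_left_comm, add_assoc, h2, add_self_left h2, add_zero, zero_add]
      rw [e2]
      exact hR.refl _ _
    · have e := eq_of_add h2 h
      apply hF.n123
      have e2 : b + v₁ + v₂ + v₃ = b + g := by rw [← e]; simp only [add_comm, add_left_comm, add_assoc, h2, add_self_left h2, add_zero, zero_add]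
      rw [e2]
      exact hR.inv _ _

/-- the elements of the class -/
theorem Fr.mem [Fintype Q] (hR : Core R) (h2 : ∀ x : Q, x + x = 0) (hQ : Fintype.card Q = 16)
    {b g v₁ v₂ v₃ : Q} (hF : Fr R b g v₁ v₂ v₃) {p : Q} (hp : R g b p) :
    (p = b ∨ p = b + g) ∨ (p = b + v₁ ∨ p = b + v₁ + g) ∨ (p = b + v₂ ∨ p = b + v₂ + g) ∨
      (p = b + v₃ ∨ p = b + v₃ + g) := by
  obtain ⟨hI, hv⟩ := hF.indep hR h2
  have key := mem_or_add_mem h2 hQ hI hv (p + b)
  rw [mem_h3 h2, mem_h3 h2] at key
  rcases key with (((h | h) | (h | h)) | ((h | h) | (h | h))) |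
    (((h | h) | (h | h)) | ((h | h) | (h | h)))
  · exact Or.inl (Or.inl (eq_of_add h2 h))
  · exact Or.inl (Or.inr (eq_of_add h2 (by rw [← h]; simp only [add_comm, add_left_comm, add_assoc, h2, add_self_left h2, add_zero, zero_add])))
  · exact Or.inr (Or.inl (Or.inl (eq_of_add h2 (by rw [← h]; simp only [add_comm, add_left_comm, add_assoc, h2, add_self_left h2, add_zero, zero_add]))))
  · exact Or.inr (Or.inl (Or.inr (eq_of_add h2 (by rw [← h]; simp only [add_comm, add_left_comm, add_assoc, h2, add_self_left h2, add_zero, zero_add]))))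
  · exact Or.inr (Or.inr (Or.inl (Or.inl (eq_of_add h2 (by rw [← h]; simp only [add_comm, add_left_comm, add_assoc, h2, add_self_left h2, add_zero, zero_add])))))
  · exact Or.inr (Or.inr (Or.inl (Or.inr (eq_of_add h2 (by rw [← h]; simp only [add_comm, add_left_comm, add_assoc, h2, add_self_left h2, add_zero, zero_add])))))
  · exfalso
    have e : p = b + v₁ + v₂ := eq_of_add h2 (by rw [← h]; simp only [add_comm, add_left_comm, add_assoc, h2, add_self_left h2, add_zero, zero_add])
    rw [e] at hp
    exact hF.n12 hp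
  · exfalso
    have e : p = b + v₁ + v₂ + g := eq_of_add h2 (by rw [← h]; simp only [add_comm, add_left_comm, add_assoc, h2, add_self_left h2, add_zero, zero_add])
    rw [e, rg_add hR h2] at hp
    exact hF.n12 hp
  · exact Or.inr (Or.inr (Or.inr (Or.inl (eq_of_add h2 (by rw [← h]; simp only [add_comm, add_left_comm, add_assoc, h2, add_self_left h2, add_zero, zero_add])))))
  · exact Or.inr (Or.inr (Or.inr (Or.inr (eq_of_add h2 (by rw [← h]; simp only [add_comm, add_left_comm, add_assoc, h2, add_self_left h2, add_zero, zero_add])))))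
  · exfalso
    have e : p = b + v₁ + v₃ := eq_of_add h2 (by rw [← h]; simp only [add_comm, add_left_comm, add_assoc, h2, add_self_left h2, add_zero, zero_add])
    rw [e] at hp
    exact hF.n13 hp
  · exfalso
    have e : p = b + v₁ + v₃ + g := eq_of_add h2 (by rw [← h]; simp only [add_comm, add_left_comm, add_assoc, h2, add_self_left h2, add_zero, zero_add])
    rw [e, rg_add hR h2] at hp
    exact hF.n13 hp
  · exfalso
    have e : p = b + v₂ + v₃ := eq_of_add h2 (by rw [← h]; simp only [add_comm, add_left_comm, add_assoc, h2, add_self_left h2, add_zero, zero_add])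
    rw [e] at hp
    exact hF.n23 hp
  · exfalso
    have e : p = b + v₂ + v₃ + g := eq_of_add h2 (by rw [← h]; simp only [add_comm, add_left_comm, add_assoc, h2, add_self_left h2, add_zero, zero_add])
    rw [e, rg_add hR h2] at hp
    exact hF.n23 hp
  · exfalso
    have e : p = b + v₁ + v₂ + v₃ := eq_of_add h2 (by rw [← h]; simp only [add_comm, add_left_comm, add_assoc, h2, add_self_left h2, add_zero, zero_add])
    rw [e] at hp
    exact hF.n123 hp
  · exfalso
    have e : p = b + v₁ + v₂ + v₃ + g := eq_of_add h2 (by rw [← h]; simp only [add_comm, add_left_comm, add_assoc, h2, add_self_left h2, add_zero, zero_add])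
    rw [e, rg_add hR h2] at hp
    exact hF.n123 hp

end CTL
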