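import Pool.Agent.CTL.Four

/-!
# CTL / Four2: there are no frames
-/

namespace CTL

open Finset

variable {Q : Type*} [AddCommGroup Q] [Fintype Q] {R : Q → Q → Q → Prop}

/-- all classes of the non constant columns have exactly 8 elements and all their lines are blocked -/
def Full (R : Q → Q → Q → Prop) : Prop :=
  ∀ g x y, ¬ R g x y → cls R ⊤ g x = 8 ∧ ∃ h, ¬ R h x (x + g)

theorem five (hR : Core R) (h2 : ∀ x : Q, x + x = 0) {g x a b c d e : Q} (hg0 : g ≠ 0)
    (h8 : cls R ⊤ g x = 8) (ra : R g x a) (rb : R g x b) (rc : R g x c) (rd : R g x d)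
    (re : R g x e) (ab : a ≠ b ∧ a ≠ b + g) (ac : a ≠ c ∧ a ≠ c + g) (ad : a ≠ d ∧ a ≠ d + g)
    (ae : a ≠ e ∧ a ≠ e + g) (bc : b ≠ c ∧ b ≠ c + g) (bd : b ≠ d ∧ b ≠ d + g)
    (be : b ≠ e ∧ b ≠ e + g) (cd : c ≠ d ∧ c ≠ d + g) (ce : c ≠ e ∧ c ≠ e + g)
    (de : d ≠ e ∧ d ≠ e + g) : False := by
  have := le_cls (W := ⊤) hR h2 (AddSubgroup.mem_top g) hg0 [a, b, c, d, e] (x := x) (by
    intro w hw
    refine ⟨AddSubgroup.mem_top _, ?_⟩
    simp only [List.mem_cons, List.not_mem_nil, or_false] at hw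
    rcases hw with rfl | rfl | rfl | rfl | rfl
    · exact ra
    · exact rb
    · exact rc
    · exact rd
    · exact re) (by
    simp only [List.pairwise_cons, List.mem_cons, List.not_mem_nil, or_false,
      forall_eq_or_imp, forall_eq, List.Pairwise.nil, and_true, IsEmpty.forall_iff,
      implies_true]
    exact ⟨⟨ab, ac, ad, ae⟩, ⟨bc, bd, be⟩, ⟨cd, ce⟩, de⟩)
  simp at this
  omega

/-- two classes exhaust everything -/
theorem two_classes (hR : Core R) (h2 : ∀ x : Q, x + x = 0) (hQ : Fintype.card Q = 16)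
    (hF : Full R) {g x y : Q} (hxy : ¬ R g x y) (z : Q) : R g x z ∨ R g y z := by
  classical
  by_contra hcon
  push Not at hcon
  obtain ⟨hxz, hyz⟩ := hcon
  have hx := (hF g x y hxy).1
  have hy := (hF g y z hyz).1
  have hz := (hF g z x (fun h => hxz (hR.symm _ _ _ h))).1
  have dis : ∀ {p q : Q}, ¬ R g p q → Disjoint (clsF R ⊤ g p) (clsF R ⊤ g q) := by
    intro p q hpq
    rw [Finset.disjoint_left]
    intro w hw hw'
    rw [mem_clsF] at hw hw'
    exact hpq (hR.trans _ _ _ _ hw.2 (hR.symm _ _ _ hw'.2))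
  have h3 : Disjoint (clsF R ⊤ g x ∪ clsF R ⊤ g y) (clsF R ⊤ g z) :=
    Finset.disjoint_union_left.2 ⟨dis hxz, dis hyz⟩
  have h4 := Finset.card_union_of_disjoint h3
  rw [Finset.card_union_of_disjoint (dis hxy)] at h4
  have h5 := Finset.card_le_univ (clsF R ⊤ g x ∪ clsF R ⊤ g y ∪ clsF R ⊤ g z)
  unfold cls at hx hy hz
  rw [hQ] at h5
  omega

/-- five lines in the column `v` -/
theorem five1 (hR : Core R) (h2 : ∀ x : Q, x + x = 0) {g v a c x : Q} (hI : I3 g v a)
    (hc : c ∉ h3 g v a) (h8 : cls R ⊤ v x = 8) (r1 : R v x (x + a)) (r2 : R v x (x + a + g))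
    (r3 : R v x (x + a + c)) (r4 : R v x (x + a + c + g)) : False := by
  rw [mem_h3 h2] at hc
  push Not at hc
  obtain ⟨⟨⟨m1, m2⟩, m3, m4⟩, ⟨m5, m6⟩, m7, m8⟩ := hc
  obtain ⟨n1, n2, n3, n4, n5, n6, n7⟩ := hI
  refine five hR h2 n2 h8 (hR.refl _ _) r1 r2 r3 r4 ⟨?_, ?_⟩ ⟨?_, ?_⟩ ⟨?_, ?_⟩ ⟨?_, ?_⟩ ⟨?_, ?_⟩
    ⟨?_, ?_⟩ ⟨?_, ?_⟩ ⟨?_, ?_⟩ ⟨?_, ?_⟩ ⟨?_, ?_⟩
  · exact ne_of_add h2 n3 (by simp only [add_comm, add_left_comm, add_assoc, h2, add_self_left h2, add_zero, zero_add])
  · exact ne_of_add h2 n6 (by simp only [add_comm, add_left_comm, add_assoc, h2, add_self_left h2, add_zero, zero_add])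
  · exact ne_of_add h2 n5 (by simp only [add_comm, add_left_comm, add_assoc, h2, add_self_left h2, add_zero, zero_add])
  · exact ne_of_add h2 n7 (by simp only [add_comm, add_left_comm, add_assoc, h2, add_self_left h2, add_zero, zero_add])
  · exact ne_of_add h2 m5 (by simp only [add_comm, add_left_comm, add_assoc, h2, add_self_left h2, add_zero, zero_add])
  · exact ne_of_add h2 m7 (by simp only [add_comm, add_left_comm, add_assoc, h2, add_self_left h2, add_zero, zero_add])
  · exact ne_of_add h2 m6 (by simp only [add_comm, add_left_comm, add_assoc, h2, add_self_left h2, add_zero, zero_add])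
  · exact ne_of_add h2 m8 (by simp only [add_comm, add_left_comm, add_assoc, h2, add_self_left h2, add_zero, zero_add])
  · exact ne_of_add h2 n1 (by simp only [add_comm, add_left_comm, add_assoc, h2, add_self_left h2, add_zero, zero_add])
  · exact ne_of_add h2 n4 (by simp only [add_comm, add_left_comm, add_assoc, h2, add_self_left h2, add_zero, zero_add])
  · exact ne_of_add h2 m1 (by simp only [add_comm, add_left_comm, add_assoc, h2, add_self_left h2, add_zero, zero_add])
  · exact ne_of_add h2 m3 (by simp only [add_comm, add_left_comm, add_assoc, h2, add_self_left h2, add_zero, zero_add])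
  · exact ne_of_add h2 m2 (by simp only [add_comm, add_left_comm, add_assoc, h2, add_self_left h2, add_zero, zero_add])
  · exact ne_of_add h2 m4 (by simp only [add_comm, add_left_comm, add_assoc, h2, add_self_left h2, add_zero, zero_add])
  · exact ne_of_add h2 m2 (by simp only [add_comm, add_left_comm, add_assoc, h2, add_self_left h2, add_zero, zero_add])
  · exact ne_of_add h2 m4 (by simp only [add_comm, add_left_comm, add_assoc, h2, add_self_left h2, add_zero, zero_add])
  · exact ne_of_add h2 m1 (by simp only [add_comm, add_left_comm, add_assoc, h2, add_self_left h2, add_zero, zero_add])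
  · exact ne_of_add h2 m3 (by simp only [add_comm, add_left_comm, add_assoc, h2, add_self_left h2, add_zero, zero_add])
  · exact ne_of_add h2 n1 (by simp only [add_comm, add_left_comm, add_assoc, h2, add_self_left h2, add_zero, zero_add])
  · exact ne_of_add h2 n4 (by simp only [add_comm, add_left_comm, add_assoc, h2, add_self_left h2, add_zero, zero_add])

/-- the active edge: half of the column -/
theorem lemE1 (hR : Core R) (h2 : ∀ x : Q, x + x = 0) (hQ : Fintype.card Q = 16)
    (hLM : LM R ⊤) (hF : Full R) {b g v₁ v₂ v₃ : Q} (hf : Fr R b g v₁ v₂ v₃)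
    (hb : ¬ R v₁ b (b + g)) : (R v₁ b (b + v₂) ∧ R v₁ b (b + v₂ + g)) ∨
      (R v₁ b (b + v₃) ∧ R v₁ b (b + v₃ + g)) := by
  obtain ⟨k, hk⟩ := (hF v₁ b (b + g) hb).2
  obtain ⟨n1, n2, n3, n4, n5, n6, n7⟩ :=
    blk_indep hR h2 hLM (AddSubgroup.mem_top _) hf.r1 hb hk
  have hv : ∀ {z w : Q}, z + v₁ = w → R v₁ b z → R v₁ b w := fun e h => (rg_add' hR h2 e).2 h
  rcases hR.ab h2 hf.r1 hb hk with ⟨h1, h3⟩ | ⟨h1, hr⟩ | ⟨h1, hr⟩
  · exfalso
    rcases hf.mem hR h2 hQ h1 with (e | e) | (e | e) | (e | e) | (e | e)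
    · exact ne_of_add h2 n3 (by simp only [add_comm, add_left_comm, add_assoc, h2, add_self_left h2, add_zero, zero_add]) e
    · exact ne_of_add h2 n5 (by simp only [add_comm, add_left_comm, add_assoc, h2, add_self_left h2, add_zero, zero_add]) e
    · exact ne_of_add h2 n6 (by simp only [add_comm, add_left_comm, add_assoc, h2, add_self_left h2, add_zero, zero_add]) e
    · exact ne_of_add h2 n7 (by simp only [add_comm, add_left_comm, add_assoc, h2, add_self_left h2, add_zero, zero_add]) e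
    · have e2 : b + v₁ + k = b + v₁ + v₂ := by rw [add_left_cancel e]
      rw [e2] at h3
      exact hf.n12 h3
    · have e2 : b + v₁ + v₂ + g = b + v₁ + k := by
        have e3 : k = v₂ + g := by rw [add_assoc] at e; exact add_left_cancel e
        rw [e3]
        simp only [add_comm, add_left_comm, add_assoc, h2, add_self_left h2, add_zero, zero_add]
      exact hf.n12 ((rg_add' hR h2 e2).1 h3)
    · have e2 : b + v₁ + k = b + v₁ + v₃ := by rw [add_left_cancel e]
      rw [e2] at h3
      exact hf.n13 h3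
    · have e2 : b + v₁ + v₃ + g = b + v₁ + k := by
        have e3 : k = v₃ + g := by rw [add_assoc] at e; exact add_left_cancel e
        rw [e3]
        simp only [add_comm, add_left_comm, add_assoc, h2, add_self_left h2, add_zero, zero_add]
      exact hf.n13 ((rg_add' hR h2 e2).1 h3)
  · have u1 : R v₁ b (b + k) := by
      have := hr.u1
      rw [rg_left hR h2 rfl] at this
      exact hv (by simp only [add_comm, add_left_comm, add_assoc, h2, add_self_left h2, add_zero, zero_add]) this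
    have u2 : R v₁ b (b + k + g) := by
      have := hr.u2
      rw [rg_left hR h2 rfl] at this
      exact hv (by simp only [add_comm, add_left_comm, add_assoc, h2, add_self_left h2, add_zero, zero_add]) this
    rcases hf.mem hR h2 hQ h1 with (e | e) | (e | e) | (e | e) | (e | e)
    · exact absurd e (ne_of_add h2 n3 (by simp only [add_comm, add_left_comm, add_assoc, h2, add_self_left h2, add_zero, zero_add]))
    · exact absurd e (ne_of_add h2 n5 (by simp only [add_comm, add_left_comm, add_assoc, h2, add_self_left h2, add_zero, zero_add]))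
    · exact absurd e (ne_of_add h2 n6 (by simp only [add_comm, add_left_comm, add_assoc, h2, add_self_left h2, add_zero, zero_add]))
    · exact absurd e (ne_of_add h2 n7 (by simp only [add_comm, add_left_comm, add_assoc, h2, add_self_left h2, add_zero, zero_add]))
    · rw [e] at u1 u2
      exact Or.inl ⟨u1, u2⟩
    · rw [e] at u1 u2
      have e2 : b + v₂ + g + g = b + v₂ := by simp only [add_comm, add_left_comm, add_assoc, h2, add_self_left h2, add_zero, zero_add]
      rw [e2] at u2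
      exact Or.inl ⟨u2, u1⟩
    · rw [e] at u1 u2
      exact Or.inr ⟨u1, u2⟩
    · rw [e] at u1 u2
      have e2 : b + v₃ + g + g = b + v₃ := by simp only [add_comm, add_left_comm, add_assoc, h2, add_self_left h2, add_zero, zero_add]
      rw [e2] at u2
      exact Or.inr ⟨u2, u1⟩
  · have u1 : R v₁ b (b + v₁ + k) := hv (by simp only [add_comm, add_left_comm, add_assoc, h2, add_self_left h2, add_zero, zero_add]) hr.u1
    have u2 : R v₁ b (b + v₁ + k + g) := hv (by simp only [add_comm, add_left_comm, add_assoc, h2, add_self_left h2, add_zero, zero_add]) hr.u2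
    rcases hf.mem hR h2 hQ h1 with (e | e) | (e | e) | (e | e) | (e | e)
    · exact absurd e (ne_of_add h2 n6 (by simp only [add_comm, add_left_comm, add_assoc, h2, add_self_left h2, add_zero, zero_add]))
    · exact absurd e (ne_of_add h2 n7 (by simp only [add_comm, add_left_comm, add_assoc, h2, add_self_left h2, add_zero, zero_add]))
    · exact absurd e (ne_of_add h2 n3 (by simp only [add_comm, add_left_comm, add_assoc, h2, add_self_left h2, add_zero, zero_add]))
    · exact absurd e (ne_of_add h2 n5 (by simp only [add_comm, add_left_comm, add_assoc, h2, add_self_left h2, add_zero, zero_add]))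
    · rw [e] at u1 u2
      exact Or.inl ⟨u1, u2⟩
    · rw [e] at u1 u2
      have e2 : b + v₂ + g + g = b + v₂ := by simp only [add_comm, add_left_comm, add_assoc, h2, add_self_left h2, add_zero, zero_add]
      rw [e2] at u2
      exact Or.inl ⟨u2, u1⟩
    · rw [e] at u1 u2
      exact Or.inr ⟨u1, u2⟩
    · rw [e] at u1 u2
      have e2 : b + v₃ + g + g = b + v₃ := by simp only [add_comm, add_left_comm, add_assoc, h2, add_self_left h2, add_zero, zero_add]
      rw [e2] at u2
      exact Or.inr ⟨u2, u1⟩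

/-- the active edge, one orientation -/
theorem lemE2 (hR : Core R) (h2 : ∀ x : Q, x + x = 0) (hQ : Fintype.card Q = 16)
    (hF : Full R) {b g v₁ v₂ v₃ : Q} (hf : Fr R b g v₁ v₂ v₃)
    (hb : ¬ R v₁ b (b + g)) (a1 : R v₁ b (b + v₂)) (a2 : R v₁ b (b + v₂ + g))
    (a3 : R v₁ (b + g) (b + v₃)) (a4 : R v₁ (b + g) (b + v₃ + g)) :
    R v₁ (b + v₂) (b + v₂ + g) ∧ R v₁ (b + v₃) (b + v₃ + g) ∧ ¬ R v₁ (b + v₂) (b + v₃) ∧
      ¬ R v₁ (b + v₂ + v₃) (b + v₂ + v₃ + g) := by
  refine ⟨hR.trans _ _ _ _ (hR.symm _ _ _ a1) a2, hR.trans _ _ _ _ (hR.symm _ _ _ a3) a4,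
    fun h => hb (hR.trans _ _ _ _ a1 (hR.trans _ _ _ _ h (hR.symm _ _ _ a3))), fun h => ?_⟩
  have c1 := (hF v₁ b (b + g) hb).1
  have c3 := (hF v₁ (b + g) b (fun h' => hb (hR.symm _ _ _ h'))).1
  obtain ⟨hI, hv⟩ := hf.indep hR h2
  obtain ⟨hI', hv'⟩ := (hf.swap23 h2).indep hR h2
  rcases two_classes hR h2 hQ hF hb (b + v₂ + v₃) with h4 | h4
  · exact five1 hR h2 hI hv c1 a1 a2 h4 (hR.trans _ _ _ _ h4 h)
  · have e1 : b + g + v₃ = b + v₃ + g := by simp only [add_comm, add_left_comm, add_assoc, h2, add_self_left h2, add_zero, zero_add]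
    have e2 : b + g + v₃ + g = b + v₃ := by simp only [add_comm, add_left_comm, add_assoc, h2, add_self_left h2, add_zero, zero_add]
    have e3 : b + g + v₃ + v₂ = b + v₂ + v₃ + g := by simp only [add_comm, add_left_comm, add_assoc, h2, add_self_left h2, add_zero, zero_add]
    have e4 : b + g + v₃ + v₂ + g = b + v₂ + v₃ := by simp only [add_comm, add_left_comm, add_assoc, h2, add_self_left h2, add_zero, zero_add]
    refine five1 hR h2 hI' hv' c3 ?_ ?_ ?_ ?_
    · rw [e1]
      exact a4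
    · rw [e2]
      exact a3
    · rw [e3]
      exact hR.trans _ _ _ _ h4 h
    · rw [e4]
      exact h4

theorem lemE (hR : Core R) (h2 : ∀ x : Q, x + x = 0) (hQ : Fintype.card Q = 16)
    (hLM : LM R ⊤) (hF : Full R) {b g v₁ v₂ v₃ : Q} (hf : Fr R b g v₁ v₂ v₃)
    (hb : ¬ R v₁ b (b + g)) :
    R v₁ (b + v₂) (b + v₂ + g) ∧ R v₁ (b + v₃) (b + v₃ + g) ∧ ¬ R v₁ (b + v₂) (b + v₃) ∧
      ¬ R v₁ (b + v₂ + v₃) (b + v₂ + v₃ + g) := by
  have hb' : ¬ R v₁ (b + g) (b + g + g) := by
    have e : b + g + g = b := by simp only [add_comm, add_left_comm, add_assoc, h2, add_self_left h2, add_zero, zero_add]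
    rw [e]
    exact fun h => hb (hR.symm _ _ _ h)
  have e2 : b + g + v₂ = b + v₂ + g := by simp only [add_comm, add_left_comm, add_assoc, h2, add_self_left h2, add_zero, zero_add]
  have e3 : b + g + v₃ = b + v₃ + g := by simp only [add_comm, add_left_comm, add_assoc, h2, add_self_left h2, add_zero, zero_add]
  have e4 : b + g + v₂ + g = b + v₂ := by simp only [add_comm, add_left_comm, add_assoc, h2, add_self_left h2, add_zero, zero_add]
  have e5 : b + g + v₃ + g = b + v₃ := by simp only [add_comm, add_left_comm, add_assoc, h2, add_self_left h2, add_zero, zero_add]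
  have k1 := lemE1 hR h2 hQ hLM hF hf hb
  have k2 := lemE1 hR h2 hQ hLM hF (hf.base hR h2) hb'
  rw [e4, e5, e2, e3] at k2
  rcases k1 with ⟨a1, a2⟩ | ⟨a1, a2⟩
  · rcases k2 with ⟨a3, a4⟩ | ⟨a3, a4⟩
    · exact absurd (hR.trans _ _ _ _ a1 (hR.symm _ _ _ a4)) hb
    · exact lemE2 hR h2 hQ hF hf hb a1 a2 a4 a3
  · rcases k2 with ⟨a3, a4⟩ | ⟨a3, a4⟩
    · obtain ⟨r1, r2, r3, r4⟩ := lemE2 hR h2 hQ hF (hf.swap23 h2) hb a1 a2 a4 a3
      refine ⟨r2, r1, fun h => r3 (hR.symm _ _ _ h), ?_⟩
      have e6 : b + v₂ + v₃ = b + v₃ + v₂ := by simp only [add_comm, add_left_comm, add_assoc, h2, add_self_left h2, add_zero, zero_add]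
      rw [e6]
      exact r4
    · exact absurd (hR.trans _ _ _ _ a1 (hR.symm _ _ _ a4)) hb

/-- opposite edges are not both active (first form) -/
theorem lemO1 (hR : Core R) (h2 : ∀ x : Q, x + x = 0) (hQ : Fintype.card Q = 16)
    (hLM : LM R ⊤) (hF : Full R) {b g v₁ v₂ v₃ : Q} (hf : Fr R b g v₁ v₂ v₃)
    (hb : ¬ R v₁ b (b + g)) (hw : ¬ R (v₂ + v₃) (b + v₂) (b + v₂ + g)) : False := by
  obtain ⟨-, -, -, q4⟩ := lemE hR h2 hQ hLM hF hf hb
  have hf' : Fr R (b + v₂) g (v₂ + v₃) v₂ (v₂ + v₁) := by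
    have := (hf.swap12 h2).vertex hR h2
    exact ((this.swap23 h2).swap12 h2)
  obtain ⟨-, p2, p3, -⟩ := lemE hR h2 hQ hLM hF hf' hw
  have e1 : b + v₂ + (v₂ + v₁) = b + v₁ := by simp only [add_comm, add_left_comm, add_assoc, h2, add_self_left h2, add_zero, zero_add]
  have e2 : b + v₂ + v₂ = b := by simp only [add_comm, add_left_comm, add_assoc, h2, add_self_left h2, add_zero, zero_add]
  rw [e1] at p2 p3
  rw [e2] at p3
  have s1 : R v₁ b (b + (v₂ + v₃)) := hR.k2 h2 p3
  refine hR.k3 h2 (x := b) (g := g) (u := v₁) (h := v₂ + v₃) ?_ ?_ ?_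
  · have e3 : b + v₁ + (v₂ + v₃) = b + v₁ + v₂ + v₃ := by simp only [add_comm, add_left_comm, add_assoc, h2, add_self_left h2, add_zero, zero_add]
    rw [e3]
    exact hf.n123
  · intro h
    apply q4
    have e3 : b + g + (v₂ + v₃) = b + v₂ + v₃ + g := by simp only [add_comm, add_left_comm, add_assoc, h2, add_self_left h2, add_zero, zero_add]
    have e4 : b + (v₂ + v₃) = b + v₂ + v₃ := by simp only [add_comm, add_left_comm, add_assoc, h2, add_self_left h2, add_zero, zero_add]
    rw [e3] at h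
    rw [e4] at s1
    exact hR.trans _ _ _ _ (hR.symm _ _ _ s1) h
  · intro h
    apply p3
    have e3 : b + g + v₁ = b + v₁ + g := by simp only [add_comm, add_left_comm, add_assoc, h2, add_self_left h2, add_zero, zero_add]
    rw [e3] at h
    exact hR.trans _ _ _ _ h (hR.symm _ _ _ p2)

theorem lemO (hR : Core R) (h2 : ∀ x : Q, x + x = 0) (hQ : Fintype.card Q = 16)
    (hLM : LM R ⊤) (hF : Full R) {b g v₁ v₂ v₃ w : Q} (hf : Fr R b g v₁ v₂ v₃)
    (hb : ¬ R v₁ b (b + g)) (hw' : w = v₂ + v₃ ∨ w = v₂ + v₃ + g)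
    (hw : ¬ R w (b + v₂) (b + v₂ + g)) : False := by
  rcases hw' with rfl | rfl
  · exact lemO1 hR h2 hQ hLM hF hf hb hw
  · rw [add_assoc] at hw
    exact lemO1 hR h2 hQ hLM hF (hf.shift3 hR h2) hb hw

/-- no stars -/
theorem lemS (hR : Core R) (h2 : ∀ x : Q, x + x = 0) (hQ : Fintype.card Q = 16)
    (hLM : LM R ⊤) (hF : Full R) {b g v₁ v₂ v₃ : Q} (hf : Fr R b g v₁ v₂ v₃)
    (hb1 : ¬ R v₁ b (b + g)) (hb2 : ¬ R v₂ b (b + g)) (hb3 : ¬ R v₃ b (b + g)) : False := by
  obtain ⟨-, -, p3, p4⟩ := lemE hR h2 hQ hLM hF hf hb1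
  obtain ⟨-, -, q3, q4⟩ := lemE hR h2 hQ hLM hF (hf.swap12 h2) hb2
  obtain ⟨-, -, r3, r4⟩ := lemE hR h2 hQ hLM hF ((hf.swap23 h2).swap12 h2) hb3
  -- `p3 : ¬ R v₁ (b + v₂) (b + v₃)`, `q3 : ¬ R v₂ (b + v₁) (b + v₃)`, `r3 : ¬ R v₃ (b + v₁) (b + v₂)`
  have s1 : R v₁ b (b + v₂ + v₃) := by
    by_contra h
    refine hR.k3 h2 (x := b + v₁) (g := v₁) (u := v₂) (h := v₃) ?_ ?_ ?_
    · rw [rg_left hR h2 rfl, rg_add' hR h2 (y := b + v₂ + v₃) (by simp only [add_comm, add_left_comm, add_assoc, h2, add_self_left h2, add_zero, zero_add])]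
      exact h
    · have e : b + v₁ + v₁ + v₃ = b + v₃ := by simp only [add_comm, add_left_comm, add_assoc, h2, add_self_left h2, add_zero, zero_add]
      rw [e]
      exact q3
    · have e : b + v₁ + v₁ + v₂ = b + v₂ := by simp only [add_comm, add_left_comm, add_assoc, h2, add_self_left h2, add_zero, zero_add]
      rw [e]
      exact r3
  have s2 : R v₂ b (b + v₁ + v₃) := by
    by_contra h
    refine hR.k3 h2 (x := b + v₂) (g := v₁) (u := v₂) (h := v₃) ?_ ?_ ?_
    · have e : b + v₂ + v₂ + v₃ = b + v₃ := by simp only [add_comm, add_left_comm, add_assoc, h2, add_self_left h2, add_zero, zero_add]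
      rw [e]
      exact p3
    · rw [rg_left hR h2 rfl, rg_add' hR h2 (y := b + v₁ + v₃) (by simp only [add_comm, add_left_comm, add_assoc, h2, add_self_left h2, add_zero, zero_add])]
      exact h
    · have e : b + v₂ + v₁ + v₂ = b + v₁ := by simp only [add_comm, add_left_comm, add_assoc, h2, add_self_left h2, add_zero, zero_add]
      rw [e]
      exact fun h' => r3 (hR.symm _ _ _ h')
  have s3 : R v₃ b (b + v₁ + v₂) := by
    by_contra h
    refine hR.k3 h2 (x := b + v₃) (g := v₁) (u := v₂) (h := v₃) ?_ ?_ ?_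
    · have e : b + v₃ + v₂ + v₃ = b + v₂ := by simp only [add_comm, add_left_comm, add_assoc, h2, add_self_left h2, add_zero, zero_add]
      rw [e]
      exact fun h' => p3 (hR.symm _ _ _ h')
    · have e : b + v₃ + v₁ + v₃ = b + v₁ := by simp only [add_comm, add_left_comm, add_assoc, h2, add_self_left h2, add_zero, zero_add]
      rw [e]
      exact fun h' => q3 (hR.symm _ _ _ h')
    · rw [rg_left hR h2 rfl, rg_add' hR h2 (y := b + v₁ + v₂) (by simp only [add_comm, add_left_comm, add_assoc, h2, add_self_left h2, add_zero, zero_add])]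
      exact h
  refine hR.k4 h2 (x := b) (g := g) (u := v₁) (h := v₂) (w := v₃) hf.n123 ?_ ?_ ?_
  · intro h
    apply p4
    have e : b + g + v₂ + v₃ = b + v₂ + v₃ + g := by simp only [add_comm, add_left_comm, add_assoc, h2, add_self_left h2, add_zero, zero_add]
    rw [e] at h
    exact hR.trans _ _ _ _ (hR.symm _ _ _ s1) h
  · intro h
    apply q4
    have e : b + g + v₁ + v₃ = b + v₁ + v₃ + g := by simp only [add_comm, add_left_comm, add_assoc, h2, add_self_left h2, add_zero, zero_add]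
    rw [e] at h
    exact hR.trans _ _ _ _ (hR.symm _ _ _ s2) h
  · intro h
    apply r4
    have e : b + g + v₁ + v₂ = b + v₁ + v₂ + g := by simp only [add_comm, add_left_comm, add_assoc, h2, add_self_left h2, add_zero, zero_add]
    rw [e] at h
    exact hR.trans _ _ _ _ (hR.symm _ _ _ s3) h

end CTL
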