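import Pool.Agent.CTL.Core

/-!
# CTL / Lin: columns which are linear, the minimal cycle

If all non constant columns are linear (`R g p q ↔ p + q ∈ N g`, `N g` of index 2) and every non constant
column `g` has a non constant column `h` with `g ∉ N h` then all columns are constant: a minimal non empty
set `T` of non constant directions in which every `g` has an `h` with `g ∉ N h` is a cycle without chord,
so `∑ T ∉ N h` for all `h ∈ T`, against `key`.
-/

namespace CTL

/-- A minimal closed set: every `g ∈ T` has exactly one predecessor. -/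
theorem exists_cycle {α : Type*} [DecidableEq α] (S : Finset α) (hS : S.Nonempty)
    (P : α → α → Prop) (hP : ∀ g ∈ S, ∃ h ∈ S, P g h) :
    ∃ T : Finset α, T ⊆ S ∧ T.Nonempty ∧ ∀ h ∈ T, ∃ g ∈ T, P g h ∧ ∀ g' ∈ T, P g' h → g' = g := by
  classical
  -- minimal closed non empty set
  have hex : ∃ T : Finset α, T ⊆ S ∧ T.Nonempty ∧ (∀ g ∈ T, ∃ h ∈ T, P g h) ∧
      ∀ T' : Finset α, T' ⊆ T → T'.Nonempty → (∀ g ∈ T', ∃ h ∈ T', P g h) → T' = T := by
    obtain ⟨n, hn⟩ : ∃ n, S.card = n := ⟨_, rfl⟩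
    induction n using Nat.strong_induction_on generalizing S with
    | _ n ih =>
      by_cases h : ∃ T' : Finset α, T' ⊆ S ∧ T'.Nonempty ∧ (∀ g ∈ T', ∃ h ∈ T', P g h) ∧ T' ≠ S
      · obtain ⟨T', h1, h2, h3, h4⟩ := h
        have hlt : T'.card < S.card := Finset.card_lt_card (lt_of_le_of_ne h1 h4)
        obtain ⟨T, a1, a2, a3, a4⟩ := ih T'.card (hn ▸ hlt) T' h2 h3 rfl
        exact ⟨T, a1.trans h1, a2, a3, a4⟩
      · refine ⟨S, subset_rfl, hS, hP, fun T' h1 h2 h3 => ?_⟩
        by_contra h4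
        exact h ⟨T', h1, h2, h3, h4⟩
  obtain ⟨T, hTS, hTne, hTP, hmin⟩ := hex
  refine ⟨T, hTS, hTne, ?_⟩
  choose! f hf hfP using hTP
  -- the image of a choice function is closed
  have himg : ∀ F : α → α, (∀ g ∈ T, F g ∈ T) → (∀ g ∈ T, P g (F g)) → T.image F = T := by
    intro F h1 h2
    refine hmin (T.image F) ?_ (hTne.image F) ?_
    · intro y hy
      obtain ⟨g, hg, rfl⟩ := Finset.mem_image.1 hy
      exact h1 g hg
    · intro y hy
      obtain ⟨g, hg, rfl⟩ := Finset.mem_image.1 hy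
      exact ⟨F (F g), Finset.mem_image_of_mem F (h1 g hg), h2 _ (h1 g hg)⟩
  have hinj : ∀ F : α → α, (∀ g ∈ T, F g ∈ T) → (∀ g ∈ T, P g (F g)) →
      Set.InjOn F (T : Set α) := by
    intro F h1 h2
    apply Finset.injOn_of_card_image_eq
    rw [himg F h1 h2]
  intro h hh
  have h1 := himg f hf hfP
  have h2 : h ∈ T.image f := by
    rw [h1]
    exact hh
  obtain ⟨g, hg, hgh⟩ := Finset.mem_image.1 h2
  refine ⟨g, hg, hgh ▸ hfP g hg, fun g' hg' hP' => ?_⟩
  by_contra hne
  -- redirect g' to h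
  have h3 := hinj (Function.update f g' h) (fun a ha => by
      by_cases h : a = g'
      · rw [h, Function.update_self]
        exact hh
      · rw [Function.update_of_ne h]
        exact hf a ha) (fun a ha => by
      by_cases h : a = g'
      · rw [h, Function.update_self]
        exact hP'
      · rw [Function.update_of_ne h]
        exact hfP a ha)
  have h4 := h3 (Finset.mem_coe.2 hg') (Finset.mem_coe.2 hg) (by
    rw [Function.update_self, Function.update_of_ne (Ne.symm hne)]
    exact hgh.symm)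
  exact hne h4

/-- Not all non constant columns are linear. -/
theorem lin_false {Q : Type*} [AddCommGroup Q] {R : Q → Q → Q → Prop} (hR : Core R)
    (h2 : ∀ x : Q, x + x = 0) (S : Finset Q) (hS : S.Nonempty) (N : Q → AddSubgroup Q)
    (hN : ∀ g ∈ S, ∀ p q, R g p q ↔ p + q ∈ N g) (hP : ∀ g ∈ S, ∃ h ∈ S, g ∉ N h) :
    False := by
  classical
  obtain ⟨T, hTS, hTne, hT⟩ := exists_cycle S hS (fun g h => g ∉ N h) hP
  have hs : ∀ h ∈ T, ∑ γ ∈ T, γ ∉ N h := by
    intro h hh hmem
    obtain ⟨g, hg, hgh, huniq⟩ := hT h hh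
    rw [← Finset.add_sum_erase T (fun γ => γ) hg] at hmem
    have h1 : ∑ γ ∈ T.erase g, γ ∈ N h := by
      refine sum_mem fun γ hγ => ?_
      by_contra hcon
      exact (Finset.ne_of_mem_erase hγ) (huniq γ (Finset.mem_of_mem_erase hγ) hcon)
    exact hgh ((AddSubgroup.add_mem_cancel_right _ h1).1 hmem)
  obtain ⟨h₀, hh₀⟩ := hTne
  have hne : ∑ γ ∈ T, γ ≠ 0 := by
    intro h1
    apply hs h₀ hh₀
    rw [h1]
    exact zero_mem _
  obtain ⟨h, hh, hRh⟩ := hR.key T hne 0
  rw [hN h (hTS hh), zero_add, zero_add] at hRh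
  exact hs h hh hRh

end CTL
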