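import Pool.Agent.CTL.Four2
import Pool.Agent.CTL.Lin

/-!
# CTL / Four3: the full case, and the conclusion for groups of order 16
-/

namespace CTL

open Finset

variable {Q : Type*} [AddCommGroup Q] [Fintype Q] {R : Q → Q → Q → Prop}

/-- an active edge at the vertex `b` -/
theorem edge (hR : Core R) (h2 : ∀ x : Q, x + x = 0) (hQ : Fintype.card Q = 16)
    (hF : Full R) {b g v₁ v₂ v₃ : Q} (hf : Fr R b g v₁ v₂ v₃) :
    (¬ R v₁ b (b + g) ∨ ¬ R (v₁ + g) b (b + g)) ∨ (¬ R v₂ b (b + g) ∨ ¬ R (v₂ + g) b (b + g)) ∨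
      (¬ R v₃ b (b + g) ∨ ¬ R (v₃ + g) b (b + g)) := by
  obtain ⟨k, hk⟩ := (hF g b _ hf.n12).2
  have h1 := hR.k2 h2 hk
  rcases hf.mem hR h2 hQ h1 with (e | e) | (e | e) | (e | e) | (e | e)
  · exfalso
    have e1 : k = 0 := by simpa using e
    subst e1
    -- the column 0
    obtain ⟨l, hl⟩ := (hF 0 b _ hk).2
    rw [add_zero] at hl
    exact hl (hR.refl _ _)
  · exfalso
    have e1 : k = g := add_left_cancel e
    subst e1
    exact hk (hR.inv _ _)
  · have e1 : k = v₁ := add_left_cancel e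
    subst e1
    exact Or.inl (Or.inl hk)
  · have e1 : k = v₁ + g := by rw [add_assoc] at e; exact add_left_cancel e
    subst e1
    exact Or.inl (Or.inr hk)
  · have e1 : k = v₂ := add_left_cancel e
    subst e1
    exact Or.inr (Or.inl (Or.inl hk))
  · have e1 : k = v₂ + g := by rw [add_assoc] at e; exact add_left_cancel e
    subst e1
    exact Or.inr (Or.inl (Or.inr hk))
  · have e1 : k = v₃ := add_left_cancel e
    subst e1
    exact Or.inr (Or.inr (Or.inl hk))
  · have e1 : k = v₃ + g := by rw [add_assoc] at e; exact add_left_cancel e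
    subst e1
    exact Or.inr (Or.inr (Or.inr hk))

/-- the star, up to shifts -/
theorem star' (hR : Core R) (h2 : ∀ x : Q, x + x = 0) (hQ : Fintype.card Q = 16)
    (hLM : LM R ⊤) (hF : Full R) {b g v₁ v₂ v₃ : Q} (hf : Fr R b g v₁ v₂ v₃)
    (hb1 : ¬ R v₁ b (b + g)) (hb2 : ¬ R v₂ b (b + g) ∨ ¬ R (v₂ + g) b (b + g))
    (hb3 : ¬ R v₃ b (b + g) ∨ ¬ R (v₃ + g) b (b + g)) : False := by
  rcases hb2 with hb2 | hb2
  · rcases hb3 with hb3 | hb3
    · exact lemS hR h2 hQ hLM hF hf hb1 hb2 hb3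
    · exact lemS hR h2 hQ hLM hF (hf.shift3 hR h2) hb1 hb2 hb3
  · rcases hb3 with hb3 | hb3
    · exact lemS hR h2 hQ hLM hF (hf.shift2 hR h2) hb1 hb2 hb3
    · exact lemS hR h2 hQ hLM hF ((hf.shift2 hR h2).shift3 hR h2) hb1 hb2 hb3

/-- an active edge is impossible -/
theorem lemT (hR : Core R) (h2 : ∀ x : Q, x + x = 0) (hQ : Fintype.card Q = 16)
    (hLM : LM R ⊤) (hF : Full R) {b g v₁ v₂ v₃ : Q} (hf : Fr R b g v₁ v₂ v₃)
    (hb : ¬ R v₁ b (b + g)) : False := by
  -- opposite edge `{b + v₂, b + v₃}`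
  have opp : ∀ {b v₁ v₂ v₃ : Q}, Fr R b g v₁ v₂ v₃ → ¬ R v₁ b (b + g) →
      (¬ R (v₂ + v₃) (b + v₂) (b + v₂ + g) ∨ ¬ R (v₂ + v₃ + g) (b + v₂) (b + v₂ + g)) →
      False := by
    intro b v₁ v₂ v₃ hf hb h
    rcases h with h | h
    · exact lemO hR h2 hQ hLM hF hf hb (Or.inl rfl) h
    · exact lemO hR h2 hQ hLM hF hf hb (Or.inr rfl) h
  have opp' : ∀ {b v₁ v₂ v₃ : Q}, Fr R b g v₁ v₂ v₃ → (¬ R v₁ b (b + g) ∨
      ¬ R (v₁ + g) b (b + g)) →
      (¬ R (v₂ + v₃) (b + v₂) (b + v₂ + g) ∨ ¬ R (v₂ + v₃ + g) (b + v₂) (b + v₂ + g)) →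
      False := by
    intro b v₁ v₂ v₃ hf hb h
    rcases hb with hb | hb
    · exact opp hf hb h
    · exact opp (hf.shift1 hR h2) hb h
  -- the vertex `b + v₂`
  have f2 : Fr R (b + v₂) g v₂ (v₂ + v₁) (v₂ + v₃) := (hf.swap12 h2).vertex hR h2
  have f3 : Fr R (b + v₃) g v₃ (v₃ + v₁) (v₃ + v₂) :=
    (((hf.swap23 h2).swap12 h2).vertex hR h2)
  have f1 : Fr R (b + v₁) g v₁ (v₁ + v₂) (v₁ + v₃) := hf.vertex hR h2
  have hb1 : ¬ R v₁ (b + v₁) (b + v₁ + g) := by
    rw [rg_left hR h2 rfl, rg_add' hR h2 (y := b + g) (by simp only [add_comm, add_left_comm, add_assoc, h2, add_self_left h2, add_zero, zero_add])]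
    exact hb
  have b2 : ∀ {k : Q}, k = v₂ ∨ k = v₂ + g → ¬ R k (b + v₂) (b + v₂ + g) → ¬ R k b (b + g) := by
    rintro k (rfl | rfl) h h'
    · apply h
      rw [rg_left hR h2 rfl, rg_add' hR h2 (y := b + g) (by simp only [add_comm, add_left_comm, add_assoc, h2, add_self_left h2, add_zero, zero_add])]
      exact h'
    · apply h
      have h3 : R (v₂ + g) b (b + v₂) := by
        have h4 := hR.inv (v₂ + g) (b + g)
        have e : b + g + (v₂ + g) = b + v₂ := by simp only [add_comm, add_left_comm, add_assoc, h2, add_self_left h2, add_zero, zero_add]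
        rw [e] at h4
        exact hR.trans _ _ _ _ h' h4
      have h4 : R (v₂ + g) b (b + v₂ + g) := by
        have h5 := hR.inv (v₂ + g) b
        have e : b + (v₂ + g) = b + v₂ + g := by simp only [add_comm, add_left_comm, add_assoc, h2, add_self_left h2, add_zero, zero_add]
        rwa [e] at h5
      exact hR.trans _ _ _ _ (hR.symm _ _ _ h3) h4
  have b3 : ∀ {k : Q}, k = v₃ ∨ k = v₃ + g → ¬ R k (b + v₃) (b + v₃ + g) → ¬ R k b (b + g) := by
    rintro k (rfl | rfl) h h'
    · apply h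
      rw [rg_left hR h2 rfl, rg_add' hR h2 (y := b + g) (by simp only [add_comm, add_left_comm, add_assoc, h2, add_self_left h2, add_zero, zero_add])]
      exact h'
    · apply h
      have h3 : R (v₃ + g) b (b + v₃) := by
        have h4 := hR.inv (v₃ + g) (b + g)
        have e : b + g + (v₃ + g) = b + v₃ := by simp only [add_comm, add_left_comm, add_assoc, h2, add_self_left h2, add_zero, zero_add]
        rw [e] at h4
        exact hR.trans _ _ _ _ h' h4
      have h4 : R (v₃ + g) b (b + v₃ + g) := by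
        have h5 := hR.inv (v₃ + g) b
        have e : b + (v₃ + g) = b + v₃ + g := by simp only [add_comm, add_left_comm, add_assoc, h2, add_self_left h2, add_zero, zero_add]
        rwa [e] at h5
      exact hR.trans _ _ _ _ (hR.symm _ _ _ h3) h4
  -- moving an edge `{b + v₂, b + v₁}` to the vertex `b + v₁`
  have mv : ∀ {w v : Q}, (¬ R (w + v) (b + w) (b + w + g) ∨
      ¬ R (w + v + g) (b + w) (b + w + g)) → (¬ R (v + w) (b + v) (b + v + g) ∨
      ¬ R (v + w + g) (b + v) (b + v + g)) := by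
    intro w v h
    have ew : w + v = v + w := add_comm _ _
    rw [ew] at h
    rcases h with h | h
    · left
      intro h'
      apply h
      rw [← rg_left hR h2 (x := b + v) (z := b + w) (by simp only [add_comm, add_left_comm, add_assoc, h2, add_self_left h2, add_zero, zero_add])] at h'
      rw [← rg_add' hR h2 (y := b + v + g) (z := b + w + g) (by simp only [add_comm, add_left_comm, add_assoc, h2, add_self_left h2, add_zero, zero_add])] at h'
      exact h'
    · right
      intro h'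
      apply h
      have h3 : R (v + w + g) (b + v) (b + w + g) := by
        have h5 := hR.inv (v + w + g) (b + v)
        have e : b + v + (v + w + g) = b + w + g := by simp only [add_comm, add_left_comm, add_assoc, h2, add_self_left h2, add_zero, zero_add]
        rwa [e] at h5
      have h4 : R (v + w + g) (b + v + g) (b + w) := by
        have h5 := hR.inv (v + w + g) (b + v + g)
        have e : b + v + g + (v + w + g) = b + w := by simp only [add_comm, add_left_comm, add_assoc, h2, add_self_left h2, add_zero, zero_add]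
        rwa [e] at h5
      exact hR.trans _ _ _ _ (hR.symm _ _ _ h4) (hR.trans _ _ _ _ (hR.symm _ _ _ h') h3)
  rcases edge hR h2 hQ hF f2 with h | h | h
  · -- edge `{b + v₂, b}`
    have h' : ¬ R v₂ b (b + g) ∨ ¬ R (v₂ + g) b (b + g) := by
      rcases h with h | h
      · exact Or.inl (b2 (Or.inl rfl) h)
      · exact Or.inr (b2 (Or.inr rfl) h)
    rcases edge hR h2 hQ hF f3 with k | k | k
    · have k' : ¬ R v₃ b (b + g) ∨ ¬ R (v₃ + g) b (b + g) := by
        rcases k with k | k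
        · exact Or.inl (b3 (Or.inl rfl) k)
        · exact Or.inr (b3 (Or.inr rfl) k)
      exact star' hR h2 hQ hLM hF hf hb h' k'
    · -- `{b + v₃, b + v₁}` opposite to `{b, b + v₂}`
      refine opp' (v₁ := v₂) (v₂ := v₃) (v₃ := v₁) ?_ h' k
      exact (hf.swap12 h2).swap23 h2
    · exact opp (v₂ := v₃) (v₃ := v₂) (hf.swap23 h2) hb k
  · -- edge `{b + v₂, b + v₁}`
    rcases edge hR h2 hQ hF f3 with k | k | k
    · have k' : ¬ R v₃ b (b + g) ∨ ¬ R (v₃ + g) b (b + g) := by
        rcases k with k | k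
        · exact Or.inl (b3 (Or.inl rfl) k)
        · exact Or.inr (b3 (Or.inr rfl) k)
      refine opp' (v₁ := v₃) (v₂ := v₂) (v₃ := v₁) ?_ k' h
      exact ((hf.swap23 h2).swap12 h2).swap23 h2
    · exact star' hR h2 hQ hLM hF f1 hb1 (mv h) (mv k)
    · exact opp (v₂ := v₃) (v₃ := v₂) (hf.swap23 h2) hb k
  · exact opp hf hb h

/-- there are no frames -/
theorem no_frame (hR : Core R) (h2 : ∀ x : Q, x + x = 0) (hQ : Fintype.card Q = 16)
    (hLM : LM R ⊤) (hF : Full R) {b g v₁ v₂ v₃ : Q} (hf : Fr R b g v₁ v₂ v₃) : False := by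
  rcases edge hR h2 hQ hF hf with (h | h) | (h | h) | (h | h)
  · exact lemT hR h2 hQ hLM hF hf h
  · exact lemT hR h2 hQ hLM hF (hf.shift1 hR h2) h
  · exact lemT hR h2 hQ hLM hF (hf.swap12 h2) h
  · exact lemT hR h2 hQ hLM hF ((hf.shift2 hR h2).swap12 h2) h
  · exact lemT hR h2 hQ hLM hF ((hf.swap23 h2).swap12 h2) h
  · exact lemT hR h2 hQ hLM hF (((hf.shift3 hR h2).swap23 h2).swap12 h2) h

end CTL
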