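import Pool.Agent.CTL.Four3

/-!
# CTL / Four4: the full case, and the conclusion for groups of order 16
-/

namespace CTL

open Finset

variable {Q : Type*} [AddCommGroup Q] [Fintype Q] {R : Q → Q → Q → Prop}

theorem fourth {g x : Q} (h8 : cls R ⊤ g x = 8) (a b c : Q) :
    ∃ y, R g x y ∧ y ≠ a ∧ y ≠ a + g ∧ y ≠ b ∧ y ≠ b + g ∧ y ≠ c ∧ y ≠ c + g := by
  classical
  by_contra hcon
  push Not at hcon
  have h1 : clsF R ⊤ g x ⊆ ({a, a + g, b, b + g, c, c + g} : Finset Q) := by
    intro y hy
    rw [mem_clsF] at hy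
    simp only [Finset.mem_insert, Finset.mem_singleton]
    by_contra h
    push Not at h
    obtain ⟨k1, k2, k3, k4, k5, k6⟩ := h
    exact k6 (hcon y hy.2 k1 k2 k3 k4 k5)
  have h2 := Finset.card_le_card h1
  have h3 : ({a, a + g, b, b + g, c, c + g} : Finset Q).card ≤ 6 := Finset.card_le_six
  unfold cls at h8
  omega

theorem frame_of (hR : Core R) (h2 : ∀ x : Q, x + x = 0) {g v w x : Q} (hI : I3 g v w)
    (h8 : cls R ⊤ g x = 8) (r1 : R g x (x + v)) (r2 : R g x (x + w))
    (n12 : ¬ R g x (x + v + w)) : ∃ c, Fr R x g v w c := by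
  obtain ⟨y, hy, k1, k2, k3, k4, k5, k6⟩ := fourth h8 x (x + v) (x + w)
  have ey : x + (x + y) = y := add_self_left h2 x y
  have hc : x + y ∉ h3 g v w := by
    rw [mem_h3 h2]
    rintro (((h | h) | (h | h)) | ((h | h) | (h | h)))
    · exact k1 (eq_of_add h2 (by rw [← h]; simp only [add_comm, add_left_comm, add_assoc, h2, add_self_left h2, add_zero, zero_add]))
    · exact k2 (eq_of_add h2 (by rw [← h]; simp only [add_comm, add_left_comm, add_assoc, h2, add_self_left h2, add_zero, zero_add]))
    · exact k3 (eq_of_add h2 (by rw [← h]; simp only [add_comm, add_left_comm, add_assoc, h2, add_self_left h2, add_zero, zero_add]))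
    · exact k4 (eq_of_add h2 (by rw [← h]; simp only [add_comm, add_left_comm, add_assoc, h2, add_self_left h2, add_zero, zero_add]))
    · exact k5 (eq_of_add h2 (by rw [← h]; simp only [add_comm, add_left_comm, add_assoc, h2, add_self_left h2, add_zero, zero_add]))
    · exact k6 (eq_of_add h2 (by rw [← h]; simp only [add_comm, add_left_comm, add_assoc, h2, add_self_left h2, add_zero, zero_add]))
    · apply n12
      have e : y = x + v + w := eq_of_add h2 (by rw [← h]; simp only [add_comm, add_left_comm, add_assoc, h2, add_self_left h2, add_zero, zero_add])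
      rw [← e]
      exact hy
    · apply n12
      have e : x + v + w + g = y := eq_of_add h2 (by rw [← h]; simp only [add_comm, add_left_comm, add_assoc, h2, add_self_left h2, add_zero, zero_add])
      exact (rg_add' hR h2 e).1 hy
  rw [← ey] at hy
  generalize x + y = c at hc hy
  rw [mem_h3 h2] at hc
  push Not at hc
  obtain ⟨⟨⟨m1, m2⟩, m3, m4⟩, ⟨m5, m6⟩, m7, m8⟩ := hc
  obtain ⟨n1, n2, n3, n4, n5, n6, n7⟩ := hI
  -- the four lines
  have d1 : x ≠ x + v ∧ x ≠ x + v + g :=
    ⟨ne_of_add h2 n2 (by simp only [add_comm, add_left_comm, add_assoc, h2, add_self_left h2, add_zero, zero_add]), ne_of_add h2 n4 (by simp only [add_comm, add_left_comm, add_assoc, h2, add_self_left h2, add_zero, zero_add])⟩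
  have d2 : x ≠ x + w ∧ x ≠ x + w + g :=
    ⟨ne_of_add h2 n3 (by simp only [add_comm, add_left_comm, add_assoc, h2, add_self_left h2, add_zero, zero_add]), ne_of_add h2 n5 (by simp only [add_comm, add_left_comm, add_assoc, h2, add_self_left h2, add_zero, zero_add])⟩
  have d3 : x ≠ x + c ∧ x ≠ x + c + g :=
    ⟨ne_of_add h2 m1 (by simp only [add_comm, add_left_comm, add_assoc, h2, add_self_left h2, add_zero, zero_add]), ne_of_add h2 m2 (by simp only [add_comm, add_left_comm, add_assoc, h2, add_self_left h2, add_zero, zero_add])⟩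
  have d4 : x + v ≠ x + w ∧ x + v ≠ x + w + g :=
    ⟨ne_of_add h2 n6 (by simp only [add_comm, add_left_comm, add_assoc, h2, add_self_left h2, add_zero, zero_add]), ne_of_add h2 n7 (by simp only [add_comm, add_left_comm, add_assoc, h2, add_self_left h2, add_zero, zero_add])⟩
  have d5 : x + v ≠ x + c ∧ x + v ≠ x + c + g :=
    ⟨ne_of_add h2 m3 (by simp only [add_comm, add_left_comm, add_assoc, h2, add_self_left h2, add_zero, zero_add]), ne_of_add h2 m4 (by simp only [add_comm, add_left_comm, add_assoc, h2, add_self_left h2, add_zero, zero_add])⟩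
  have d6 : x + w ≠ x + c ∧ x + w ≠ x + c + g :=
    ⟨ne_of_add h2 m5 (by simp only [add_comm, add_left_comm, add_assoc, h2, add_self_left h2, add_zero, zero_add]), ne_of_add h2 m6 (by simp only [add_comm, add_left_comm, add_assoc, h2, add_self_left h2, add_zero, zero_add])⟩
  refine ⟨c, n1, r1, r2, hy, n12, fun h => ?_, fun h => ?_, fun h => ?_⟩
  · exact five hR h2 n1 h8 (hR.refl _ _) r1 r2 hy h d1 d2 d3
      ⟨ne_of_add h2 m3 (by simp only [add_comm, add_left_comm, add_assoc, h2, add_self_left h2, add_zero, zero_add]), ne_of_add h2 m4 (by simp only [add_comm, add_left_comm, add_assoc, h2, add_self_left h2, add_zero, zero_add])⟩ d4 d5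
      ⟨ne_of_add h2 m1 (by simp only [add_comm, add_left_comm, add_assoc, h2, add_self_left h2, add_zero, zero_add]), ne_of_add h2 m2 (by simp only [add_comm, add_left_comm, add_assoc, h2, add_self_left h2, add_zero, zero_add])⟩ d6
      ⟨ne_of_add h2 m7 (by simp only [add_comm, add_left_comm, add_assoc, h2, add_self_left h2, add_zero, zero_add]), ne_of_add h2 m8 (by simp only [add_comm, add_left_comm, add_assoc, h2, add_self_left h2, add_zero, zero_add])⟩
      ⟨ne_of_add h2 n2 (by simp only [add_comm, add_left_comm, add_assoc, h2, add_self_left h2, add_zero, zero_add]), ne_of_add h2 n4 (by simp only [add_comm, add_left_comm, add_assoc, h2, add_self_left h2, add_zero, zero_add])⟩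
  · exact five hR h2 n1 h8 (hR.refl _ _) r1 r2 hy h d1 d2 d3
      ⟨ne_of_add h2 m5 (by simp only [add_comm, add_left_comm, add_assoc, h2, add_self_left h2, add_zero, zero_add]), ne_of_add h2 m6 (by simp only [add_comm, add_left_comm, add_assoc, h2, add_self_left h2, add_zero, zero_add])⟩ d4 d5
      ⟨ne_of_add h2 m7 (by simp only [add_comm, add_left_comm, add_assoc, h2, add_self_left h2, add_zero, zero_add]), ne_of_add h2 m8 (by simp only [add_comm, add_left_comm, add_assoc, h2, add_self_left h2, add_zero, zero_add])⟩ d6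
      ⟨ne_of_add h2 m1 (by simp only [add_comm, add_left_comm, add_assoc, h2, add_self_left h2, add_zero, zero_add]), ne_of_add h2 m2 (by simp only [add_comm, add_left_comm, add_assoc, h2, add_self_left h2, add_zero, zero_add])⟩
      ⟨ne_of_add h2 n3 (by simp only [add_comm, add_left_comm, add_assoc, h2, add_self_left h2, add_zero, zero_add]), ne_of_add h2 n5 (by simp only [add_comm, add_left_comm, add_assoc, h2, add_self_left h2, add_zero, zero_add])⟩
  · exact five hR h2 n1 h8 (hR.refl _ _) r1 r2 hy h d1 d2 d3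
      ⟨ne_of_add h2 m7 (by simp only [add_comm, add_left_comm, add_assoc, h2, add_self_left h2, add_zero, zero_add]), ne_of_add h2 m8 (by simp only [add_comm, add_left_comm, add_assoc, h2, add_self_left h2, add_zero, zero_add])⟩ d4 d5
      ⟨ne_of_add h2 m5 (by simp only [add_comm, add_left_comm, add_assoc, h2, add_self_left h2, add_zero, zero_add]), ne_of_add h2 m6 (by simp only [add_comm, add_left_comm, add_assoc, h2, add_self_left h2, add_zero, zero_add])⟩ d6
      ⟨ne_of_add h2 m3 (by simp only [add_comm, add_left_comm, add_assoc, h2, add_self_left h2, add_zero, zero_add]), ne_of_add h2 m4 (by simp only [add_comm, add_left_comm, add_assoc, h2, add_self_left h2, add_zero, zero_add])⟩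
      ⟨ne_of_add h2 n6 (by simp only [add_comm, add_left_comm, add_assoc, h2, add_self_left h2, add_zero, zero_add]), ne_of_add h2 n7 (by simp only [add_comm, add_left_comm, add_assoc, h2, add_self_left h2, add_zero, zero_add])⟩

/-- classes are planes -/
theorem plane (hR : Core R) (h2 : ∀ x : Q, x + x = 0) (hQ : Fintype.card Q = 16)
    (hLM : LM R ⊤) (hF : Full R) {g x y : Q} (hxy : ¬ R g x y) :
    ∃ u h, I3 g u h ∧ R g x (x + u) ∧ R g x (x + h) ∧ R g x (x + u + h) := by
  obtain ⟨h8, u, hu⟩ := hF g x y hxy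
  have h1 := hR.k2 h2 hu
  obtain ⟨h, hh⟩ := (hF u x _ hu).2
  have hI : I3 g u h := blk_indep hR h2 hLM (AddSubgroup.mem_top _) h1 hu hh
  rcases hR.ab h2 h1 hu hh with h3 | h3 | h3
  · exact ⟨u, h, hI, h1, h3.1, h3.2⟩
  · exfalso
    have n12 : ¬ R g x (x + u + h) := fun h' =>
      h3.2.g3 (hR.trans _ _ _ _ (hR.symm _ _ _ h1) h')
    obtain ⟨c, hf⟩ := frame_of hR h2 hI h8 h1 h3.1 n12
    exact no_frame hR h2 hQ hLM hF hf
  · exfalso
    have n12 : ¬ R g x (x + u + (u + h)) := by
      have e : x + u + (u + h) = x + h := by simp only [add_comm, add_left_comm, add_assoc, h2, add_self_left h2, add_zero, zero_add]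
      rw [e]
      exact h3.2.g3
    have hI' : I3 g u (u + h) := by
      obtain ⟨n1, n2, n3, n4, n5, n6, n7⟩ := hI
      refine ⟨n1, n2, n6, n4, ?_, ?_, ?_⟩
      · rwa [← add_assoc]
      · rwa [add_self_left h2]
      · have e : g + u + (u + h) = g + h := by simp only [add_comm, add_left_comm, add_assoc, h2, add_self_left h2, add_zero, zero_add]
        rwa [e]
    have r2 : R g x (x + (u + h)) := by
      rw [← add_assoc]
      exact h3.1
    obtain ⟨c, hf⟩ := frame_of hR h2 hI' h8 h1 r2 n12
    exact no_frame hR h2 hQ hLM hF hf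

/-- columns are linear -/
theorem linear (hR : Core R) (h2 : ∀ x : Q, x + x = 0) (hQ : Fintype.card Q = 16)
    (hLM : LM R ⊤) (hF : Full R) {g : Q} (hg : ∃ x y, ¬ R g x y) :
    ∃ N : AddSubgroup Q, ∀ p q, R g p q ↔ p + q ∈ N := by
  obtain ⟨y, hy⟩ : ∃ y, ¬ R g 0 y := by
    by_contra hcon
    push Not at hcon
    obtain ⟨x, y, hxy⟩ := hg
    exact hxy (hR.trans _ _ _ _ (hR.symm _ _ _ (hcon x)) (hcon y))
  have h8 := (hF g 0 y hy).1
  obtain ⟨u, h, hI, r1, r2, r3⟩ := plane hR h2 hQ hLM hF hy
  rw [zero_add] at r1 r2 r3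
  have key : ∀ p, R g 0 p ↔ p ∈ h3 g u h := by
    intro p
    constructor
    · intro hp
      by_contra hc
      rw [mem_h3 h2] at hc
      push Not at hc
      obtain ⟨⟨⟨m1, m2⟩, m3, m4⟩, ⟨m5, m6⟩, m7, m8⟩ := hc
      obtain ⟨n1, n2, n3, n4, n5, n6, n7⟩ := hI
      exact five hR h2 n1 h8 (hR.refl _ _) r1 r2 r3 hp
        ⟨ne_of_add h2 n2 (by simp only [add_comm, add_left_comm, add_assoc, h2, add_self_left h2, add_zero, zero_add]), ne_of_add h2 n4 (by simp only [add_comm, add_left_comm, add_assoc, h2, add_self_left h2, add_zero, zero_add])⟩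
        ⟨ne_of_add h2 n3 (by simp only [add_comm, add_left_comm, add_assoc, h2, add_self_left h2, add_zero, zero_add]), ne_of_add h2 n5 (by simp only [add_comm, add_left_comm, add_assoc, h2, add_self_left h2, add_zero, zero_add])⟩
        ⟨ne_of_add h2 n6 (by simp only [add_comm, add_left_comm, add_assoc, h2, add_self_left h2, add_zero, zero_add]), ne_of_add h2 n7 (by simp only [add_comm, add_left_comm, add_assoc, h2, add_self_left h2, add_zero, zero_add])⟩
        ⟨ne_of_add h2 m1 (by simp only [add_comm, add_left_comm, add_assoc, h2, add_self_left h2, add_zero, zero_add]), ne_of_add h2 m2 (by simp only [add_comm, add_left_comm, add_assoc, h2, add_self_left h2, add_zero, zero_add])⟩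
        ⟨ne_of_add h2 n6 (by simp only [add_comm, add_left_comm, add_assoc, h2, add_self_left h2, add_zero, zero_add]), ne_of_add h2 n7 (by simp only [add_comm, add_left_comm, add_assoc, h2, add_self_left h2, add_zero, zero_add])⟩
        ⟨ne_of_add h2 n3 (by simp only [add_comm, add_left_comm, add_assoc, h2, add_self_left h2, add_zero, zero_add]), ne_of_add h2 n5 (by simp only [add_comm, add_left_comm, add_assoc, h2, add_self_left h2, add_zero, zero_add])⟩
        ⟨ne_of_add h2 m3 (by simp only [add_comm, add_left_comm, add_assoc, h2, add_self_left h2, add_zero, zero_add]), ne_of_add h2 m4 (by simp only [add_comm, add_left_comm, add_assoc, h2, add_self_left h2, add_zero, zero_add])⟩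
        ⟨ne_of_add h2 n2 (by simp only [add_comm, add_left_comm, add_assoc, h2, add_self_left h2, add_zero, zero_add]), ne_of_add h2 n4 (by simp only [add_comm, add_left_comm, add_assoc, h2, add_self_left h2, add_zero, zero_add])⟩
        ⟨ne_of_add h2 m5 (by simp only [add_comm, add_left_comm, add_assoc, h2, add_self_left h2, add_zero, zero_add]), ne_of_add h2 m6 (by simp only [add_comm, add_left_comm, add_assoc, h2, add_self_left h2, add_zero, zero_add])⟩
        ⟨ne_of_add h2 m7 (by simp only [add_comm, add_left_comm, add_assoc, h2, add_self_left h2, add_zero, zero_add]), ne_of_add h2 m8 (by simp only [add_comm, add_left_comm, add_assoc, h2, add_self_left h2, add_zero, zero_add])⟩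
    · intro hp
      rw [mem_h3 h2] at hp
      rcases hp with ((h' | h') | (h' | h')) | ((h' | h') | (h' | h'))
      · rw [h']
        exact hR.refl _ _
      · rw [eq_of_add h2 h']
        have := hR.inv g 0
        rwa [zero_add] at this
      · rw [eq_of_add h2 h']
        exact r1
      · have e : u + g = p := eq_of_add h2 (by rw [← h']; simp only [add_comm, add_left_comm, add_assoc, h2, add_self_left h2, add_zero, zero_add])
        exact (rg_add' hR h2 e).2 r1
      · rw [eq_of_add h2 h']
        exact r2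
      · have e : h + g = p := eq_of_add h2 (by rw [← h']; simp only [add_comm, add_left_comm, add_assoc, h2, add_self_left h2, add_zero, zero_add])
        exact (rg_add' hR h2 e).2 r2
      · have e : p = u + h := eq_of_add h2 (by rw [← h']; simp only [add_comm, add_left_comm, add_assoc, h2, add_self_left h2, add_zero, zero_add])
        rw [e]
        exact r3
      · have e : u + h + g = p := eq_of_add h2 (by rw [← h']; simp only [add_comm, add_left_comm, add_assoc, h2, add_self_left h2, add_zero, zero_add])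
        exact (rg_add' hR h2 e).2 r3
  refine ⟨s3 h2 g u h, fun p q => ?_⟩
  rw [mem_s3]
  have cl := cl_h3 h2 g u h
  by_cases hp : p ∈ h3 g u h
  · have hp' := (key p).2 hp
    constructor
    · intro hpq
      exact cl.2 _ hp _ ((key q).1 (hR.trans _ _ _ _ hp' hpq))
    · intro hpq
      have h4 := cl.2 _ hp _ hpq
      rw [add_self_left h2] at h4
      exact hR.trans _ _ _ _ (hR.symm _ _ _ hp') ((key q).2 h4)
  · have hp' : ¬ R g 0 p := fun h' => hp ((key p).1 h')
    constructor
    · intro hpq
      have hq : q ∉ h3 g u h := fun h' =>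
        hp' (hR.trans _ _ _ _ ((key q).2 h') (hR.symm _ _ _ hpq))
      rcases mem_or_add_mem h2 hQ hI hp q with h4 | h4
      · exact absurd h4 hq
      · rwa [add_comm]
    · intro hpq
      have hq : q ∉ h3 g u h := by
        intro h'
        apply hp
        have h4 := cl.2 _ h' _ hpq
        have e : q + (p + q) = p := by simp only [add_comm, add_left_comm, add_assoc, h2, add_self_left h2, add_zero, zero_add]
        rwa [e] at h4
      rcases two_classes hR h2 hQ hF hp' q with h4 | h4
      · exact absurd ((key q).1 h4) hq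
      · exact h4

/-- the full case does not occur -/
theorem full_const (hR : Core R) (h2 : ∀ x : Q, x + x = 0) (hQ : Fintype.card Q = 16)
    (hLM : LM R ⊤) (hF : Full R) (g x y : Q) : R g x y := by
  classical
  by_contra hxy
  have hlin : ∀ g, ∃ N : AddSubgroup Q, (∃ x y, ¬ R g x y) → ∀ p q, R g p q ↔ p + q ∈ N := by
    intro g
    by_cases hg : ∃ x y, ¬ R g x y
    · obtain ⟨N, hN⟩ := linear hR h2 hQ hLM hF hg
      exact ⟨N, fun _ => hN⟩
    · exact ⟨⊤, fun h => absurd h hg⟩
  choose N hN using hlin
  refine lin_false hR h2 (Finset.univ.filter fun g => ∃ x y, ¬ R g x y)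
    ⟨g, Finset.mem_filter.2 ⟨Finset.mem_univ _, x, y, hxy⟩⟩ N
    (fun g hg => hN g (Finset.mem_filter.1 hg).2) (fun g hg => ?_)
  obtain ⟨-, x, y, hxy⟩ := Finset.mem_filter.1 hg
  obtain ⟨h, hh⟩ := (hF g x y hxy).2
  have hh' : ∃ x y, ¬ R h x y := ⟨x, x + g, hh⟩
  refine ⟨h, Finset.mem_filter.2 ⟨Finset.mem_univ _, hh'⟩, fun hmem => hh ?_⟩
  rw [hN h hh']
  rwa [add_self_left h2]

/-- The conclusion for groups of order 16. -/
theorem core_concl (hR : Core R) (h2 : ∀ x : Q, x + x = 0) (hQ : Fintype.card Q = 16)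
    (hLM : LM R ⊤) : (∀ g x y, R g x y) ∨
      ∃ g u h, I3 g u h ∧ ∀ k, k ∉ h3 g u h → ∀ p q, R k p q := by
  by_cases hF : Full R
  · exact Or.inl (full_const hR h2 hQ hLM hF)
  right
  unfold Full at hF
  push Not at hF
  obtain ⟨g, x, y, hxy, hfree⟩ := hF
  have hsum := cls_add_le (W := ⊤) hR h2 (AddSubgroup.mem_top (x + y)) hxy
  rw [card_top, hQ] at hsum
  have hyx : ¬ R g y x := fun h => hxy (hR.symm _ _ _ h)
  have hr : ∃ z g u h, Rods R z g u h ∧ cls R ⊤ g z < 8 := by
    rcases lt_trichotomy (cls R ⊤ g x) 8 with h | h | h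
    · by_cases h4 : cls R ⊤ g x ≤ cls R ⊤ g y
      · exact exists_rods hR h2 hLM hxy h4 h
      · exact exists_rods hR h2 hLM hyx (by omega) (by omega)
    · have h4 := hLM g (AddSubgroup.mem_top _) x y (AddSubgroup.mem_top _) hxy (hfree h)
      exact exists_rods hR h2 hLM hyx (by omega) (by omega)
    · exact exists_rods hR h2 hLM hyx (by omega) (by omega)
  obtain ⟨z, g, u, h, hr, hlt⟩ := hr
  exact ⟨g, u, h, rods_indep hR h2 hLM (AddSubgroup.mem_top _) hr,
    fun k hk p q => rods_const hR h2 hQ hLM hr hlt hk p q⟩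

end CTL
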