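import Pool.Agent.CTL.Core

/-!
# CTL / Lm: class sizes, local maxima, subgroups of order at most 8

`cls R W g x` is the number of elements of the class of `x` for `R g` in the coset `x + W`. `LM R W`: a
line `{x, x + g}` which is not blocked lies in a class which is larger than all the others (of the coset).
If `W` has at most 8 elements and `LM R W` then all columns are constant on the cosets of `W`.
-/

namespace CTL

open Finset

/-- Counting with lines. -/
theorem two_mul_length_le {Q : Type*} [AddCommGroup Q] (h2 : ∀ x : Q, x + x = 0) {g : Q}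
    (hg : g ≠ 0) (S : Finset Q) (hS : ∀ x ∈ S, x + g ∈ S) (l : List Q) (hl : ∀ x ∈ l, x ∈ S)
    (hp : l.Pairwise (fun a b => a ≠ b ∧ a ≠ b + g)) : 2 * l.length ≤ S.card := by
  classical
  have hnd : l.Nodup := hp.imp (fun h => h.1)
  have h1 : l.toFinset.card = l.length := List.toFinset_card_of_nodup hnd
  have h3 : (l.toFinset.image (· + g)).card = l.length := by
    rw [Finset.card_image_of_injective _ (add_left_injective g), h1]
  have hne : ∀ a ∈ l, ∀ b ∈ l, a ≠ b + g := by
    intro a ha b hb
    by_cases hab : a = b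
    · subst hab
      intro h
      exact hg (by simpa using h)
    · haveI hsym : Std.Symm (fun a b : Q => a ≠ b ∧ a ≠ b + g) := by
        refine ⟨fun a b h => ?_⟩
        refine ⟨h.1.symm, fun h4 => h.2 ?_⟩
        rw [h4, add_assoc, h2, add_zero]
      exact (hp.forall ha hb hab).2
  have hdis : Disjoint l.toFinset (l.toFinset.image (· + g)) := by
    rw [Finset.disjoint_left]
    intro a ha hb
    obtain ⟨b, hb', rfl⟩ := Finset.mem_image.1 hb
    exact hne _ (List.mem_toFinset.1 ha) b (List.mem_toFinset.1 hb') rfl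
  calc 2 * l.length = (l.toFinset ∪ l.toFinset.image (· + g)).card := by
        rw [Finset.card_union_of_disjoint hdis, h1, h3]
        ring
    _ ≤ S.card := by
        apply Finset.card_le_card
        intro a ha
        rcases Finset.mem_union.1 ha with h | h
        · exact hl a (List.mem_toFinset.1 h)
        · obtain ⟨b, hb, rfl⟩ := Finset.mem_image.1 h
          exact hS b (hl b (List.mem_toFinset.1 hb))

section

variable {Q : Type*} [AddCommGroup Q] [Fintype Q] {R : Q → Q → Q → Prop} {W : AddSubgroup Q}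

open Classical in
/-- the class of `x` in its coset -/
noncomputable def clsF (R : Q → Q → Q → Prop) (W : AddSubgroup Q) (g x : Q) : Finset Q :=
  Finset.univ.filter fun y => x + y ∈ W ∧ R g x y

/-- class sizes in the cosets of `W` -/
noncomputable def cls (R : Q → Q → Q → Prop) (W : AddSubgroup Q) (g x : Q) : ℕ :=
  (clsF R W g x).card

theorem mem_clsF {g x y : Q} : y ∈ clsF R W g x ↔ x + y ∈ W ∧ R g x y := by
  classical
  unfold clsF
  rw [Finset.mem_filter]
  exact ⟨fun h => h.2, fun h => ⟨Finset.mem_univ _, h⟩⟩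

/-- local maxima -/
def LM (R : Q → Q → Q → Prop) (W : AddSubgroup Q) : Prop :=
  ∀ g ∈ W, ∀ x y, x + y ∈ W → ¬ R g x y → (∀ h, R h x (x + g)) → cls R W g y < cls R W g x

/-- membership in cosets -/
theorem add_mem_trans (h2 : ∀ x : Q, x + x = 0) {x y z : Q} (h1 : x + y ∈ W)
    (h3 : y + z ∈ W) : x + z ∈ W := by
  have h4 := W.add_mem h1 h3
  have e : x + y + (y + z) = x + z := by simp only [add_comm, add_left_comm, add_assoc, h2, add_self_left h2, add_zero, zero_add]
  rwa [e] at h4

theorem clsF_congr (hR : Core R) (h2 : ∀ x : Q, x + x = 0) {g x y : Q} (hW : x + y ∈ W)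
    (h : R g x y) : clsF R W g x = clsF R W g y := by
  ext z
  rw [mem_clsF, mem_clsF]
  constructor
  · rintro ⟨h1, h3⟩
    rw [add_comm] at hW
    exact ⟨add_mem_trans h2 hW h1, (hR.congr_left h).1 h3⟩
  · rintro ⟨h1, h3⟩
    exact ⟨add_mem_trans h2 hW h1, (hR.congr_left h).2 h3⟩

theorem cls_congr (hR : Core R) (h2 : ∀ x : Q, x + x = 0) {g x y : Q} (hW : x + y ∈ W)
    (h : R g x y) : cls R W g x = cls R W g y := by
  unfold cls
  rw [clsF_congr hR h2 hW h]

/-- the classes are closed under the direction -/
theorem clsF_add (hR : Core R) {g x : Q} (hg : g ∈ W) :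
    ∀ y ∈ clsF R W g x, y + g ∈ clsF R W g x := by
  intro y hy
  rw [mem_clsF] at hy ⊢
  refine ⟨?_, hR.trans _ _ _ _ hy.2 (hR.inv g y)⟩
  rw [← add_assoc]
  exact W.add_mem hy.1 hg

theorem le_cls (hR : Core R) (h2 : ∀ x : Q, x + x = 0) {g x : Q} (hg : g ∈ W) (hg0 : g ≠ 0)
    (l : List Q) (hl : ∀ y ∈ l, x + y ∈ W ∧ R g x y)
    (hp : l.Pairwise (fun a b => a ≠ b ∧ a ≠ b + g)) : 2 * l.length ≤ cls R W g x :=
  two_mul_length_le h2 hg0 (clsF R W g x) (clsF_add hR hg) l
    (fun y hy => mem_clsF.2 (hl y hy)) hp

open Classical in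
/-- two classes fit in a coset -/
theorem cls_add_le (hR : Core R) (h2 : ∀ x : Q, x + x = 0) {g x y : Q} (hW : x + y ∈ W)
    (h : ¬ R g x y) : cls R W g x + cls R W g y ≤ (Finset.univ.filter (· ∈ W)).card := by
  have hdis : Disjoint (clsF R W g x) (clsF R W g y) := by
    rw [Finset.disjoint_left]
    intro z hz hz'
    rw [mem_clsF] at hz hz'
    exact h (hR.trans _ _ _ _ hz.2 (hR.symm _ _ _ hz'.2))
  unfold cls
  rw [← Finset.card_union_of_disjoint hdis]
  refine Finset.card_le_card_of_injOn (fun z => x + z) ?_ ?_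
  · intro z hz
    rw [Finset.mem_coe, Finset.mem_union, mem_clsF, mem_clsF] at hz
    rw [Finset.mem_coe, Finset.mem_filter]
    refine ⟨Finset.mem_univ _, ?_⟩
    rcases hz with hz | hz
    · exact hz.1
    · exact add_mem_trans h2 hW hz.1
  · intro a _ b _ hab
    exact add_left_cancel hab

/-- the columns of direction 0 -/
theorem LM.zero (hR : Core R) (h2 : ∀ x : Q, x + x = 0) (hLM : LM R W) {x y : Q}
    (hW : x + y ∈ W) : R 0 x y := by
  by_contra h
  have h1 := hLM 0 W.zero_mem x y hW h (fun h => by rw [add_zero]; exact hR.refl _ _)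
  have h3 := hLM 0 W.zero_mem y x (by rwa [add_comm]) (fun h' => h (hR.symm _ _ _ h'))
    (fun h => by rw [add_zero]; exact hR.refl _ _)
  omega

/-- independence of directions which block each other -/
theorem blk_indep (hR : Core R) (h2 : ∀ x : Q, x + x = 0) (hLM : LM R W) {x g u h : Q}
    (hu : u ∈ W) (h1 : R g x (x + u)) (hgu : ¬ R u x (x + g)) (hh : ¬ R h x (x + u)) :
    g ≠ 0 ∧ u ≠ 0 ∧ h ≠ 0 ∧ g + u ≠ 0 ∧ g + h ≠ 0 ∧ u + h ≠ 0 ∧ g + u + h ≠ 0 := by
  refine ⟨?_, ?_, ?_, ?_, ?_, ?_, ?_⟩
  · rintro rfl
    rw [add_zero] at hgu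
    exact hgu (hR.refl _ _)
  · rintro rfl
    rw [add_zero] at hh
    exact hh (hR.refl _ _)
  · rintro rfl
    apply hh
    apply hLM.zero hR h2
    rw [← add_assoc, h2, zero_add]
    exact hu
  · intro h3
    have h4 := eq_of_add h2 h3
    subst h4
    exact hgu (hR.inv g x)
  · intro h3
    have h4 := eq_of_add h2 h3
    subst h4
    exact hh h1
  · intro h3
    have h4 := eq_of_add h2 h3
    subst h4
    exact hh (hR.inv u x)
  · intro h3
    have h4 := eq_of_add h2 h3
    subst h4
    have h5 := hR.k2 h2 hh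
    apply hgu
    have h6 := hR.inv u (x + g)
    have e : x + g + u = x + (g + u) := by simp only [add_comm, add_left_comm, add_assoc, h2, add_self_left h2, add_zero, zero_add]
    rw [e] at h6
    exact hR.trans _ _ _ _ h5 (hR.symm _ _ _ h6)

/-- the third line of a class which is not larger than all the others -/
theorem third (hR : Core R) (h2 : ∀ x : Q, x + x = 0) (hLM : LM R W)
    (hout : ∀ h, h ∉ W → ∀ x y, R h x y) {g x y : Q} (hg : g ∈ W) (hW : x + y ∈ W)
    (hxy : ¬ R g x y) (hle : cls R W g x ≤ cls R W g y) :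
    ∃ x₀ u h, (x₀ = x ∨ x₀ = x + g) ∧ u ∈ W ∧ h ∈ W ∧ R g x₀ (x₀ + u) ∧
      ¬ R u x₀ (x₀ + g) ∧ ¬ R h x₀ (x₀ + u) := by
  have hb : ¬ ∀ h, R h x (x + g) := by
    intro h
    have := hLM g hg x y hW hxy h
    omega
  push Not at hb
  obtain ⟨u, hu⟩ := hb
  have huW : u ∈ W := by
    by_contra h
    exact hu (hout u h _ _)
  have h1 := hR.k2 h2 hu
  by_cases hb1 : ∀ h, R h x (x + u)
  · by_cases hb2 : ∀ h, R h (x + g) (x + g + u)
    · exfalso
      have e : x + (x + g) = g := add_self_left h2 x g
      have l1 := hLM u huW x (x + g) (by rw [e]; exact hg) hu hb1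
      have l2 := hLM u huW (x + g) x (by rw [add_comm, e]; exact hg)
        (fun h => hu (hR.symm _ _ _ h)) hb2
      omega
    · push Not at hb2
      obtain ⟨h, hh⟩ := hb2
      have e : x + g + g = x := by simp only [add_comm, add_left_comm, add_assoc, h2, add_self_left h2, add_zero, zero_add]
      refine ⟨x + g, u, h, Or.inr rfl, huW, ?_, ?_, ?_, hh⟩
      · by_contra h'
        exact hh (hout h h' _ _)
      · have h3 := hR.inv g x
        have h4 := hR.inv g (x + u)
        have e' : x + u + g = x + g + u := by simp only [add_comm, add_left_comm, add_assoc, h2, add_self_left h2, add_zero, zero_add]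
        rw [e'] at h4
        exact hR.trans _ _ _ _ (hR.symm _ _ _ h3) (hR.trans _ _ _ _ h1 h4)
      · rw [e]
        exact fun h' => hu (hR.symm _ _ _ h')
  · push Not at hb1
    obtain ⟨h, hh⟩ := hb1
    refine ⟨x, u, h, Or.inl rfl, huW, ?_, h1, hu, hh⟩
    by_contra h'
    exact hh (hout h h' _ _)

open Classical in
/-- Subgroups of order at most 8. -/
theorem const_of_card_le (hR : Core R) (h2 : ∀ x : Q, x + x = 0) (hLM : LM R W)
    (hout : ∀ h, h ∉ W → ∀ x y, R h x y) (hcard : (Finset.univ.filter (· ∈ W)).card ≤ 8)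
    {g x y : Q} (hg : g ∈ W) (hW : x + y ∈ W) : R g x y := by
  by_contra hxy
  wlog hle : cls R W g x ≤ cls R W g y generalizing x y with H
  · exact H (by rwa [add_comm]) (fun h => hxy (hR.symm _ _ _ h)) (by omega)
  obtain ⟨x₀, u, h, hx₀, hu, hh, h1, hgu, hhu⟩ := third hR h2 hLM hout hg hW hxy hle
  obtain ⟨n1, n2, n3, n4, n5, n6, n7⟩ := blk_indep hR h2 hLM hu h1 hgu hhu
  have hx₀W : x + x₀ ∈ W := by
    rcases hx₀ with rfl | rfl
    · rw [h2]
      exact W.zero_mem
    · rw [add_self_left h2]
      exact hg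
  have hx₀R : R g x x₀ := by
    rcases hx₀ with rfl | rfl
    · exact hR.refl _ _
    · exact hR.inv _ _
  have e1 : cls R W g x = cls R W g x₀ := cls_congr hR h2 hx₀W hx₀R
  have h6 : 6 ≤ cls R W g x₀ := by
    have hthird : R g x₀ (x₀ + h) ∨ R g x₀ (x₀ + u + h) := by
      rcases hR.ab h2 h1 hgu hhu with h3 | h3 | h3
      · exact Or.inl h3.1
      · exact Or.inl h3.1
      · exact Or.inr h3.1
    rcases hthird with h3 | h3
    · have := le_cls hR h2 hg n1 [x₀, x₀ + u, x₀ + h] (by
        intro z hz
        simp only [List.mem_cons, List.not_mem_nil, or_false] at hz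
        rcases hz with rfl | rfl | rfl
        · exact ⟨by rw [h2]; exact W.zero_mem, hR.refl _ _⟩
        · exact ⟨by rw [add_self_left h2]; exact hu, h1⟩
        · exact ⟨by rw [add_self_left h2]; exact hh, h3⟩) (by
        simp only [List.pairwise_cons, List.mem_cons, List.not_mem_nil, or_false,
          forall_eq_or_imp, forall_eq, List.Pairwise.nil, and_true, IsEmpty.forall_iff,
          implies_true]
        refine ⟨⟨⟨?_, ?_⟩, ?_, ?_⟩, ?_, ?_⟩
        · exact ne_of_add h2 n2 (by simp only [add_comm, add_left_comm, add_assoc, h2, add_self_left h2, add_zero, zero_add])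
        · exact ne_of_add h2 n4 (by simp only [add_comm, add_left_comm, add_assoc, h2, add_self_left h2, add_zero, zero_add])
        · exact ne_of_add h2 n3 (by simp only [add_comm, add_left_comm, add_assoc, h2, add_self_left h2, add_zero, zero_add])
        · exact ne_of_add h2 n5 (by simp only [add_comm, add_left_comm, add_assoc, h2, add_self_left h2, add_zero, zero_add])
        · exact ne_of_add h2 n6 (by simp only [add_comm, add_left_comm, add_assoc, h2, add_self_left h2, add_zero, zero_add])
        · exact ne_of_add h2 n7 (by simp only [add_comm, add_left_comm, add_assoc, h2, add_self_left h2, add_zero, zero_add]))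
      simpa using this
    · have := le_cls hR h2 hg n1 [x₀, x₀ + u, x₀ + u + h] (by
        intro z hz
        simp only [List.mem_cons, List.not_mem_nil, or_false] at hz
        rcases hz with rfl | rfl | rfl
        · exact ⟨by rw [h2]; exact W.zero_mem, hR.refl _ _⟩
        · exact ⟨by rw [add_self_left h2]; exact hu, h1⟩
        · exact ⟨by rw [add_assoc, add_self_left h2]; exact W.add_mem hu hh, h3⟩) (by
        simp only [List.pairwise_cons, List.mem_cons, List.not_mem_nil, or_false,
          forall_eq_or_imp, forall_eq, List.Pairwise.nil, and_true, IsEmpty.forall_iff,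
          implies_true]
        refine ⟨⟨⟨?_, ?_⟩, ?_, ?_⟩, ?_, ?_⟩
        · exact ne_of_add h2 n2 (by simp only [add_comm, add_left_comm, add_assoc, h2, add_self_left h2, add_zero, zero_add])
        · exact ne_of_add h2 n4 (by simp only [add_comm, add_left_comm, add_assoc, h2, add_self_left h2, add_zero, zero_add])
        · exact ne_of_add h2 n6 (by simp only [add_comm, add_left_comm, add_assoc, h2, add_self_left h2, add_zero, zero_add])
        · exact ne_of_add h2 n7 (by simp only [add_comm, add_left_comm, add_assoc, h2, add_self_left h2, add_zero, zero_add])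
        · exact ne_of_add h2 n3 (by simp only [add_comm, add_left_comm, add_assoc, h2, add_self_left h2, add_zero, zero_add])
        · exact ne_of_add h2 n5 (by simp only [add_comm, add_left_comm, add_assoc, h2, add_self_left h2, add_zero, zero_add]))
      simpa using this
  have h7 := cls_add_le hR h2 hW hxy
  omega

end

end CTL
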