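import Pool.Agent.CTL.Sys

/-!
# CTL / Pot: the merged relation, the potential, local maxima
-/

namespace CTL

open Finset

variable {I Q L : Type*} [AddCommGroup Q]

/-- the columns of direction `g` agree at `x` and `y` -/
def Rel (e : I → Q) (c : I → Q → L) (g x y : Q) : Prop := ∀ i, e i = g → c i x = c i y

theorem IsSys.core (h2 : ∀ x : Q, x + x = 0) {e : I → Q} {c : I → Q → L} (hs : IsSys e c) :
    Core (Rel e c) := by
  classical
  refine ⟨fun g x i _ => rfl, fun g x y h i hi => (h i hi).symm,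
    fun g x y z h h' i hi => (h i hi).trans (h' i hi), fun g x i hi => ?_, fun T hT x => ?_⟩
  · rw [← hi]
    exact (hs.inv i x).symm
  · by_contra hcon
    push Not at hcon
    have hex : ∀ g : T, ∃ i, e i = g ∧ c i x ≠ c i (x + ∑ γ ∈ T, γ) := by
      intro g
      have h := hcon g.1 g.2
      unfold Rel at h
      push Not at h
      obtain ⟨i, h1, h3⟩ := h
      exact ⟨i, h1, h3⟩
    choose f hf1 hf2 using hex
    have hinj : Function.Injective f := by
      intro a b hab
      apply Subtype.ext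
      rw [← hf1 a, ← hf1 b, hab]
    have hsum : ∑ i ∈ T.attach.image f, e i = ∑ γ ∈ T, γ := by
      rw [Finset.sum_image (fun a _ b _ h => hinj h), ← Finset.sum_attach T]
      exact Finset.sum_congr rfl fun a _ => hf1 a
    obtain ⟨i, hi, hi2⟩ := hs.key (T.attach.image f) (by rw [hsum]; exact hT) x
    obtain ⟨a, -, rfl⟩ := Finset.mem_image.1 hi
    rw [hsum] at hi2
    exact hf2 a hi2

variable [Fintype Q]

open Classical in
/-- agreeing pairs in the cosets of `W` -/
noncomputable def prs (R : Q → Q → Q → Prop) (W : AddSubgroup Q) (g : Q) : Finset (Q × Q) :=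
  Finset.univ.filter fun p => p.1 + p.2 ∈ W ∧ R g p.1 p.2

theorem mem_prs {R : Q → Q → Q → Prop} {W : AddSubgroup Q} {g : Q} {p : Q × Q} :
    p ∈ prs R W g ↔ p.1 + p.2 ∈ W ∧ R g p.1 p.2 := by
  classical
  unfold prs
  rw [Finset.mem_filter]
  exact ⟨fun h => h.2, fun h => ⟨Finset.mem_univ _, h⟩⟩

open Classical in
/-- the potential -/
noncomputable def pot (e : I → Q) (W : AddSubgroup Q) (c : I → Q → L) : ℕ :=
  ∑ g ∈ Finset.univ.filter (· ∈ W), (prs (Rel e c) W g).card

theorem pot_le (e : I → Q) (W : AddSubgroup Q) (c : I → Q → L) :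
    pot e W c ≤ Fintype.card Q * (Fintype.card Q * Fintype.card Q) := by
  classical
  unfold pot
  calc ∑ g ∈ Finset.univ.filter (· ∈ W), (prs (Rel e c) W g).card
      ≤ ∑ g ∈ Finset.univ.filter (· ∈ W), Fintype.card Q * Fintype.card Q :=
        Finset.sum_le_sum fun g _ => by
          rw [← Fintype.card_prod]
          exact Finset.card_le_univ _
    _ ≤ Fintype.card Q * (Fintype.card Q * Fintype.card Q) := by
        rw [Finset.sum_const, smul_eq_mul]
        exact Nat.mul_le_mul_right _ (Finset.card_le_univ _)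

/-- a maximum of the potential in a component -/
theorem exists_max (e : I → Q) (W : AddSubgroup Q) (c : I → Q → L) :
    ∃ c', Conn e W c c' ∧ ∀ c'', Conn e W c' c'' → pot e W c'' ≤ pot e W c' := by
  obtain ⟨n, hn⟩ : ∃ n, Fintype.card Q * (Fintype.card Q * Fintype.card Q) - pot e W c = n :=
    ⟨_, rfl⟩
  induction n using Nat.strong_induction_on generalizing c with
  | _ n ih =>
    by_cases h : ∀ c'', Conn e W c c'' → pot e W c'' ≤ pot e W c
    · exact ⟨c, Relation.ReflTransGen.refl, h⟩
    · push Not at h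
      obtain ⟨c₁, h1, h3⟩ := h
      have h4 := pot_le e W c₁
      obtain ⟨c', h5, h6⟩ := ih _ (by omega) c₁ rfl
      exact ⟨c', Relation.ReflTransGen.trans h1 h5, h6⟩

theorem card_lt_of_sdiff {α : Type*} [DecidableEq α] {S S' : Finset α}
    (h : (S \ S').card < (S' \ S).card) : S.card < S'.card := by
  have h1 := Finset.card_sdiff_add_card_inter S S'
  have h3 := Finset.card_sdiff_add_card_inter S' S
  rw [Finset.inter_comm] at h3
  omega

/-- moving a line into a class which is at least as large -/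
theorem prs_lt (h2 : ∀ x : Q, x + x = 0) {R R' : Q → Q → Q → Prop} (hR : Core R)
    {W : AddSubgroup Q} {g x y : Q} (hg : g ∈ W) (hW : x + y ∈ W) (hxy : ¬ R g x y)
    (hle : cls R W g x ≤ cls R W g y)
    (h1 : ∀ p q, ¬ (p = x ∨ p + g = x) → ¬ (q = x ∨ q + g = x) → (R' g p q ↔ R g p q))
    (h3 : ∀ p q, (p = x ∨ p + g = x) → (q = x ∨ q + g = x) → R' g p q)
    (h4 : ∀ p q, (p = x ∨ p + g = x) → R g y q → R' g p q ∧ R' g q p) :
    (prs R W g).card < (prs R' W g).card := by
  classical
  apply card_lt_of_sdiff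
  have hLn : ∀ {p}, (p = x ∨ p + g = x) → x + p ∈ W ∧ R g x p := by
    rintro p (rfl | h)
    · exact ⟨by rw [h2]; exact W.zero_mem, hR.refl _ _⟩
    · rw [← h]
      refine ⟨?_, hR.symm _ _ _ (hR.inv g p)⟩
      have e : p + g + p = g := by simp only [add_comm, add_left_comm, add_assoc, h2, add_self_left h2, add_zero, zero_add]
      rw [e]
      exact hg
  let Ln : Finset Q := Finset.univ.filter fun p => p = x ∨ p + g = x
  have mLn : ∀ p, p ∈ Ln ↔ (p = x ∨ p + g = x) := fun p => by
    simp only [Ln, Finset.mem_filter, Finset.mem_univ, true_and]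
  have hLnA : Ln ⊆ clsF R W g x := by
    intro p hp
    rw [mem_clsF]
    exact hLn ((mLn p).1 hp)
  have hdis : Disjoint Ln (clsF R W g y) := by
    rw [Finset.disjoint_left]
    intro p hp hp'
    rw [mem_clsF] at hp'
    exact hxy (hR.trans _ _ _ _ (hLn ((mLn p).1 hp)).2 (hR.symm _ _ _ hp'.2))
  have hm : 0 < Ln.card := Finset.card_pos.2 ⟨x, (mLn x).2 (Or.inl rfl)⟩
  have hup : (prs R W g \ prs R' W g).card ≤
      Ln.card * (clsF R W g x \ Ln).card + (clsF R W g x \ Ln).card * Ln.card := by
    rw [← Finset.card_product, ← Finset.card_product]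
    refine (Finset.card_le_card ?_).trans (Finset.card_union_le _ _)
    rintro ⟨p, q⟩ hpq
    rw [Finset.mem_sdiff, mem_prs, mem_prs] at hpq
    obtain ⟨⟨hw, hr⟩, hn⟩ := hpq
    have hr' : ¬ R' g p q := fun h => hn ⟨hw, h⟩
    simp only at hw hr
    rw [Finset.mem_union, Finset.mem_product, Finset.mem_product]
    by_cases hp : p = x ∨ p + g = x
    · left
      refine ⟨(mLn p).2 hp, ?_⟩
      rw [Finset.mem_sdiff, mem_clsF]
      refine ⟨⟨add_mem_trans h2 (hLn hp).1 hw, hR.trans _ _ _ _ (hLn hp).2 hr⟩, ?_⟩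
      intro hq
      exact hr' (h3 p q hp ((mLn q).1 hq))
    · right
      have hq : q = x ∨ q + g = x := by
        by_contra hq
        exact hr' ((h1 p q hp hq).2 hr)
      refine ⟨?_, (mLn q).2 hq⟩
      rw [Finset.mem_sdiff, mem_clsF]
      refine ⟨⟨add_mem_trans h2 (hLn hq).1 (by rwa [add_comm]),
        hR.trans _ _ _ _ (hLn hq).2 (hR.symm _ _ _ hr)⟩, ?_⟩
      intro h
      exact hp ((mLn p).1 h)
  have hlow : Ln.card * (clsF R W g y).card + (clsF R W g y).card * Ln.card ≤
      (prs R' W g \ prs R W g).card := by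
    rw [← Finset.card_product, ← Finset.card_product]
    have hd : Disjoint (Ln ×ˢ clsF R W g y) (clsF R W g y ×ˢ Ln) := by
      rw [Finset.disjoint_left]
      rintro ⟨p, q⟩ h h'
      rw [Finset.mem_product] at h h'
      exact Finset.disjoint_left.1 hdis h.1 h'.1
    rw [← Finset.card_union_of_disjoint hd]
    apply Finset.card_le_card
    have hyW : ∀ {p q}, (p = x ∨ p + g = x) → y + q ∈ W → p + q ∈ W := by
      intro p q hp hq
      have e1 : x + q ∈ W := add_mem_trans h2 hW hq
      exact add_mem_trans h2 (by rw [add_comm]; exact (hLn hp).1) e1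
    have hnR : ∀ {p q}, (p = x ∨ p + g = x) → R g y q → ¬ R g p q := by
      intro p q hp hq h
      exact hxy (hR.trans _ _ _ _ (hLn hp).2 (hR.trans _ _ _ _ h (hR.symm _ _ _ hq)))
    rintro ⟨p, q⟩ h
    rw [Finset.mem_sdiff, mem_prs, mem_prs]
    simp only
    rcases Finset.mem_union.1 h with h | h
    · rw [Finset.mem_product, mLn, mem_clsF] at h
      obtain ⟨hp, hq1, hq2⟩ := h
      exact ⟨⟨hyW hp hq1, (h4 p q hp hq2).1⟩, fun h' => hnR hp hq2 h'.2⟩
    · rw [Finset.mem_product, mLn, mem_clsF] at h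
      obtain ⟨⟨hq1, hq2⟩, hp⟩ := h
      refine ⟨⟨by rw [add_comm]; exact hyW hp hq1, (h4 q p hp hq2).2⟩,
        fun h' => hnR hp hq2 (hR.symm _ _ _ h'.2)⟩
  have hA : (clsF R W g x \ Ln).card < (clsF R W g x).card := by
    rw [Finset.card_sdiff_of_subset hLnA]
    have := Finset.card_le_card hLnA
    omega
  have hlt : (clsF R W g x \ Ln).card < (clsF R W g y).card := lt_of_lt_of_le hA hle
  have hmul := Nat.mul_lt_mul_of_pos_left hlt hm
  have e1 := Nat.mul_comm (clsF R W g x \ Ln).card Ln.card
  have e2 := Nat.mul_comm (clsF R W g y).card Ln.card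
  omega

/-- maxima of the potential are local maxima -/
theorem lm_of_max (h2 : ∀ x : Q, x + x = 0) [Finite I] {e : I → Q} {W : AddSubgroup Q}
    {c : I → Q → L} (hs : IsSys e c) (hmax : ∀ c'', Conn e W c c'' → pot e W c'' ≤ pot e W c) :
    LM (Rel e c) W := by
  classical
  haveI := Fintype.ofFinite I
  intro g hg x y hW hxy hfree
  by_contra hcon
  push Not at hcon
  have hR := hs.core h2
  have hfr : ∀ j, c j x = c j (x + g) := fun j => hfree (e j) j rfl
  let J : Finset I := Finset.univ.filter fun j => e j = g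
  have hJ : ∀ j, j ∈ J ↔ e j = g := fun j => by
    simp only [J, Finset.mem_filter, Finset.mem_univ, true_and]
  have hmg := merge (W := W) h2 (e := e) hg hfr (fun j => c j y) J (fun j hj => (hJ j).1 hj)
  refine absurd (hmax _ hmg) (not_le.2 ?_)
  set c' : I → Q → L := fun j z => if j ∈ J ∧ (z = x ∨ z + g = x) then c j y else c j z with hc'
  have c1 : ∀ j z, ¬ (z = x ∨ z + g = x) → c' j z = c j z := fun j z h => by
    rw [hc']
    exact if_neg fun h' => h h'.2
  have c2' : ∀ j z, e j = g → (z = x ∨ z + g = x) → c' j z = c j y := fun j z h h' => by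
    rw [hc']
    exact if_pos ⟨(hJ j).2 h, h'⟩
  have c3 : ∀ j z, e j ≠ g → c' j z = c j z := fun j z h => by
    rw [hc']
    exact if_neg fun h' => h ((hJ j).1 h'.1)
  have hlt : (prs (Rel e c) W g).card < (prs (Rel e c') W g).card := by
    refine prs_lt h2 hR hg hW hxy hcon ?_ ?_ ?_
    · intro p q hp hq
      unfold Rel
      constructor
      · intro h i hi
        have := h i hi
        rwa [c1 _ _ hp, c1 _ _ hq] at this
      · intro h i hi
        rw [c1 _ _ hp, c1 _ _ hq]
        exact h i hi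
    · intro p q hp hq i hi
      rw [c2' i p hi hp, c2' i q hi hq]
    · intro p q hp hq
      have hq' : ¬ (q = x ∨ q + g = x) := by
        rintro (rfl | h)
        · exact hxy (hR.symm _ _ _ hq)
        · rw [← h] at hxy
          exact hxy (hR.trans _ _ _ _ (hR.symm _ _ _ (hR.inv g q)) (hR.symm _ _ _ hq))
      refine ⟨fun i hi => ?_, fun i hi => ?_⟩
      · rw [c2' i p hi hp, c1 _ _ hq']
        exact hq i hi
      · rw [c2' i p hi hp, c1 _ _ hq']
        exact (hq i hi).symm
  unfold pot
  refine Finset.sum_lt_sum (fun h _ => ?_) ⟨g, by simpa using hg, hlt⟩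
  by_cases hh : h = g
  · rw [hh]
    exact hlt.le
  · apply le_of_eq
    congr 1
    ext p
    rw [mem_prs, mem_prs]
    have : Rel e c h p.1 p.2 ↔ Rel e c' h p.1 p.2 := by
      unfold Rel
      constructor
      · intro h' i hi
        rw [c3 i _ (by rw [hi]; exact hh), c3 i _ (by rw [hi]; exact hh)]
        exact h' i hi
      · intro h' i hi
        have := h' i hi
        rwa [c3 i _ (by rw [hi]; exact hh), c3 i _ (by rw [hi]; exact hh)] at this
    rw [this]

end CTL
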