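import Pool.Agent.CTL.Four4

/-!
# CTL / Sys: systems of columns, moves
-/

namespace CTL

open Finset

variable {I Q L : Type*} [AddCommGroup Q]

/-- Systems of columns: `c i` is the column of direction `e i`. -/
structure IsSys (e : I → Q) (c : I → Q → L) : Prop where
  inv : ∀ i x, c i (x + e i) = c i x
  key : ∀ (T : Finset I), ∑ i ∈ T, e i ≠ 0 → ∀ x, ∃ i ∈ T, c i x = c i (x + ∑ i ∈ T, e i)

open Classical in
/-- recolouring the column `i` on the lines through `X` -/
noncomputable def rcl (e : I → Q) (c : I → Q → L) (i : I) (X : Set Q) (l : L) : I → Q → L :=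
  fun j y => if j = i ∧ (y ∈ X ∨ y + e i ∈ X) then l else c j y

theorem rcl_ne {e : I → Q} {c : I → Q → L} {i : I} {X : Set Q} {l : L} {j : I} (h : j ≠ i)
    (y : Q) : rcl e c i X l j y = c j y := by
  unfold rcl
  rw [if_neg fun h' => h h'.1]

theorem rcl_mem {e : I → Q} {c : I → Q → L} {i : I} {X : Set Q} {l : L} {y : Q}
    (h : y ∈ X ∨ y + e i ∈ X) : rcl e c i X l i y = l := by
  unfold rcl
  rw [if_pos ⟨rfl, h⟩]

theorem rcl_not {e : I → Q} {c : I → Q → L} {i : I} {X : Set Q} {l : L} {y : Q}
    (h : ¬ (y ∈ X ∨ y + e i ∈ X)) (j : I) : rcl e c i X l j y = c j y := by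
  unfold rcl
  rw [if_neg fun h' => h h'.2]

/-- a move: the column `i` is recoloured on a line `{x, x + e i}` on which all the other columns
are constant -/
def Mv (e : I → Q) (W : AddSubgroup Q) (c c' : I → Q → L) : Prop :=
  ∃ i x l, e i ∈ W ∧ (∀ j, j ≠ i → c j x = c j (x + e i)) ∧ c' = rcl e c i {x} l

/-- sequences of moves -/
def Conn (e : I → Q) (W : AddSubgroup Q) : (I → Q → L) → (I → Q → L) → Prop :=
  Relation.ReflTransGen (Mv e W)

theorem ln_add (h2 : ∀ x : Q, x + x = 0) {x y g : Q} :
    (y + g ∈ ({x} : Set Q) ∨ y + g + g ∈ ({x} : Set Q)) ↔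
      (y ∈ ({x} : Set Q) ∨ y + g ∈ ({x} : Set Q)) := by
  have e : y + g + g = y := by simp only [add_comm, add_left_comm, add_assoc, h2, add_self_left h2, add_zero, zero_add]
  rw [e]
  exact or_comm

theorem Mv.isSys (h2 : ∀ x : Q, x + x = 0) {e : I → Q} {W : AddSubgroup Q} {c c' : I → Q → L}
    (hs : IsSys e c) (hm : Mv e W c c') : IsSys e c' := by
  classical
  obtain ⟨i, x, l, -, hfree, rfl⟩ := hm
  have hfree' : ∀ y, (y ∈ ({x} : Set Q) ∨ y + e i ∈ ({x} : Set Q)) →
      ∀ j, j ≠ i → c j y = c j (y + e i) := by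
    rintro y (h | h) j hj
    · rw [Set.mem_singleton_iff.1 h]
      exact hfree j hj
    · have h1 : y = x + e i := by
        rw [← Set.mem_singleton_iff.1 h]
        simp only [add_comm, add_left_comm, add_assoc, h2, add_self_left h2, add_zero, zero_add]
      have h3 : y + e i = x := Set.mem_singleton_iff.1 h
      rw [h3, h1]
      exact (hfree j hj).symm
  refine ⟨fun j y => ?_, fun T hT y => ?_⟩
  · by_cases hj : j = i
    · subst hj
      by_cases h : y ∈ ({x} : Set Q) ∨ y + e j ∈ ({x} : Set Q)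
      · rw [rcl_mem h, rcl_mem ((ln_add h2).2 h)]
      · rw [rcl_not h, rcl_not (fun h' => h ((ln_add h2).1 h'))]
        exact hs.inv j y
    · rw [rcl_ne hj, rcl_ne hj]
      exact hs.inv j y
  · by_cases hiT : i ∈ T
    · have hsum : ∑ j ∈ T, e j = e i + ∑ j ∈ T.erase i, e j := (Finset.add_sum_erase T e hiT).symm
      have hne : ∀ z, ((z ∈ ({x} : Set Q) ∨ z + e i ∈ ({x} : Set Q)) ↔
          ¬ (z + ∑ j ∈ T, e j ∈ ({x} : Set Q) ∨ z + ∑ j ∈ T, e j + e i ∈ ({x} : Set Q))) →
          ∑ j ∈ T.erase i, e j ≠ 0 := by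
        intro z hz h0
        rw [hsum, h0, add_zero, ln_add h2] at hz
        tauto
      by_cases h1 : y ∈ ({x} : Set Q) ∨ y + e i ∈ ({x} : Set Q)
      · by_cases h3 : y + ∑ j ∈ T, e j ∈ ({x} : Set Q) ∨ y + ∑ j ∈ T, e j + e i ∈ ({x} : Set Q)
        · exact ⟨i, hiT, by rw [rcl_mem h1, rcl_mem h3]⟩
        · obtain ⟨j, hj, hj2⟩ := hs.key (T.erase i) (hne y (by tauto)) (y + e i)
          have hji := Finset.ne_of_mem_erase hj
          refine ⟨j, Finset.mem_of_mem_erase hj, ?_⟩
          rw [rcl_ne hji, rcl_ne hji, hfree' y h1 j hji, hj2, hsum, ← add_assoc]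
      · by_cases h3 : y + ∑ j ∈ T, e j ∈ ({x} : Set Q) ∨ y + ∑ j ∈ T, e j + e i ∈ ({x} : Set Q)
        · obtain ⟨j, hj, hj2⟩ := hs.key (T.erase i) (hne y (by tauto)) y
          have hji := Finset.ne_of_mem_erase hj
          refine ⟨j, Finset.mem_of_mem_erase hj, ?_⟩
          rw [rcl_ne hji, rcl_ne hji, hfree' _ h3 j hji, hj2]
          congr 1
          rw [hsum]
          simp only [add_comm, add_left_comm, add_assoc, h2, add_self_left h2, add_zero, zero_add]
        · obtain ⟨j, hj, hj2⟩ := hs.key T hT y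
          exact ⟨j, hj, by rw [rcl_not h1, rcl_not h3, hj2]⟩
    · obtain ⟨j, hj, hj2⟩ := hs.key T hT y
      have hji : j ≠ i := by
        rintro rfl
        exact hiT hj
      exact ⟨j, hj, by rw [rcl_ne hji, rcl_ne hji, hj2]⟩

theorem Mv.symm {e : I → Q} {W : AddSubgroup Q} {c c' : I → Q → L}
    (hs : IsSys e c) (hm : Mv e W c c') : Mv e W c' c := by
  obtain ⟨i, x, l, hW, hfree, rfl⟩ := hm
  refine ⟨i, x, c i x, hW, fun j hj => ?_, ?_⟩
  · rw [rcl_ne hj, rcl_ne hj]
    exact hfree j hj
  · funext j y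
    by_cases hj : j = i
    · subst hj
      by_cases h : y ∈ ({x} : Set Q) ∨ y + e j ∈ ({x} : Set Q)
      · rw [rcl_mem h]
        rcases h with h | h
        · rw [Set.mem_singleton_iff.1 h]
        · rw [← Set.mem_singleton_iff.1 h]
          exact (hs.inv j y).symm
      · rw [rcl_not h, rcl_not h]
    · rw [rcl_ne hj, rcl_ne hj]

theorem Conn.isSys (h2 : ∀ x : Q, x + x = 0) {e : I → Q} {W : AddSubgroup Q}
    {c c' : I → Q → L} (hs : IsSys e c) (hc : Conn e W c c') : IsSys e c' := by
  induction hc with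
  | refl => exact hs
  | tail _ h ih => exact h.isSys h2 ih

theorem Conn.symm (h2 : ∀ x : Q, x + x = 0) {e : I → Q} {W : AddSubgroup Q}
    {c c' : I → Q → L} (hs : IsSys e c) (hc : Conn e W c c') : Conn e W c' c := by
  induction hc with
  | refl => exact Relation.ReflTransGen.refl
  | tail h1 h ih => exact Relation.ReflTransGen.head (h.symm (Conn.isSys h2 hs h1)) ih

theorem Conn.mono {e : I → Q} {W W' : AddSubgroup Q} (hW : W ≤ W') {c c' : I → Q → L}
    (hc : Conn e W c c') : Conn e W' c c' := by
  induction hc with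
  | refl => exact Relation.ReflTransGen.refl
  | tail _ h ih =>
    obtain ⟨i, x, l, h1, h3, h4⟩ := h
    exact Relation.ReflTransGen.tail ih ⟨i, x, l, hW h1, h3, h4⟩

/-- recolouring many lines of one column -/
theorem fill_set {e : I → Q} {W : AddSubgroup Q} {c : I → Q → L} {i : I} (hi : e i ∈ W) (l : L)
    (X : Finset Q) (hX : ∀ x ∈ X, ∀ j, j ≠ i → c j x = c j (x + e i)) :
    Conn e W c (rcl e c i (X : Set Q) l) := by
  classical
  induction X using Finset.induction_on with
  | empty =>
    have e1 : rcl e c i ((∅ : Finset Q) : Set Q) l = c := by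
      funext j y
      exact rcl_not (by simp) j
    rw [e1]
    exact Relation.ReflTransGen.refl
  | insert x X _ ih =>
    refine Relation.ReflTransGen.tail (ih fun x' hx' => hX x' (Finset.mem_insert_of_mem hx')) ?_
    refine ⟨i, x, l, hi, fun j hj => ?_, ?_⟩
    · rw [rcl_ne hj, rcl_ne hj]
      exact hX x (Finset.mem_insert_self _ _) j hj
    · funext j y
      by_cases hj : j = i
      · subst hj
        by_cases h : y ∈ ({x} : Set Q) ∨ y + e j ∈ ({x} : Set Q)
        · rw [rcl_mem h]
          apply rcl_mem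
          rw [Finset.coe_insert]
          rcases h with h | h
          · exact Or.inl (Set.mem_insert_iff.2 (Or.inl h))
          · exact Or.inr (Set.mem_insert_iff.2 (Or.inl h))
        · rw [rcl_not h]
          by_cases h' : y ∈ (X : Set Q) ∨ y + e j ∈ (X : Set Q)
          · rw [rcl_mem h']
            apply rcl_mem
            rw [Finset.coe_insert]
            rcases h' with h' | h'
            · exact Or.inl (Set.mem_insert_of_mem _ h')
            · exact Or.inr (Set.mem_insert_of_mem _ h')
          · rw [rcl_not h']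
            apply rcl_not
            rw [Finset.coe_insert]
            rintro (h3 | h3)
            · rcases Set.mem_insert_iff.1 h3 with h3 | h3
              · exact h (Or.inl h3)
              · exact h' (Or.inl h3)
            · rcases Set.mem_insert_iff.1 h3 with h3 | h3
              · exact h (Or.inr h3)
              · exact h' (Or.inr h3)
      · rw [rcl_ne hj, rcl_ne hj, rcl_ne hj]

/-- making a column constant -/
theorem fill [Fintype Q] {e : I → Q} {W : AddSubgroup Q} {c : I → Q → L} {i : I} (hi : e i ∈ W)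
    (l : L) (hX : ∀ x, ∀ j, j ≠ i → c j x = c j (x + e i)) :
    ∃ c', Conn e W c c' ∧ (∀ x, c' i x = l) ∧ ∀ j, j ≠ i → c' j = c j := by
  refine ⟨_, fill_set hi l Finset.univ fun x _ => hX x, fun x => rcl_mem (by simp), fun j hj => ?_⟩
  funext y
  exact rcl_ne hj y

/-- recolouring all columns of direction `g` on one line -/
theorem merge (h2 : ∀ x : Q, x + x = 0) {e : I → Q} {W : AddSubgroup Q} {c : I → Q → L}
    {g x : Q} (hg : g ∈ W) (hfree : ∀ j, c j x = c j (x + g)) (t : I → L) [DecidableEq I]
    [DecidableEq Q] (J : Finset I) (hJ : ∀ j ∈ J, e j = g) :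
    Conn e W c (fun j y => if j ∈ J ∧ (y = x ∨ y + g = x) then t j else c j y) := by
  induction J using Finset.induction_on with
  | empty =>
    have e1 : (fun j y => if j ∈ (∅ : Finset I) ∧ (y = x ∨ y + g = x) then t j else c j y) =
        c := by
      funext j y
      rw [if_neg (by simp)]
    rw [e1]
    exact Relation.ReflTransGen.refl
  | insert i J hi ih =>
    refine Relation.ReflTransGen.tail (ih fun j hj => hJ j (Finset.mem_insert_of_mem hj)) ?_
    have hei := hJ i (Finset.mem_insert_self _ _)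
    refine ⟨i, x, t i, by rw [hei]; exact hg, fun j hj => ?_, ?_⟩
    · rw [hei]
      beta_reduce
      have l1 : x = x ∨ x + g = x := Or.inl rfl
      have l2 : x + g = x ∨ x + g + g = x := Or.inr (by simp only [add_comm, add_left_comm, add_assoc, h2, add_self_left h2, add_zero, zero_add])
      by_cases hjJ : j ∈ J
      · rw [if_pos ⟨hjJ, l1⟩, if_pos ⟨hjJ, l2⟩]
      · rw [if_neg fun h' => hjJ h'.1, if_neg fun h' => hjJ h'.1]
        exact hfree j
    · funext j y
      by_cases hj : j = i
      · subst hj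
        by_cases h : y = x ∨ y + g = x
        · rw [rcl_mem (by rw [hei]; simpa using h)]
          rw [if_pos ⟨Finset.mem_insert_self _ _, h⟩]
        · rw [rcl_not (by rw [hei]; simpa using h)]
          rw [if_neg fun h' => h h'.2, if_neg fun h' => h h'.2]
      · rw [rcl_ne hj]
        have e2 : j ∈ insert i J ↔ j ∈ J := by simp [hj]
        simp only [e2]

end CTL
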