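import Pool.Agent.CTL.Dbl

/-!
# CTL / Three: classes with at most three lines

`|Q| = 16`, `LM R ⊤`, a class with at most 7 elements which is not larger than all the others. Then there is
a subgroup `⟨g, u, h⟩` of order 8 such that all columns outside of it are constant.
-/

namespace CTL

open Finset

variable {Q : Type*} [AddCommGroup Q] [Fintype Q] {R : Q → Q → Q → Prop}

theorem rods_indep (hR : Core R) (h2 : ∀ x : Q, x + x = 0) {W : AddSubgroup Q} (hLM : LM R W)
    {z g u h : Q} (hu : u ∈ W) (hr : Rods R z g u h) : I3 g u h := by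
  refine blk_indep (x := z + u) hR h2 hLM hu ?_ ?_ ?_
  · have e : z + u + u = z := by simp only [add_comm, add_left_comm, add_assoc, h2, add_self_left h2, add_zero, zero_add]
    rw [e]
    exact hR.symm _ _ _ hr.g1
  · intro h4
    apply hr.u3
    have h5 := hR.inv u z
    have h6 := hR.inv u (z + g)
    have e : z + g + u = z + u + g := by simp only [add_comm, add_left_comm, add_assoc, h2, add_self_left h2, add_zero, zero_add]
    rw [e] at h6
    exact hR.trans _ _ _ _ h5 (hR.trans _ _ _ _ h4 (hR.symm _ _ _ h6))
  · have e : z + u + u = z := by simp only [add_comm, add_left_comm, add_assoc, h2, add_self_left h2, add_zero, zero_add]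
    rw [e]
    exact fun h' => hr.h3 (hR.symm _ _ _ h')

/-- the elements of the class in the rods configuration -/
theorem six (hR : Core R) (h2 : ∀ x : Q, x + x = 0) (hLM : LM R ⊤) {z g u h : Q}
    (hr : Rods R z g u h) (hlt : cls R ⊤ g z < 8) {y : Q} (hy : R g z y) :
    (y = z ∨ y = z + g) ∨ (y = z + u ∨ y = z + u + g) ∨ (y = z + u + h ∨ y = z + u + h + g) := by
  obtain ⟨n1, n2, n3, n4, n5, n6, n7⟩ := rods_indep hR h2 hLM (AddSubgroup.mem_top u) hr
  by_contra hcon
  push Not at hcon
  obtain ⟨⟨c1, c2⟩, ⟨c3, c4⟩, c5, c6⟩ := hcon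
  have := le_cls (W := ⊤) hR h2 (AddSubgroup.mem_top g) n1 [y, z, z + u, z + u + h] (x := z) (by
    intro w hw
    refine ⟨AddSubgroup.mem_top _, ?_⟩
    simp only [List.mem_cons, List.not_mem_nil, or_false] at hw
    rcases hw with rfl | rfl | rfl | rfl
    · exact hy
    · exact hR.refl _ _
    · exact hr.g1
    · exact hr.g2) (by
    simp only [List.pairwise_cons, List.mem_cons, List.not_mem_nil, or_false,
      forall_eq_or_imp, forall_eq, List.Pairwise.nil, and_true, IsEmpty.forall_iff,
      implies_true]
    refine ⟨⟨⟨c1, c2⟩, ⟨c3, c4⟩, c5, c6⟩, ⟨⟨?_, ?_⟩, ?_, ?_⟩, ?_, ?_⟩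
    · exact ne_of_add h2 n2 (by simp only [add_comm, add_left_comm, add_assoc, h2, add_self_left h2, add_zero, zero_add])
    · exact ne_of_add h2 n4 (by simp only [add_comm, add_left_comm, add_assoc, h2, add_self_left h2, add_zero, zero_add])
    · exact ne_of_add h2 n6 (by simp only [add_comm, add_left_comm, add_assoc, h2, add_self_left h2, add_zero, zero_add])
    · exact ne_of_add h2 n7 (by simp only [add_comm, add_left_comm, add_assoc, h2, add_self_left h2, add_zero, zero_add])
    · exact ne_of_add h2 n3 (by simp only [add_comm, add_left_comm, add_assoc, h2, add_self_left h2, add_zero, zero_add])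
    · exact ne_of_add h2 n5 (by simp only [add_comm, add_left_comm, add_assoc, h2, add_self_left h2, add_zero, zero_add]))
  simp at this
  omega

theorem eight_le (hR : Core R) (h2 : ∀ x : Q, x + x = 0) {W : AddSubgroup Q} {x g u h : Q}
    (hg : g ∈ W) (hu : u ∈ W) (hh : h ∈ W) (hI : I3 g u h) (h1 : R g x (x + u))
    (h3 : R g x (x + h)) (h4 : R g x (x + u + h)) : 8 ≤ cls R W g x := by
  obtain ⟨n1, n2, n3, n4, n5, n6, n7⟩ := hI
  have := le_cls (W := W) hR h2 hg n1 [x, x + u, x + h, x + u + h] (x := x) (by
    intro w hw
    simp only [List.mem_cons, List.not_mem_nil, or_false] at hw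
    rcases hw with rfl | rfl | rfl | rfl
    · exact ⟨by rw [h2]; exact W.zero_mem, hR.refl _ _⟩
    · exact ⟨by rw [add_self_left h2]; exact hu, h1⟩
    · exact ⟨by rw [add_self_left h2]; exact hh, h3⟩
    · exact ⟨by rw [add_assoc, add_self_left h2]; exact W.add_mem hu hh, h4⟩) (by
    simp only [List.pairwise_cons, List.mem_cons, List.not_mem_nil, or_false,
      forall_eq_or_imp, forall_eq, List.Pairwise.nil, and_true, IsEmpty.forall_iff,
      implies_true]
    refine ⟨⟨⟨?_, ?_⟩, ⟨?_, ?_⟩, ?_, ?_⟩, ⟨⟨?_, ?_⟩, ?_, ?_⟩, ?_, ?_⟩
    · exact ne_of_add h2 n2 (by simp only [add_comm, add_left_comm, add_assoc, h2, add_self_left h2, add_zero, zero_add])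
    · exact ne_of_add h2 n4 (by simp only [add_comm, add_left_comm, add_assoc, h2, add_self_left h2, add_zero, zero_add])
    · exact ne_of_add h2 n3 (by simp only [add_comm, add_left_comm, add_assoc, h2, add_self_left h2, add_zero, zero_add])
    · exact ne_of_add h2 n5 (by simp only [add_comm, add_left_comm, add_assoc, h2, add_self_left h2, add_zero, zero_add])
    · exact ne_of_add h2 n6 (by simp only [add_comm, add_left_comm, add_assoc, h2, add_self_left h2, add_zero, zero_add])
    · exact ne_of_add h2 n7 (by simp only [add_comm, add_left_comm, add_assoc, h2, add_self_left h2, add_zero, zero_add])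
    · exact ne_of_add h2 n6 (by simp only [add_comm, add_left_comm, add_assoc, h2, add_self_left h2, add_zero, zero_add])
    · exact ne_of_add h2 n7 (by simp only [add_comm, add_left_comm, add_assoc, h2, add_self_left h2, add_zero, zero_add])
    · exact ne_of_add h2 n3 (by simp only [add_comm, add_left_comm, add_assoc, h2, add_self_left h2, add_zero, zero_add])
    · exact ne_of_add h2 n5 (by simp only [add_comm, add_left_comm, add_assoc, h2, add_self_left h2, add_zero, zero_add])
    · exact ne_of_add h2 n2 (by simp only [add_comm, add_left_comm, add_assoc, h2, add_self_left h2, add_zero, zero_add])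
    · exact ne_of_add h2 n4 (by simp only [add_comm, add_left_comm, add_assoc, h2, add_self_left h2, add_zero, zero_add]))
  simpa using this

/-- small classes give rods -/
theorem exists_rods (hR : Core R) (h2 : ∀ x : Q, x + x = 0) (hLM : LM R ⊤) {g x y : Q}
    (hxy : ¬ R g x y) (hle : cls R ⊤ g x ≤ cls R ⊤ g y) (hlt : cls R ⊤ g x < 8) :
    ∃ z g u h, Rods R z g u h ∧ cls R ⊤ g z < 8 := by
  obtain ⟨x₀, u, h, hx₀, -, -, h1, hgu, hhu⟩ := third hR h2 hLM
    (fun h hh => absurd (AddSubgroup.mem_top h) hh) (AddSubgroup.mem_top g)
    (AddSubgroup.mem_top (x + y)) hxy hle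
  have hI : I3 g u h := blk_indep hR h2 hLM (AddSubgroup.mem_top u) h1 hgu hhu
  have hx₀R : R g x x₀ := by
    rcases hx₀ with rfl | rfl
    · exact hR.refl _ _
    · exact hR.inv _ _
  have e1 : cls R ⊤ g x = cls R ⊤ g x₀ := cls_congr hR h2 (AddSubgroup.mem_top _) hx₀R
  rcases hR.ab h2 h1 hgu hhu with h3 | h3 | h3
  · exfalso
    have := eight_le (W := ⊤) hR h2 (AddSubgroup.mem_top g) (AddSubgroup.mem_top u)
      (AddSubgroup.mem_top h) hI h1 h3.1 h3.2
    omega
  · refine ⟨x₀ + u, g, u, h, h3.2, ?_⟩
    rw [← cls_congr hR h2 (AddSubgroup.mem_top _) h1]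
    omega
  · refine ⟨x₀, g, u, h, h3.2, ?_⟩
    omega

open Classical in
theorem card_top : (Finset.univ.filter (· ∈ (⊤ : AddSubgroup Q))).card = Fintype.card Q := by
  simp

/-- the next column -/
theorem rods_next (hR : Core R) (h2 : ∀ x : Q, x + x = 0) (hQ : Fintype.card Q = 16)
    (hLM : LM R ⊤) {z g u h : Q} (hr : Rods R z g u h) (hlt : cls R ⊤ g z < 8) :
    cls R ⊤ u z < 8 := by
  have hI := rods_indep hR h2 hLM (AddSubgroup.mem_top u) hr
  obtain ⟨n1, n2, n3, n4, n5, n6, n7⟩ := hI
  -- the rod is not blocked
  have hfree : ∀ k, R k (z + g) (z + g + u) := by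
    intro k
    by_contra hk
    have a1 : R g (z + g) (z + g + u) := by
      have h3 := hR.inv g z
      have h4 := hR.inv g (z + u)
      have e : z + u + g = z + g + u := by simp only [add_comm, add_left_comm, add_assoc, h2, add_self_left h2, add_zero, zero_add]
      rw [e] at h4
      exact hR.trans _ _ _ _ (hR.symm _ _ _ h3) (hR.trans _ _ _ _ hr.g1 h4)
    have a2 : ¬ R u (z + g) (z + g + g) := by
      have e : z + g + g = z := by simp only [add_comm, add_left_comm, add_assoc, h2, add_self_left h2, add_zero, zero_add]
      rw [e]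
      exact fun h' => hr.u3 (hR.symm _ _ _ h')
    obtain ⟨-, -, k3, -, k5, k6, k7⟩ := blk_indep hR h2 hLM (AddSubgroup.mem_top u) a1 a2 hk
    have hgz : R g z (z + g) := hR.inv g z
    -- consequences of `z + k` in the class
    have b1 : R g (z + g) (z + g + k) → k = u + h ∨ k = g + (u + h) := by
      intro h3
      have h4 : R g z (z + k) := by
        have h5 := hR.inv g (z + k)
        have e : z + k + g = z + g + k := by simp only [add_comm, add_left_comm, add_assoc, h2, add_self_left h2, add_zero, zero_add]
        rw [e] at h5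
        exact hR.trans _ _ _ _ hgz (hR.trans _ _ _ _ h3 (hR.symm _ _ _ h5))
      rcases six hR h2 hLM hr hlt h4 with (h5 | h5) | (h5 | h5) | (h5 | h5)
      · exact absurd h5 (ne_of_add h2 k3 (by simp only [add_comm, add_left_comm, add_assoc, h2, add_self_left h2, add_zero, zero_add]))
      · exact absurd h5 (ne_of_add h2 k5 (by simp only [add_comm, add_left_comm, add_assoc, h2, add_self_left h2, add_zero, zero_add]))
      · exact absurd h5 (ne_of_add h2 k6 (by simp only [add_comm, add_left_comm, add_assoc, h2, add_self_left h2, add_zero, zero_add]))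
      · exact absurd h5 (ne_of_add h2 k7 (by simp only [add_comm, add_left_comm, add_assoc, h2, add_self_left h2, add_zero, zero_add]))
      · left
        rw [add_assoc] at h5
        exact add_left_cancel h5
      · right
        have e : z + u + h + g = z + (g + (u + h)) := by simp only [add_comm, add_left_comm, add_assoc, h2, add_self_left h2, add_zero, zero_add]
        rw [e] at h5
        exact add_left_cancel h5
    have b2 : R g (z + g) (z + g + u + k) → k = h ∨ k = g + h := by
      intro h3
      have h4 : R g z (z + u + k) := by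
        have h5 := hR.inv g (z + u + k)
        have e : z + u + k + g = z + g + u + k := by simp only [add_comm, add_left_comm, add_assoc, h2, add_self_left h2, add_zero, zero_add]
        rw [e] at h5
        exact hR.trans _ _ _ _ hgz (hR.trans _ _ _ _ h3 (hR.symm _ _ _ h5))
      rcases six hR h2 hLM hr hlt h4 with (h5 | h5) | (h5 | h5) | (h5 | h5)
      · exact absurd h5 (ne_of_add h2 k6 (by simp only [add_comm, add_left_comm, add_assoc, h2, add_self_left h2, add_zero, zero_add]))
      · exact absurd h5 (ne_of_add h2 k7 (by simp only [add_comm, add_left_comm, add_assoc, h2, add_self_left h2, add_zero, zero_add]))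
      · exact absurd h5 (ne_of_add h2 k3 (by simp only [add_comm, add_left_comm, add_assoc, h2, add_self_left h2, add_zero, zero_add]))
      · exact absurd h5 (ne_of_add h2 k5 (by simp only [add_comm, add_left_comm, add_assoc, h2, add_self_left h2, add_zero, zero_add]))
      · left
        exact add_left_cancel h5
      · right
        have e : z + u + h + g = z + u + (g + h) := by simp only [add_comm, add_left_comm, add_assoc, h2, add_self_left h2, add_zero, zero_add]
        rw [e] at h5
        exact add_left_cancel h5
    -- in the column u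
    have c1 : R u (z + g) (z + h) → False := fun h' =>
      hr.u3 (hR.trans _ _ _ _ hr.u1 (hR.symm _ _ _ h'))
    have c2' : R u (z + g) (z + h + g) → False := fun h' =>
      hr.u3 (hR.trans _ _ _ _ hr.u2 (hR.symm _ _ _ h'))
    have key : R u (z + g) (z + g + k) → (k = u + h ∨ k = g + (u + h) ∨ k = h ∨ k = g + h) →
        False := by
      rintro h3 (rfl | rfl | rfl | rfl)
      · apply c2'
        have h5 := hR.inv u (z + h + g)
        have e : z + h + g + u = z + g + (u + h) := by simp only [add_comm, add_left_comm, add_assoc, h2, add_self_left h2, add_zero, zero_add]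
        rw [e] at h5
        exact hR.trans _ _ _ _ h3 (hR.symm _ _ _ h5)
      · apply c1
        have h5 := hR.inv u (z + h)
        have e : z + h + u = z + g + (g + (u + h)) := by simp only [add_comm, add_left_comm, add_assoc, h2, add_self_left h2, add_zero, zero_add]
        rw [e] at h5
        exact hR.trans _ _ _ _ h3 (hR.symm _ _ _ h5)
      · apply c2'
        have e : z + g + k = z + k + g := by simp only [add_comm, add_left_comm, add_assoc, h2, add_self_left h2, add_zero, zero_add]
        rw [e] at h3
        exact h3
      · apply c1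
        have e : z + g + (g + h) = z + h := by simp only [add_comm, add_left_comm, add_assoc, h2, add_self_left h2, add_zero, zero_add]
        rw [e] at h3
        exact h3
    rcases hR.ab h2 a1 a2 hk with h3 | h3 | h3
    · rcases b1 h3.1 with h4 | h4
      · rcases b2 h3.2 with h5 | h5
        · have h6 : u + h = h := h4.symm.trans h5
          exact n2 (by simpa using h6)
        · have h6 : u + h = g + h := h4.symm.trans h5
          have h7 : u = g := add_right_cancel h6
          exact n4 (by rw [h7, h2])
      · rcases b2 h3.2 with h5 | h5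
        · have h6 : g + (u + h) = h := h4.symm.trans h5
          rw [← add_assoc] at h6
          exact n4 (by simpa using h6)
        · have h6 : g + (u + h) = g + h := h4.symm.trans h5
          have h7 := add_left_cancel h6
          exact n2 (by simpa using h7)
    · have h4 : R u (z + g) (z + g + k) := by
        have h5 := h3.2.u1
        have h6 := hR.inv u (z + g)
        have h7 := hR.inv u (z + g + k)
        have e : z + g + k + u = z + g + u + k := by simp only [add_comm, add_left_comm, add_assoc, h2, add_self_left h2, add_zero, zero_add]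
        rw [e] at h7
        exact hR.trans _ _ _ _ h6 (hR.trans _ _ _ _ h5 (hR.symm _ _ _ h7))
      rcases b1 h3.1 with h5 | h5
      · exact key h4 (Or.inl h5)
      · exact key h4 (Or.inr (Or.inl h5))
    · have h4 : R u (z + g) (z + g + k) := h3.2.u1
      rcases b2 h3.1 with h5 | h5
      · exact key h4 (Or.inr (Or.inr (Or.inl h5)))
      · exact key h4 (Or.inr (Or.inr (Or.inr h5)))
  have l1 := hLM u (AddSubgroup.mem_top u) (z + g) z (AddSubgroup.mem_top _)
    (fun h' => hr.u3 (hR.symm _ _ _ h')) hfree
  have l2 := cls_add_le (W := ⊤) hR h2 (g := u) (x := z) (y := z + g) (AddSubgroup.mem_top _)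
    hr.u3
  rw [card_top, hQ] at l2
  omega

/-- columns outside of the 3-flat are constant on the lines of the class -/
theorem rods_edge (hR : Core R) (h2 : ∀ x : Q, x + x = 0) (hLM : LM R ⊤) {z g u h k : Q}
    (hr : Rods R z g u h) (hlt : cls R ⊤ g z < 8) (hk : k ∉ h3 g u h) :
    R k z (z + g) ∧ R k (z + u) (z + u + g) ∧ R k (z + u + h) (z + u + h + g) := by
  rw [mem_h3 h2] at hk
  push Not at hk
  obtain ⟨⟨⟨m1, m2⟩, m3, m4⟩, ⟨m5, m6⟩, m7, m8⟩ := hk
  have key : ∀ y, R g z y → (y = z ∨ y = z + u ∨ y = z + u + h) → R k y (y + g) := by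
    intro y hy hy'
    apply hR.k2 h2
    intro h4
    have h5 := hR.trans _ _ _ _ hy h4
    have h6 := six hR h2 hLM hr hlt h5
    rcases hy' with rfl | rfl | rfl
    · rcases h6 with (h6 | h6) | (h6 | h6) | (h6 | h6)
      · exact ne_of_add h2 m1 (by simp only [add_comm, add_left_comm, add_assoc, h2, add_self_left h2, add_zero, zero_add]) h6
      · exact ne_of_add h2 m2 (by simp only [add_comm, add_left_comm, add_assoc, h2, add_self_left h2, add_zero, zero_add]) h6
      · exact ne_of_add h2 m3 (by simp only [add_comm, add_left_comm, add_assoc, h2, add_self_left h2, add_zero, zero_add]) h6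
      · exact ne_of_add h2 m4 (by simp only [add_comm, add_left_comm, add_assoc, h2, add_self_left h2, add_zero, zero_add]) h6
      · exact ne_of_add h2 m7 (by simp only [add_comm, add_left_comm, add_assoc, h2, add_self_left h2, add_zero, zero_add]) h6
      · exact ne_of_add h2 m8 (by simp only [add_comm, add_left_comm, add_assoc, h2, add_self_left h2, add_zero, zero_add]) h6
    · rcases h6 with (h6 | h6) | (h6 | h6) | (h6 | h6)
      · exact ne_of_add h2 m3 (by simp only [add_comm, add_left_comm, add_assoc, h2, add_self_left h2, add_zero, zero_add]) h6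
      · exact ne_of_add h2 m4 (by simp only [add_comm, add_left_comm, add_assoc, h2, add_self_left h2, add_zero, zero_add]) h6
      · exact ne_of_add h2 m1 (by simp only [add_comm, add_left_comm, add_assoc, h2, add_self_left h2, add_zero, zero_add]) h6
      · exact ne_of_add h2 m2 (by simp only [add_comm, add_left_comm, add_assoc, h2, add_self_left h2, add_zero, zero_add]) h6
      · exact ne_of_add h2 m5 (by simp only [add_comm, add_left_comm, add_assoc, h2, add_self_left h2, add_zero, zero_add]) h6
      · exact ne_of_add h2 m6 (by simp only [add_comm, add_left_comm, add_assoc, h2, add_self_left h2, add_zero, zero_add]) h6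
    · rcases h6 with (h6 | h6) | (h6 | h6) | (h6 | h6)
      · exact ne_of_add h2 m7 (by simp only [add_comm, add_left_comm, add_assoc, h2, add_self_left h2, add_zero, zero_add]) h6
      · exact ne_of_add h2 m8 (by simp only [add_comm, add_left_comm, add_assoc, h2, add_self_left h2, add_zero, zero_add]) h6
      · exact ne_of_add h2 m5 (by simp only [add_comm, add_left_comm, add_assoc, h2, add_self_left h2, add_zero, zero_add]) h6
      · exact ne_of_add h2 m6 (by simp only [add_comm, add_left_comm, add_assoc, h2, add_self_left h2, add_zero, zero_add]) h6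
      · exact ne_of_add h2 m1 (by simp only [add_comm, add_left_comm, add_assoc, h2, add_self_left h2, add_zero, zero_add]) h6
      · exact ne_of_add h2 m2 (by simp only [add_comm, add_left_comm, add_assoc, h2, add_self_left h2, add_zero, zero_add]) h6
  exact ⟨key z (hR.refl _ _) (Or.inl rfl), key _ hr.g1 (Or.inr (Or.inl rfl)),
    key _ hr.g2 (Or.inr (Or.inr rfl))⟩

/-- all columns outside of the 3-flat are constant -/
theorem rods_const (hR : Core R) (h2 : ∀ x : Q, x + x = 0) (hQ : Fintype.card Q = 16)
    (hLM : LM R ⊤) {z g u h : Q} (hr : Rods R z g u h) (hlt : cls R ⊤ g z < 8) {k : Q}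
    (hk : k ∉ h3 g u h) (p q : Q) : R k p q := by
  have hI := rods_indep hR h2 hLM (AddSubgroup.mem_top u) hr
  have hlt2 := rods_next hR h2 hQ hLM hr hlt
  have hlt3 := rods_next hR h2 hQ hLM hr.cyc hlt2
  obtain ⟨a1, a2, a3⟩ := rods_edge hR h2 hLM hr hlt hk
  obtain ⟨b1, b2, b3⟩ := rods_edge hR h2 hLM hr.cyc hlt2 (fun h' => hk (h3_cyc h2 h'))
  obtain ⟨c1, c2', c3⟩ := rods_edge hR h2 hLM hr.cyc.cyc hlt3
    (fun h' => hk (h3_cyc h2 (h3_cyc h2 h')))
  have key : ∀ p, p + z ∈ h3 g u h → R k z p := by
    intro p hp
    have ez : z + (p + z) = p := by simp only [add_comm, add_left_comm, add_assoc, h2, add_self_left h2, add_zero, zero_add]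
    rw [mem_h3 h2] at hp
    rcases hp with ((hp | hp) | (hp | hp)) | ((hp | hp) | (hp | hp))
    · have e : p = z := eq_of_add h2 hp
      rw [e]
      exact hR.refl _ _
    · have e : z + g = p := eq_of_add h2 (by rw [← hp]; simp only [add_comm, add_left_comm, add_assoc, h2, add_self_left h2, add_zero, zero_add])
      rw [← e]
      exact a1
    · have e : z + u = p := eq_of_add h2 (by rw [← hp]; simp only [add_comm, add_left_comm, add_assoc, h2, add_self_left h2, add_zero, zero_add])
      rw [← e]
      exact b1
    · have e : z + u + g = p := eq_of_add h2 (by rw [← hp]; simp only [add_comm, add_left_comm, add_assoc, h2, add_self_left h2, add_zero, zero_add])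
      rw [← e]
      exact hR.trans _ _ _ _ b1 a2
    · have e : z + h = p := eq_of_add h2 (by rw [← hp]; simp only [add_comm, add_left_comm, add_assoc, h2, add_self_left h2, add_zero, zero_add])
      rw [← e]
      exact c1
    · have e : z + g + h = p := eq_of_add h2 (by rw [← hp]; simp only [add_comm, add_left_comm, add_assoc, h2, add_self_left h2, add_zero, zero_add])
      rw [← e]
      exact hR.trans _ _ _ _ a1 c2'
    · have e : z + h + u = p := eq_of_add h2 (by rw [← hp]; simp only [add_comm, add_left_comm, add_assoc, h2, add_self_left h2, add_zero, zero_add])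
      rw [← e]
      exact hR.trans _ _ _ _ c1 b2
    · have e : z + u + h + g = p := eq_of_add h2 (by rw [← hp]; simp only [add_comm, add_left_comm, add_assoc, h2, add_self_left h2, add_zero, zero_add])
      rw [← e]
      have e2 : z + h + u = z + u + h := by simp only [add_comm, add_left_comm, add_assoc, h2, add_self_left h2, add_zero, zero_add]
      rw [e2] at b2
      exact hR.trans _ _ _ _ (hR.trans _ _ _ _ c1 b2) a3
  have key2 : ∀ p, R k z p := by
    intro p
    rcases mem_or_add_mem h2 hQ hI hk (p + z) with h4 | h4
    · exact key p h4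
    · have e : p + z + k = p + k + z := by simp only [add_comm, add_left_comm, add_assoc, h2, add_self_left h2, add_zero, zero_add]
      rw [e] at h4
      exact hR.trans _ _ _ _ (key _ h4) (hR.symm _ _ _ (hR.inv k p))
  exact hR.trans _ _ _ _ (hR.symm _ _ _ (key2 p)) (key2 q)

end CTL
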