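import Pool.Agent.CTL.Pot

/-!
# CTL / Top: systems over groups of order at most 16 are connected
-/

namespace CTL

open Finset

variable {I Q L : Type*} [AddCommGroup Q]

theorem Conn.out {e : I → Q} {W : AddSubgroup Q} {c c' : I → Q → L} (hc : Conn e W c c') (i : I)
    (hi : e i ∉ W) : c' i = c i := by
  induction hc with
  | refl => rfl
  | tail _ h ih =>
    obtain ⟨j, x, l, h1, h3, rfl⟩ := h
    rw [← ih]
    funext y
    apply rcl_ne
    rintro rfl
    exact hi h1

variable [Fintype Q] [Finite I]

/-- constant columns from columns which are constant on cosets -/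
theorem unify (h2 : ∀ x : Q, x + x = 0) {e : I → Q} {W : AddSubgroup Q} {c : I → Q → L}
    (hc : ∀ j x y, x + y ∈ W → c j x = c j y) (hout : ∀ j, e j ∉ W → ∀ x y, c j x = c j y) :
    ∃ c', Conn e W c c' ∧ ∀ j x y, c' j x = c' j y := by
  classical
  haveI := Fintype.ofFinite I
  have key : ∀ J : Finset I, ∃ c', Conn e W c c' ∧ (∀ j ∈ J, ∀ x y, c' j x = c' j y) ∧
      (∀ j x y, x + y ∈ W → c' j x = c' j y) ∧ (∀ j, e j ∉ W → ∀ x y, c' j x = c' j y) := by
    intro J
    induction J using Finset.induction_on with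
    | empty => exact ⟨c, Relation.ReflTransGen.refl, by simp, hc, hout⟩
    | insert i J _ ih =>
      obtain ⟨c', h1, h3, h4, h5⟩ := ih
      by_cases hi : e i ∈ W
      · obtain ⟨c'', k1, k3, k4⟩ := fill (c := c') hi (c' i 0) (fun x j _ =>
          h4 j x (x + e i) (by rw [add_self_left h2]; exact hi))
        have kc : ∀ x y, c'' i x = c'' i y := fun x y => by rw [k3, k3]
        refine ⟨c'', Relation.ReflTransGen.trans h1 k1, fun j hj x y => ?_, fun j x y hxy => ?_,
          fun j hj x y => ?_⟩
        · by_cases hji : j = i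
          · rw [hji]
            exact kc x y
          · rw [k4 j hji]
            exact h3 j ((Finset.mem_insert.1 hj).resolve_left hji) x y
        · by_cases hji : j = i
          · rw [hji]
            exact kc x y
          · rw [k4 j hji]
            exact h4 j x y hxy
        · by_cases hji : j = i
          · rw [hji]
            exact kc x y
          · rw [k4 j hji]
            exact h5 j hj x y
      · refine ⟨c', h1, fun j hj x y => ?_, h4, h5⟩
        rcases Finset.mem_insert.1 hj with rfl | hj
        · exact h5 j hi x y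
        · exact h3 j hj x y
  obtain ⟨c', h1, h3, -, -⟩ := key Finset.univ
  exact ⟨c', h1, fun j x y => h3 j (Finset.mem_univ _) x y⟩

/-- changing the constants -/
theorem relabel {e : I → Q} {c : I → Q → L} (hc : ∀ j x y, c j x = c j y) (l : I → L) :
    Conn e ⊤ c (fun i _ => l i) := by
  classical
  haveI := Fintype.ofFinite I
  have key : ∀ J : Finset I, ∃ c', Conn e ⊤ c c' ∧ (∀ j ∈ J, ∀ x, c' j x = l j) ∧
      (∀ j x y, c' j x = c' j y) := by
    intro J
    induction J using Finset.induction_on with
    | empty => exact ⟨c, Relation.ReflTransGen.refl, by simp, hc⟩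
    | insert i J _ ih =>
      obtain ⟨c', h1, h3, h4⟩ := ih
      obtain ⟨c'', k1, k3, k4⟩ := fill (c := c') (W := ⊤) (AddSubgroup.mem_top (e i)) (l i)
        (fun x j _ => h4 j x (x + e i))
      refine ⟨c'', Relation.ReflTransGen.trans h1 k1, fun j hj x => ?_, fun j x y => ?_⟩
      · by_cases hji : j = i
        · rw [hji]
          exact k3 x
        · rw [k4 j hji]
          exact h3 j ((Finset.mem_insert.1 hj).resolve_left hji) x
      · by_cases hji : j = i
        · rw [hji, k3, k3]
        · rw [k4 j hji]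
          exact h4 j x y
  obtain ⟨c', h1, h3, -⟩ := key Finset.univ
  have e1 : c' = fun i _ => l i := by
    funext i x
    exact h3 i (Finset.mem_univ _) x
  rw [← e1]
  exact h1

open Classical in
/-- subgroups of order at most 8 -/
theorem small (h2 : ∀ x : Q, x + x = 0) {e : I → Q} {W : AddSubgroup Q} {c : I → Q → L}
    (hs : IsSys e c) (hcard : (Finset.univ.filter (· ∈ W)).card ≤ 8)
    (hout : ∀ h, h ∉ W → ∀ x y, Rel e c h x y) :
    ∃ c', Conn e W c c' ∧ ∀ j x y, c' j x = c' j y := by
  obtain ⟨c₁, h1, hmax⟩ := exists_max e W c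
  have hs1 := h1.isSys h2 hs
  have hout1 : ∀ h, h ∉ W → ∀ x y, Rel e c₁ h x y := by
    intro h hh x y i hi
    rw [Conn.out h1 i (by rw [hi]; exact hh)]
    exact hout h hh x y i hi
  have hLM := lm_of_max h2 hs1 hmax
  have hconst : ∀ j x y, x + y ∈ W → c₁ j x = c₁ j y := by
    intro j x y hxy
    by_cases hj : e j ∈ W
    · exact const_of_card_le (hs1.core h2) h2 hLM hout1 hcard hj hxy j rfl
    · exact hout1 (e j) hj x y j rfl
  obtain ⟨c', h3, h4⟩ := unify h2 hconst (fun j hj x y => hout1 (e j) hj x y j rfl)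
  exact ⟨c', Relation.ReflTransGen.trans h1 h3, h4⟩

open Classical in
theorem card_s3 (h2 : ∀ x : Q, x + x = 0) {g u h : Q} (hI : I3 g u h) :
    (Finset.univ.filter (· ∈ s3 h2 g u h)).card = 8 := by
  rw [← card_h3 h2 hI]
  congr 1
  ext p
  rw [Finset.mem_filter, mem_s3]
  exact ⟨fun h => h.2, fun h => ⟨Finset.mem_univ _, h⟩⟩

/-- Systems over groups of order at most 16 are connected. -/
theorem sys_conn (h2 : ∀ x : Q, x + x = 0) {e : I → Q} {c : I → Q → L} (hs : IsSys e c)
    (hQ : Fintype.card Q ≤ 16) {n : ℕ} (hn : Fintype.card Q = 2 ^ n) (l : I → L) :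
    Conn e ⊤ c (fun i _ => l i) := by
  by_cases h8 : Fintype.card Q ≤ 8
  · obtain ⟨c', h1, h3⟩ := small (W := ⊤) h2 hs (by rw [card_top]; exact h8)
      (fun h hh => absurd (AddSubgroup.mem_top h) hh)
    exact Relation.ReflTransGen.trans h1 (relabel h3 l)
  · have h16 : Fintype.card Q = 16 := by
      rw [hn] at hQ h8 ⊢
      have hn4 : n ≤ 4 := by
        by_contra h
        have : 2 ^ 5 ≤ 2 ^ n := Nat.pow_le_pow_right (by norm_num) (by omega)
        omega
      interval_cases n <;> omega
    obtain ⟨c₁, h1, hmax⟩ := exists_max e ⊤ c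
    have hs1 := h1.isSys h2 hs
    have hLM := lm_of_max h2 hs1 hmax
    rcases core_concl (hs1.core h2) h2 h16 hLM with h3 | ⟨g, u, h, hI, h3⟩
    · exact Relation.ReflTransGen.trans h1 (relabel (fun j x y => h3 (e j) x y j rfl) l)
    · obtain ⟨c', h4, h5⟩ := small (W := s3 h2 g u h) h2 hs1 (card_s3 h2 hI).le h3
      exact Relation.ReflTransGen.trans h1
        (Relation.ReflTransGen.trans (h4.mono le_top) (relabel h5 l))

end CTL
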